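import Mathlib

/-!
# Deletion with random colours

`exists_avoid`: let `A` be a finite set, `lev` a map to a finite set of levels and `col` a colouring with `m` colours.
Choosing one colour for each level at random and deleting one element of each bad set that is left, one gets a set
without bad subset with at least `|A| / m - ∑ m ^ (-|s|)` elements, the sum over the bad sets `s` (the levels of the elements of
a bad set are distinct).
-/

set_option autoImplicit false

namespace Pool.Agent.Lib.CSid

open Finset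

section

variable {α Λ : Type*} [DecidableEq α] [Fintype Λ] [DecidableEq Λ]

omit [DecidableEq α] in
lemma card_choice (m : ℕ) (lev : α → Λ) (col : α → Fin m) (s : Finset α)
    (hs : Set.InjOn lev s) :
    (univ.filter (fun f : Λ → Fin m => ∀ a ∈ s, f (lev a) = col a)).card * m ^ s.card =
      m ^ Fintype.card Λ := by
  classical
  set t : Λ → Finset (Fin m) := fun l => univ.filter (fun c => ∀ a ∈ s, lev a = l → c = col a)
    with ht
  have e1 : univ.filter (fun f : Λ → Fin m => ∀ a ∈ s, f (lev a) = col a) = Fintype.piFinset t := by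
    ext f
    simp only [mem_filter, mem_univ, true_and, Fintype.mem_piFinset, ht]
    constructor
    · rintro h l a ha rfl
      exact h a ha
    · intro h a ha
      exact h (lev a) a ha rfl
  have e2 : ∀ l ∈ s.image lev, (t l).card = 1 := by
    intro l hl
    obtain ⟨a, ha, rfl⟩ := mem_image.1 hl
    rw [card_eq_one]
    refine ⟨col a, ?_⟩
    ext c
    simp only [ht, mem_filter, mem_univ, true_and, mem_singleton]
    constructor
    · intro h
      exact h a ha rfl
    · rintro rfl a' ha' h'
      rw [hs ha' ha h']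
  have e3 : ∀ l ∈ (s.image lev)ᶜ, (t l).card = m := by
    intro l hl
    rw [mem_compl] at hl
    have : t l = univ := by
      ext c
      simp only [ht, mem_filter, mem_univ, true_and, iff_true]
      rintro a ha rfl
      exact absurd (mem_image_of_mem lev ha) hl
    rw [this, card_univ, Fintype.card_fin]
  have e4 : (s.image lev).card = s.card := card_image_of_injOn hs
  rw [e1, Fintype.card_piFinset, ← prod_mul_prod_compl (s.image lev), prod_congr rfl e2,
    prod_congr rfl e3, prod_const_one, one_mul, prod_const, ← pow_add, card_compl, e4]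
  congr 1
  have : s.card ≤ Fintype.card Λ := by
    rw [← e4]
    exact card_le_univ _
  omega

omit [DecidableEq α] in
lemma card_choice_real (m : ℕ) (hm : 0 < m) (lev : α → Λ) (col : α → Fin m) (s : Finset α)
    (hs : Set.InjOn lev s) :
    ((univ.filter (fun f : Λ → Fin m => ∀ a ∈ s, f (lev a) = col a)).card : ℝ) =
      (m : ℝ) ^ Fintype.card Λ * (1 / (m : ℝ) ^ s.card) := by
  have h := card_choice m lev col s hs
  have hm' : (0 : ℝ) < (m : ℝ) ^ s.card := by positivity
  have h2 : ((univ.filter (fun f : Λ → Fin m => ∀ a ∈ s, f (lev a) = col a)).card : ℝ) *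
      (m : ℝ) ^ s.card = (m : ℝ) ^ Fintype.card Λ := by exact_mod_cast h
  rw [← h2]
  field_simp

theorem exists_avoid (m : ℕ) (hm : 0 < m) (A : Finset α) (lev : α → Λ) (col : α → Fin m)
    (S : Finset (Finset α)) (hne : ∀ s ∈ S, s.Nonempty) (hS : ∀ s ∈ S, Set.InjOn lev s) :
    ∃ B ⊆ A, (∀ s ∈ S, ¬ s ⊆ B) ∧ (∃ f : Λ → Fin m, ∀ a ∈ B, f (lev a) = col a) ∧
      (A.card : ℝ) / m - ∑ s ∈ S, 1 / (m : ℝ) ^ s.card ≤ B.card := by
  classical
  have : Nonempty (Fin m) := ⟨⟨0, hm⟩⟩
  set P : ℝ := (m : ℝ) ^ Fintype.card Λ with hP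
  have hP0 : 0 < P := by positivity
  -- number of elements, on average
  have s1 : ∑ f : Λ → Fin m, ((A.filter (fun a => f (lev a) = col a)).card : ℝ) =
      P * ((A.card : ℝ) / m) := by
    have : ∀ a ∈ A, ∑ f : Λ → Fin m, (if f (lev a) = col a then (1 : ℝ) else 0) = P * (1 / m) := by
      intro a _
      have h := card_choice_real m hm lev col {a} (by simp)
      simp only [mem_singleton, forall_eq, card_singleton, pow_one] at h
      rw [← sum_filter, sum_const, nsmul_eq_mul, mul_one]
      exact h
    simp_rw [card_filter]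
    push_cast
    rw [sum_comm, sum_congr rfl this, sum_const, nsmul_eq_mul]
    ring
  have s2 : ∑ f : Λ → Fin m, ((S.filter (fun s => ∀ a ∈ s, f (lev a) = col a)).card : ℝ) =
      P * ∑ s ∈ S, 1 / (m : ℝ) ^ s.card := by
    simp_rw [card_filter]
    push_cast
    rw [sum_comm, mul_sum]
    refine sum_congr rfl fun s hs => ?_
    have h := card_choice_real m hm lev col s (hS s hs)
    rw [← sum_filter, sum_const, nsmul_eq_mul, mul_one]
    exact h
  obtain ⟨f, -, hf⟩ : ∃ f ∈ (univ : Finset (Λ → Fin m)),
      (A.card : ℝ) / m - ∑ s ∈ S, 1 / (m : ℝ) ^ s.card ≤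
        ((A.filter (fun a => f (lev a) = col a)).card : ℝ) -
          ((S.filter (fun s => ∀ a ∈ s, f (lev a) = col a)).card : ℝ) := by
    apply exists_le_of_sum_le (univ_nonempty)
    rw [sum_sub_distrib (f := fun f : Λ → Fin m =>
      ((A.filter (fun a => f (lev a) = col a)).card : ℝ)), s1, s2, sum_const, card_univ,
      Fintype.card_fun, Fintype.card_fin, nsmul_eq_mul]
    push_cast
    rw [mul_sub]
  set Bf := A.filter (fun a => f (lev a) = col a) with hBf
  set Sf := S.filter (fun s => ∀ a ∈ s, f (lev a) = col a) with hSf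
  have hSfS : ∀ s ∈ Sf, s ∈ S := fun s hs => (mem_filter.1 hs).1
  choose pick hpick using hne
  set R : Finset α := Sf.attach.image (fun s => pick s.1 (hSfS s.1 s.2)) with hR
  have hRc : R.card ≤ Sf.card := by
    rw [hR]
    exact card_image_le.trans (by rw [card_attach])
  refine ⟨Bf \ R, (sdiff_subset).trans (filter_subset _ _), ?_, ⟨f, ?_⟩, ?_⟩
  · intro s hs hsB
    have hsf : s ∈ Sf := by
      rw [hSf, mem_filter]
      refine ⟨hs, fun a ha => ?_⟩
      have := hsB ha
      rw [mem_sdiff, hBf, mem_filter] at this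
      exact this.1.2
    have h1 := hsB (hpick s hs)
    rw [mem_sdiff] at h1
    apply h1.2
    rw [hR, mem_image]
    exact ⟨⟨s, hsf⟩, mem_attach _ _, rfl⟩
  · intro a ha
    rw [mem_sdiff, hBf, mem_filter] at ha
    exact ha.1.2
  · have h1 : Bf.card ≤ (Bf \ R).card + R.card := by
      have := card_le_card_sdiff_add_card (s := Bf) (t := R)
      exact this
    have h2 : (Bf.card : ℝ) ≤ ((Bf \ R).card : ℝ) + (Sf.card : ℝ) := by
      exact_mod_cast h1.trans (Nat.add_le_add_left hRc _)
    linarith

end

/-- deletion without levels -/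
theorem exists_avoid_plain {α : Type*} [DecidableEq α] (m : ℕ) (hm : 0 < m) (A : Finset α)
    (S : Finset (Finset α)) (hne : ∀ s ∈ S, s.Nonempty) (hS : ∀ s ∈ S, s ⊆ A) :
    ∃ B ⊆ A, (∀ s ∈ S, ¬ s ⊆ B) ∧
      (A.card : ℝ) / m - ∑ s ∈ S, 1 / (m : ℝ) ^ s.card ≤ B.card := by
  classical
  let lev : α → Option {x // x ∈ A} := fun a => if h : a ∈ A then some ⟨a, h⟩ else none
  have hinj : ∀ s ∈ S, Set.InjOn lev s := by
    intro s hs a ha b hb hab
    have ha' : a ∈ A := hS s hs ha
    have hb' : b ∈ A := hS s hs hb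
    simp only [lev, dif_pos ha', dif_pos hb', Option.some.injEq, Subtype.mk.injEq] at hab
    exact hab
  obtain ⟨B, h1, h2, -, h3⟩ := exists_avoid m hm A lev (fun _ => ⟨0, hm⟩) S hne hinj
  exact ⟨B, h1, h2, h3⟩

end Pool.Agent.Lib.CSid
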