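import Pool.Agent.Lib.CSid.Energy
import Pool.Agent.Lib.CSid.Del

/-!
# Sidon subsets from energy bounds
-/

set_option autoImplicit false

namespace Pool.Agent.Lib.CSid

open Finset

/-- additive Sidon set of integers -/
def AddSidon (B : Finset ℤ) : Prop :=
  ∀ a ∈ B, ∀ b ∈ B, ∀ c ∈ B, ∀ d ∈ B, a + b = c + d → (a = c ∧ b = d) ∨ (a = d ∧ b = c)

/-- multiplicative Sidon set of integers -/
def MulSidon (B : Finset ℤ) : Prop :=
  ∀ a ∈ B, ∀ b ∈ B, ∀ c ∈ B, ∀ d ∈ B, a * b = c * d → (a = c ∧ b = d) ∨ (a = d ∧ b = c)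

section generic

variable (op : ℤ → ℤ → ℤ) (A : Finset ℤ)

/-- triples giving bad sets of three elements -/
def bad3 : Finset (ℤ × (ℤ × ℤ)) :=
  (A ×ˢ (A ×ˢ A)).filter (fun t => op t.1 t.1 = op t.2.1 t.2.2 ∧ t.1 ≠ t.2.1 ∧ t.1 ≠ t.2.2 ∧
    t.2.1 ≠ t.2.2)

/-- quadruples giving bad sets of four elements -/
def bad4 : Finset ((ℤ × ℤ) × (ℤ × ℤ)) :=
  ((A ×ˢ A) ×ˢ (A ×ˢ A)).filter (fun t => op t.1.1 t.1.2 = op t.2.1 t.2.2 ∧
    t.1.1 ≠ t.1.2 ∧ t.1.1 ≠ t.2.1 ∧ t.1.1 ≠ t.2.2 ∧ t.1.2 ≠ t.2.1 ∧ t.1.2 ≠ t.2.2 ∧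
    t.2.1 ≠ t.2.2)

/-- a set without bad subsets of three or four elements is Sidon -/
lemma sidon_of_avoid (hcomm : ∀ a b, op a b = op b a)
    (hcanc : ∀ a ∈ A, ∀ b ∈ A, ∀ c ∈ A, op a b = op a c → b = c)
    (hsq : ∀ a ∈ A, ∀ c ∈ A, op a a = op c c → a = c) {B : Finset ℤ} (hB : B ⊆ A)
    (h3 : ∀ t ∈ bad3 op A, ¬ ({t.1, t.2.1, t.2.2} : Finset ℤ) ⊆ B)
    (h4 : ∀ t ∈ bad4 op A, ¬ ({t.1.1, t.1.2, t.2.1, t.2.2} : Finset ℤ) ⊆ B) :
    ∀ a ∈ B, ∀ b ∈ B, ∀ c ∈ B, ∀ d ∈ B, op a b = op c d →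
      (a = c ∧ b = d) ∨ (a = d ∧ b = c) := by
  intro a ha b hb c hc d hd h
  by_cases h1 : a = c
  · subst h1
    exact Or.inl ⟨rfl, hcanc a (hB ha) b (hB hb) d (hB hd) h⟩
  by_cases h2 : a = d
  · subst h2
    rw [hcomm c a] at h
    exact Or.inr ⟨rfl, hcanc a (hB ha) b (hB hb) c (hB hc) h⟩
  by_cases h5 : b = c
  · subst h5
    rw [hcomm a b] at h
    exact Or.inr ⟨hcanc b (hB hb) a (hB ha) d (hB hd) h, rfl⟩
  by_cases h6 : b = d
  · subst h6
    rw [hcomm a b, hcomm c b] at h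
    exact Or.inl ⟨hcanc b (hB hb) a (hB ha) c (hB hc) h, rfl⟩
  exfalso
  by_cases h7 : a = b
  · subst h7
    by_cases h8 : c = d
    · subst h8
      exact h1 (hsq a (hB ha) c (hB hc) h)
    · apply h3 (a, (c, d))
      · rw [bad3, mem_filter, mem_product, mem_product]
        exact ⟨⟨hB ha, hB hc, hB hd⟩, h, h1, h2, h8⟩
      · intro x hx
        simp only [mem_insert, mem_singleton] at hx
        rcases hx with rfl | rfl | rfl <;> assumption
  · by_cases h8 : c = d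
    · subst h8
      apply h3 (c, (a, b))
      · rw [bad3, mem_filter, mem_product, mem_product]
        exact ⟨⟨hB hc, hB ha, hB hb⟩, h.symm, fun h' => h1 h'.symm, fun h' => h5 h'.symm, h7⟩
      · intro x hx
        simp only [mem_insert, mem_singleton] at hx
        rcases hx with rfl | rfl | rfl <;> assumption
    · apply h4 ((a, b), (c, d))
      · rw [bad4, mem_filter, mem_product, mem_product, mem_product]
        exact ⟨⟨⟨hB ha, hB hb⟩, hB hc, hB hd⟩, h, h7, h1, h2, h5, h6, h8⟩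
      · intro x hx
        simp only [mem_insert, mem_singleton] at hx
        rcases hx with rfl | rfl | rfl | rfl <;> assumption

lemma card_three {a b c : ℤ} (h1 : a ≠ b) (h2 : a ≠ c) (h3 : b ≠ c) :
    ({a, b, c} : Finset ℤ).card = 3 := card_eq_three.2 ⟨a, b, c, h1, h2, h3, rfl⟩

lemma card_four {a b c d : ℤ} (h1 : a ≠ b) (h2 : a ≠ c) (h3 : a ≠ d) (h4 : b ≠ c) (h5 : b ≠ d)
    (h6 : c ≠ d) : ({a, b, c, d} : Finset ℤ).card = 4 := by
  rw [card_insert_of_notMem, card_three h4 h5 h6]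
  simp only [mem_insert, mem_singleton, not_or]
  exact ⟨h1, h2, h3⟩

/-- the deletion method -/
theorem sidon_del (hcomm : ∀ a b, op a b = op b a)
    (hcanc : ∀ a ∈ A, ∀ b ∈ A, ∀ c ∈ A, op a b = op a c → b = c)
    (hsq : ∀ a ∈ A, ∀ c ∈ A, op a a = op c c → a = c) (m : ℕ) (hm : 0 < m) :
    ∃ B ⊆ A, (∀ a ∈ B, ∀ b ∈ B, ∀ c ∈ B, ∀ d ∈ B, op a b = op c d →
      (a = c ∧ b = d) ∨ (a = d ∧ b = c)) ∧
      (A.card : ℝ) / m - (bad3 op A).card / (m : ℝ) ^ 3 - (bad4 op A).card / (m : ℝ) ^ 4 ≤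
        B.card := by
  classical
  set S3 : Finset (Finset ℤ) := (bad3 op A).image (fun t => {t.1, t.2.1, t.2.2}) with hS3
  set S4 : Finset (Finset ℤ) := (bad4 op A).image (fun t => {t.1.1, t.1.2, t.2.1, t.2.2}) with hS4
  have c3 : ∀ s ∈ S3, s.card = 3 ∧ s ⊆ A := by
    intro s hs
    obtain ⟨t, ht, rfl⟩ := mem_image.1 hs
    rw [bad3, mem_filter, mem_product, mem_product] at ht
    refine ⟨card_three ht.2.2.1 ht.2.2.2.1 ht.2.2.2.2, ?_⟩
    intro x hx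
    simp only [mem_insert, mem_singleton] at hx
    rcases hx with rfl | rfl | rfl
    · exact ht.1.1
    · exact ht.1.2.1
    · exact ht.1.2.2
  have c4 : ∀ s ∈ S4, s.card = 4 ∧ s ⊆ A := by
    intro s hs
    obtain ⟨t, ht, rfl⟩ := mem_image.1 hs
    rw [bad4, mem_filter, mem_product, mem_product, mem_product] at ht
    obtain ⟨⟨⟨g1, g2⟩, g3, g4⟩, -, f1, f2, f3, f4, f5, f6⟩ := ht
    refine ⟨card_four f1 f2 f3 f4 f5 f6, ?_⟩
    intro x hx
    simp only [mem_insert, mem_singleton] at hx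
    rcases hx with rfl | rfl | rfl | rfl
    · exact g1
    · exact g2
    · exact g3
    · exact g4
  obtain ⟨B, hB, hav, hcard⟩ := exists_avoid_plain m hm A (S3 ∪ S4)
    (by
      intro s hs
      rw [← card_pos]
      rcases mem_union.1 hs with h | h
      · rw [(c3 s h).1]; norm_num
      · rw [(c4 s h).1]; norm_num)
    (by
      intro s hs
      rcases mem_union.1 hs with h | h
      · exact (c3 s h).2
      · exact (c4 s h).2)
  refine ⟨B, hB, ?_, ?_⟩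
  · refine sidon_of_avoid op A hcomm hcanc hsq hB ?_ ?_
    · intro t ht
      exact hav _ (mem_union_left _ (mem_image_of_mem _ ht))
    · intro t ht
      exact hav _ (mem_union_right _ (mem_image_of_mem _ ht))
  · have e1 : ∑ s ∈ S3 ∪ S4, 1 / (m : ℝ) ^ s.card ≤
        ∑ s ∈ S3, 1 / (m : ℝ) ^ s.card + ∑ s ∈ S4, 1 / (m : ℝ) ^ s.card := by
      rw [← sum_union_inter]
      have : 0 ≤ ∑ s ∈ S3 ∩ S4, 1 / (m : ℝ) ^ s.card := sum_nonneg fun s _ => by positivity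
      linarith
    have e2 : ∑ s ∈ S3, 1 / (m : ℝ) ^ s.card ≤ (bad3 op A).card / (m : ℝ) ^ 3 := by
      rw [sum_congr rfl (g := fun _ => 1 / (m : ℝ) ^ 3) (fun s hs => by rw [(c3 s hs).1]),
        sum_const, nsmul_eq_mul, mul_one_div]
      have : (S3.card : ℝ) ≤ (bad3 op A).card := by exact_mod_cast card_image_le
      gcongr
    have e3 : ∑ s ∈ S4, 1 / (m : ℝ) ^ s.card ≤ (bad4 op A).card / (m : ℝ) ^ 4 := by
      rw [sum_congr rfl (g := fun _ => 1 / (m : ℝ) ^ 4) (fun s hs => by rw [(c4 s hs).1]),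
        sum_const, nsmul_eq_mul, mul_one_div]
      have : (S4.card : ℝ) ≤ (bad4 op A).card := by exact_mod_cast card_image_le
      gcongr
    linarith

end generic

section add

variable (A : Finset ℤ)

lemma bad4_add_le : (bad4 (· + ·) A).card ≤ en A := by
  unfold bad4 en ip
  refine card_le_card_of_injOn (fun t => ((t.1.1, t.2.1), (t.2.2, t.1.2))) ?_ ?_
  · rintro ⟨⟨a, b⟩, ⟨c, d⟩⟩ ht
    simp only [mem_coe, mem_filter, mem_product] at ht ⊢
    exact ⟨⟨⟨ht.1.1.1, ht.1.2.1⟩, ht.1.2.2, ht.1.1.2⟩, by linarith [ht.2.1]⟩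
  · rintro ⟨⟨a, b⟩, ⟨c, d⟩⟩ _ ⟨⟨a', b'⟩, ⟨c', d'⟩⟩ _ h
    simp only [Prod.mk.injEq] at h ⊢
    tauto

lemma bad3_add_sq_le : (bad3 (· + ·) A).card ^ 2 ≤ A.card * en A := by
  set x : ℤ → ℕ := fun a => ((A ×ˢ A).filter (fun t => a + a = t.1 + t.2)).card with hx
  have e1 : (bad3 (· + ·) A).card ≤ ∑ a ∈ A, x a := by
    unfold bad3
    rw [card_filter, sum_product]
    refine sum_le_sum fun a _ => ?_
    rw [hx]
    simp only [card_filter]
    refine sum_le_sum fun t _ => ?_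
    split_ifs with h1 h2
    · exact le_rfl
    · exact absurd h1.1 h2
    · exact Nat.zero_le _
    · exact le_rfl
  have e2 : ∑ a ∈ A, x a ^ 2 ≤ en A := by
    have : ∑ a ∈ A, x a ^ 2 = (A.sigma (fun a => ((A ×ˢ A).filter (fun t => a + a = t.1 + t.2)) ×ˢ
        ((A ×ˢ A).filter (fun t => a + a = t.1 + t.2)))).card := by
      rw [card_sigma]
      refine sum_congr rfl fun a _ => ?_
      rw [card_product, sq]
    rw [this]
    unfold en ip
    refine card_le_card_of_injOn (fun t => ((t.2.1.1, t.2.2.1), (t.2.2.2, t.2.1.2))) ?_ ?_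
    · rintro ⟨a, ⟨c, d⟩, ⟨c', d'⟩⟩ ht
      simp only [mem_coe, mem_sigma, mem_filter, mem_product] at ht ⊢
      obtain ⟨ha, ⟨⟨hc, hd⟩, h1⟩, ⟨hc', hd'⟩, h2⟩ := ht
      exact ⟨⟨⟨hc, hc'⟩, hd', hd⟩, by linarith⟩
    · rintro ⟨a, ⟨c, d⟩, ⟨c', d'⟩⟩ ht ⟨b, ⟨p, q⟩, ⟨p', q'⟩⟩ ht' h
      simp only [mem_coe, mem_sigma, mem_filter, mem_product] at ht ht'
      simp only [Prod.mk.injEq] at h
      obtain ⟨⟨rfl, rfl⟩, rfl, rfl⟩ := h
      have : a = b := by
        have h1 := ht.2.1.2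
        have h2 := ht'.2.1.2
        linarith
      subst this
      rfl
  have e3 : (∑ a ∈ A, x a) ^ 2 ≤ A.card * ∑ a ∈ A, x a ^ 2 := sq_sum_le_card_mul_sum_sq
  calc (bad3 (· + ·) A).card ^ 2 ≤ (∑ a ∈ A, x a) ^ 2 := Nat.pow_le_pow_left e1 2
    _ ≤ A.card * ∑ a ∈ A, x a ^ 2 := e3
    _ ≤ A.card * en A := Nat.mul_le_mul_left _ e2

/-- additive Sidon subsets from the energy -/
theorem addSidon_of_en (m : ℕ) (hm : 0 < m) (h : 8 * en A ≤ A.card * m ^ 3) :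
    ∃ B ⊆ A, AddSidon B ∧ (A.card : ℝ) ≤ 2 * m * B.card := by
  obtain ⟨B, hB, hS, hc⟩ := sidon_del (· + ·) A (fun a b => add_comm a b)
    (fun a _ b _ c _ h => by simpa using h) (fun a _ c _ h => by linarith) m hm
  refine ⟨B, hB, hS, ?_⟩
  have e4 : ((bad4 (· + ·) A).card : ℝ) ≤ A.card * m ^ 3 / 8 := by
    have h1 : ((bad4 (· + ·) A).card : ℝ) ≤ en A := by exact_mod_cast bad4_add_le A
    have h2 : (8 : ℝ) * en A ≤ A.card * m ^ 3 := by exact_mod_cast h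
    linarith
  have hm1 : (1 : ℝ) ≤ m := by exact_mod_cast hm
  have e3 : ((bad3 (· + ·) A).card : ℝ) ≤ 3 / 8 * (A.card * m ^ 2) := by
    apply le_of_sq_le_sq _ (by positivity)
    have h1 : ((bad3 (· + ·) A).card : ℝ) ^ 2 ≤ A.card * en A := by
      exact_mod_cast bad3_add_sq_le A
    have h2 : (8 : ℝ) * en A ≤ A.card * m ^ 3 := by exact_mod_cast h
    have h3 : (A.card : ℝ) * en A ≤ A.card * (A.card * m ^ 3 / 8) :=
      mul_le_mul_of_nonneg_left (by linarith) (by positivity)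
    have h4 : (m : ℝ) ^ 3 ≤ (m : ℝ) ^ 4 := pow_le_pow_right₀ hm1 (by norm_num)
    have h5 : (A.card : ℝ) * (A.card * m ^ 3 / 8) ≤ (A.card : ℝ) ^ 2 * m ^ 4 / 8 := by
      have : (A.card : ℝ) ^ 2 * (m : ℝ) ^ 3 ≤ (A.card : ℝ) ^ 2 * m ^ 4 :=
        mul_le_mul_of_nonneg_left h4 (by positivity)
      nlinarith
    have h6 : (3 / 8 * ((A.card : ℝ) * m ^ 2)) ^ 2 = 9 / 64 * ((A.card : ℝ) ^ 2 * m ^ 4) := by ring
    rw [h6]
    have h7 : 0 ≤ (A.card : ℝ) ^ 2 * m ^ 4 := by positivity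
    linarith
  have hm0 : (0 : ℝ) < m := by linarith
  have f3 : ((bad3 (· + ·) A).card : ℝ) / (m : ℝ) ^ 3 ≤ 3 / 8 * (A.card / m) := by
    rw [div_le_iff₀ (by positivity)]
    have : 3 / 8 * ((A.card : ℝ) / m) * (m : ℝ) ^ 3 = 3 / 8 * (A.card * m ^ 2) := by
      field_simp
    rw [this]
    exact e3
  have f4 : ((bad4 (· + ·) A).card : ℝ) / (m : ℝ) ^ 4 ≤ 1 / 8 * (A.card / m) := by
    rw [div_le_iff₀ (by positivity)]
    have : 1 / 8 * ((A.card : ℝ) / m) * (m : ℝ) ^ 4 = A.card * m ^ 3 / 8 := by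
      field_simp
    rw [this]
    exact e4
  have f5 : (A.card : ℝ) / m ≤ 2 * B.card := by linarith
  rw [div_le_iff₀ hm0] at f5
  linarith

end add

section mul

variable (A : Finset ℤ)

lemma bad_mul_aux (hpos : ∀ a ∈ A, 0 < a) (x : ℤ) :
    ((A ×ˢ A).filter (fun t => x = t.1 * t.2)).card ≤
      (A.filter (fun c => ∃ d ∈ A, x = c * d)).card := by
  refine card_le_card_of_injOn (fun t => t.1) ?_ ?_
  · rintro ⟨c, d⟩ ht
    simp only [mem_coe, mem_filter, mem_product] at ht ⊢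
    exact ⟨ht.1.1, d, ht.1.2, ht.2⟩
  · rintro ⟨c, d⟩ ht ⟨c', d'⟩ ht' h
    simp only [mem_coe, mem_filter, mem_product] at ht ht' h
    subst h
    have h1 : c * d = c * d' := ht.2.symm.trans ht'.2
    have h2 := mul_left_cancel₀ (hpos c ht.1.1).ne' h1
    rw [h2]

lemma bad4_mul_le (hpos : ∀ a ∈ A, 0 < a) (ρ : ℕ)
    (hρ : ∀ a ∈ A, ∀ b ∈ A, (A.filter (fun c => ∃ d ∈ A, a * b = c * d)).card ≤ ρ) :
    (bad4 (· * ·) A).card ≤ A.card ^ 2 * ρ := by
  unfold bad4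
  rw [card_filter, sum_product]
  calc ∑ s ∈ A ×ˢ A, ∑ t ∈ A ×ˢ A, _ ≤ ∑ s ∈ A ×ˢ A, ρ := by
        refine sum_le_sum fun s hs => ?_
        rw [mem_product] at hs
        refine le_trans ?_ (hρ s.1 hs.1 s.2 hs.2)
        refine le_trans ?_ (bad_mul_aux A hpos (s.1 * s.2))
        rw [card_filter]
        refine sum_le_sum fun t _ => ?_
        split_ifs with h1 h2
        · exact le_rfl
        · exact absurd h1.1 h2
        · exact Nat.zero_le _
        · exact le_rfl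
    _ = A.card ^ 2 * ρ := by rw [sum_const, card_product, smul_eq_mul, sq]

lemma bad3_mul_le (hpos : ∀ a ∈ A, 0 < a) (ρ : ℕ)
    (hρ : ∀ a ∈ A, ∀ b ∈ A, (A.filter (fun c => ∃ d ∈ A, a * b = c * d)).card ≤ ρ) :
    (bad3 (· * ·) A).card ≤ A.card * ρ := by
  unfold bad3
  rw [card_filter, sum_product]
  calc ∑ a ∈ A, ∑ t ∈ A ×ˢ A, _ ≤ ∑ a ∈ A, ρ := by
        refine sum_le_sum fun a ha => ?_
        refine le_trans ?_ (hρ a ha a ha)
        refine le_trans ?_ (bad_mul_aux A hpos (a * a))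
        rw [card_filter]
        refine sum_le_sum fun t _ => ?_
        split_ifs with h1 h2
        · exact le_rfl
        · exact absurd h1.1 h2
        · exact Nat.zero_le _
        · exact le_rfl
    _ = A.card * ρ := by rw [sum_const, smul_eq_mul]

/-- multiplicative Sidon subsets from bounds for the number of representations -/
theorem mulSidon_of_reps (hpos : ∀ a ∈ A, 0 < a) (ρ m : ℕ) (hm : 0 < m)
    (hρ : ∀ a ∈ A, ∀ b ∈ A, (A.filter (fun c => ∃ d ∈ A, a * b = c * d)).card ≤ ρ)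
    (h : 8 * (A.card * ρ) ≤ m ^ 3) :
    ∃ B ⊆ A, MulSidon B ∧ (A.card : ℝ) ≤ 2 * m * B.card := by
  rcases A.eq_empty_or_nonempty with rfl | ⟨a0, ha0⟩
  · exact ⟨∅, Subset.refl _, by intro a ha; simp at ha, by simp⟩
  have hm1 : (1 : ℝ) ≤ m := by exact_mod_cast hm
  have hm0 : (0 : ℝ) < m := by linarith
  by_cases hmN : A.card < m
  · refine ⟨{a0}, by simpa using ha0, ?_, ?_⟩
    · intro a ha b hb c hc d hd _
      simp only [mem_singleton] at ha hb hc hd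
      left
      rw [ha, hb, hc, hd]
      exact ⟨rfl, rfl⟩
    · rw [card_singleton]
      have : (A.card : ℝ) < m := by exact_mod_cast hmN
      push_cast
      linarith
  push Not at hmN
  obtain ⟨B, hB, hS, hc⟩ := sidon_del (· * ·) A (fun a b => mul_comm a b)
    (fun a ha b _ c _ h => mul_left_cancel₀ (hpos a ha).ne' h) (fun a ha c hc h => by
      have h1 := hpos a ha
      have h2 := hpos c hc
      nlinarith) m hm
  refine ⟨B, hB, hS, ?_⟩
  have h' : (8 : ℝ) * (A.card * ρ) ≤ m ^ 3 := by exact_mod_cast h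
  have e4 : ((bad4 (· * ·) A).card : ℝ) ≤ A.card * m ^ 3 / 8 := by
    have h1 : ((bad4 (· * ·) A).card : ℝ) ≤ A.card ^ 2 * ρ := by
      exact_mod_cast bad4_mul_le A hpos ρ hρ
    have h2 : (A.card : ℝ) * (8 * (A.card * ρ)) ≤ A.card * m ^ 3 :=
      mul_le_mul_of_nonneg_left h' (by positivity)
    nlinarith
  have e3 : ((bad3 (· * ·) A).card : ℝ) ≤ m ^ 3 / 8 := by
    have h1 : ((bad3 (· * ·) A).card : ℝ) ≤ A.card * ρ := by
      exact_mod_cast bad3_mul_le A hpos ρ hρ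
    linarith
  have f3 : ((bad3 (· * ·) A).card : ℝ) / (m : ℝ) ^ 3 ≤ 1 / 8 := by
    rw [div_le_iff₀ (by positivity)]
    linarith
  have f4 : ((bad4 (· * ·) A).card : ℝ) / (m : ℝ) ^ 4 ≤ 1 / 8 * (A.card / m) := by
    rw [div_le_iff₀ (by positivity)]
    have : 1 / 8 * ((A.card : ℝ) / m) * (m : ℝ) ^ 4 = A.card * m ^ 3 / 8 := by
      field_simp
    rw [this]
    exact e4
  have f6 : (1 : ℝ) ≤ A.card / m := by
    rw [le_div_iff₀ hm0, one_mul]
    exact_mod_cast hmN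
  have f5 : (A.card : ℝ) / m ≤ 2 * B.card := by linarith
  rw [div_le_iff₀ hm0] at f5
  linarith

end mul

end Pool.Agent.Lib.CSid
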