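import Pool.Agent.Lib.CSid.LevelSid
import Pool.Agent.Lib.CSid.Sid

/-!
# Additive Sidon sets from colours and levels
-/

set_option autoImplicit false

namespace Pool.Agent.Lib.CSid

open Finset

section

variable {p : ℕ → ℕ} {r Y : ℕ} {A : Finset ℤ} {U : ℤ → ℕ} {H : ℕ}

lemma four_distinct {p : ℕ → ℕ} {r : ℕ} {a b c d : ℤ}
    (h : lv p r a ≠ lv p r b ∧ lv p r a ≠ lv p r c ∧ lv p r a ≠ lv p r d ∧ lv p r b ≠ lv p r c ∧
      lv p r b ≠ lv p r d ∧ lv p r c ≠ lv p r d) :
    ({a, b, c, d} : Finset ℤ).card = 4 ∧ Set.InjOn (lv p r) ({a, b, c, d} : Finset ℤ) := by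
  obtain ⟨h1, h2, h3, h4, h5, h6⟩ := h
  constructor
  · exact card_four (fun h => h1 (by rw [h])) (fun h => h2 (by rw [h])) (fun h => h3 (by rw [h]))
      (fun h => h4 (by rw [h])) (fun h => h5 (by rw [h])) (fun h => h6 (by rw [h]))
  · intro x hx y hy hxy
    simp only [mem_coe, mem_insert, mem_singleton] at hx hy
    rcases hx with rfl | rfl | rfl | rfl <;> rcases hy with rfl | rfl | rfl | rfl <;>
      first
        | rfl
        | exact absurd hxy h1
        | exact absurd hxy h2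
        | exact absurd hxy h3
        | exact absurd hxy h4
        | exact absurd hxy h5
        | exact absurd hxy h6
        | exact absurd hxy.symm h1
        | exact absurd hxy.symm h2
        | exact absurd hxy.symm h3
        | exact absurd hxy.symm h4
        | exact absurd hxy.symm h5
        | exact absurd hxy.symm h6

theorem add_levels (h : Prop1 p r A U H) (hHY : H ^ 2 < 2 ^ Y) (hHY' : H < 2 ^ Y) (hY : 2 ≤ Y)
    (hS : Sep (pv p) A r Y) (hD : ∀ j < r, Dig (p j) (pv p j) A) {T k m : ℕ}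
    (hT : ∀ n : ℕ, 1 ≤ n → n ≤ H → n.divisors.card ≤ T)
    (hk : ∀ a ∈ A, (A.filter (fun b => lv p r b = lv p r a)).card ≤ 2 * k)
    (hm0 : 0 < m) (hm : 1024 * (1 + T) ^ 2 * k ≤ m ^ 2)
    (F : Finset (Fin r) → ℕ)
    (hF : ∀ S, ∀ a ∈ A, (fib (A.image (lv p r)) S (lv p r a)).card ≤ F S) (M : ℕ)
    (hM : ∀ S S' : Finset (Fin r), S ∪ S' = univ → F S * F S' * F (S ∩ S') ≤ M)
    (hmM : 4 * (r ^ 2 * (A.image (lv p r)).card ^ 2 + 4 ^ r * M) ≤ m ^ 3) :
    ∃ B ⊆ A, AddSidon B ∧ 3 * (A.card : ℝ) ≤ 4 * m * B.card := by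
  classical
  obtain ⟨col, hcol⟩ := exists_level_colouring h hT hk hm0 hm
  set O := (sols A).filter (fun t => OvP p r Y t.1 t.2.1 t.2.2.1 t.2.2.2) with hO
  set D := (sols A).filter (fun t => t.1 ≠ t.2.2.1 ∧ DisP p r Y t.1 t.2.1 t.2.2.1 t.2.2.2)
    with hDd
  have hOc := card_OvP h hHY'
  have hDc := card_DisP h hHY hHY' F hF M hM
  rw [← hO] at hOc
  rw [← hDd] at hDc
  set S : Finset (Finset ℤ) := (O ∪ D).image (fun t => {t.1, t.2.1, t.2.2.1, t.2.2.2}) with hSd
  have hSc : S.card ≤ A.card * (r ^ 2 * (A.image (lv p r)).card ^ 2 + 4 ^ r * M) := by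
    calc S.card ≤ (O ∪ D).card := card_image_le
      _ ≤ O.card + D.card := card_union_le _ _
      _ ≤ r ^ 2 * (A.card * (A.image (lv p r)).card ^ 2) + 4 ^ r * (A.card * M) :=
          Nat.add_le_add hOc hDc
      _ = _ := by ring
  have hSprop : ∀ s ∈ S, s.card = 4 ∧ Set.InjOn (lv p r) s ∧ s ⊆ A := by
    intro s hs
    obtain ⟨⟨a, b, c, d⟩, ht, rfl⟩ := mem_image.1 hs
    have hABCD : (a ∈ A ∧ b ∈ A ∧ c ∈ A ∧ d ∈ A) ∧ a + b = c + d := by
      rcases mem_union.1 ht with ht | ht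
      · exact mem_sols.1 (mem_filter.1 ht).1
      · exact mem_sols.1 (mem_filter.1 ht).1
    have hdist : lv p r a ≠ lv p r b ∧ lv p r a ≠ lv p r c ∧ lv p r a ≠ lv p r d ∧
        lv p r b ≠ lv p r c ∧ lv p r b ≠ lv p r d ∧ lv p r c ≠ lv p r d := by
      rcases mem_union.1 ht with ht | ht
      · exact OvP.distinct (mem_filter.1 ht).2
      · obtain ⟨h1, h2, h3⟩ := mem_filter.1 ht
        exact DisP.distinct h hHY' hABCD.1.1 hABCD.1.2.1 hABCD.1.2.2.1 hABCD.1.2.2.2 hABCD.2
          h2 h3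
    obtain ⟨k1, k2⟩ := four_distinct hdist
    refine ⟨k1, k2, ?_⟩
    intro x hx
    simp only [mem_insert, mem_singleton] at hx
    rcases hx with rfl | rfl | rfl | rfl
    · exact hABCD.1.1
    · exact hABCD.1.2.1
    · exact hABCD.1.2.2.1
    · exact hABCD.1.2.2.2
  let lev : ℤ → Option {x // x ∈ A.image (lv p r)} := fun a =>
    if hx : a ∈ A then some ⟨lv p r a, mem_image_of_mem _ hx⟩ else none
  have hlev : ∀ a ∈ A, ∀ b ∈ A, lev a = lev b ↔ lv p r a = lv p r b := by
    intro a ha b hb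
    simp only [lev, dif_pos ha, dif_pos hb, Option.some.injEq, Subtype.mk.injEq]
  obtain ⟨B, hB, hav, ⟨f, hf⟩, hc⟩ := exists_avoid m hm0 A lev col S
    (by
      intro s hs
      rw [← card_pos, (hSprop s hs).1]
      norm_num)
    (by
      intro s hs a ha b hb hab
      have ha' := (hSprop s hs).2.2 ha
      have hb' := (hSprop s hs).2.2 hb
      exact (hSprop s hs).2.1 ha hb ((hlev a ha' b hb').1 hab))
  refine ⟨B, hB, ?_, ?_⟩
  · intro a ha b hb c hc' d hd he
    have haA := hB ha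
    have hbA := hB hb
    have hcA := hB hc'
    have hdA := hB hd
    by_cases e1 : a = c
    · exact Or.inl ⟨e1, by linarith⟩
    by_cases e2 : a = d
    · exact Or.inr ⟨e2, by linarith⟩
    by_cases hl : lv p r a = lv p r b ∧ lv p r a = lv p r c ∧ lv p r a = lv p r d
    · have hcolab : ∀ x ∈ B, lv p r a = lv p r x → x ∈ A.filter
          (fun x => lv p r x = lv p r a ∧ col x = col a) := by
        intro x hx hax
        rw [mem_filter]
        refine ⟨hB hx, hax.symm, ?_⟩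
        rw [← hf x hx, ← hf a ha, (hlev a haA x (hB hx)).2 hax]
      exact hcol _ _ a (hcolab a ha rfl) b (hcolab b hb hl.1) c (hcolab c hc' hl.2.1) d
        (hcolab d hd hl.2.2) he
    · exfalso
      have key : ∀ x ∈ B, ∀ y ∈ B, ∀ z ∈ B, ∀ w ∈ B, x + y = z + w →
          (OvP p r Y x y z w ∨ (x ≠ z ∧ DisP p r Y x y z w)) → False := by
        intro x hx y hy z hz w hw hxy hor
        apply hav {x, y, z, w}
        · rw [hSd, mem_image]
          refine ⟨(x, y, z, w), ?_, rfl⟩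
          have hmem : (x, y, z, w) ∈ sols A := mem_sols.2 ⟨⟨hB hx, hB hy, hB hz, hB hw⟩, hxy⟩
          rcases hor with h1 | h1
          · exact mem_union_left _ (mem_filter.2 ⟨hmem, h1⟩)
          · exact mem_union_right _ (mem_filter.2 ⟨hmem, h1⟩)
        · intro t ht
          simp only [mem_insert, mem_singleton] at ht
          rcases ht with rfl | rfl | rfl | rfl <;> assumption
      rcases classify h hHY' hY hS hD haA hbA hcA hdA he e1 e2 hl with k | k | k | k | k | k
      · exact key a ha b hb c hc' d hd he (Or.inl k)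
      · exact key b hb a ha c hc' d hd (by linarith) (Or.inl k)
      · exact key c hc' d hd a ha b hb he.symm (Or.inl k)
      · exact key d hd c hc' a ha b hb (by linarith) (Or.inl k)
      · exact key a ha b hb c hc' d hd he (Or.inr ⟨e1, k⟩)
      · exact key a ha b hb d hd c hc' (by linarith) (Or.inr ⟨e2, k⟩)
  · have hm0R : (0 : ℝ) < m := by exact_mod_cast hm0
    have e1 : ∑ s ∈ S, 1 / (m : ℝ) ^ s.card = S.card / (m : ℝ) ^ 4 := by
      rw [sum_congr rfl (g := fun _ => 1 / (m : ℝ) ^ 4) (fun s hs => by rw [(hSprop s hs).1]),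
        sum_const, nsmul_eq_mul, mul_one_div]
    have e2 : (S.card : ℝ) / (m : ℝ) ^ 4 ≤ 1 / 4 * (A.card / m) := by
      rw [div_le_iff₀ (by positivity)]
      have e3 : 1 / 4 * ((A.card : ℝ) / m) * (m : ℝ) ^ 4 = A.card * m ^ 3 / 4 := by
        field_simp
      rw [e3]
      have e4 : (S.card : ℝ) ≤ A.card * (r ^ 2 * (A.image (lv p r)).card ^ 2 + 4 ^ r * M) := by
        exact_mod_cast hSc
      have e5 : (4 : ℝ) * (r ^ 2 * (A.image (lv p r)).card ^ 2 + 4 ^ r * M) ≤ m ^ 3 := by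
        exact_mod_cast hmM
      have e6 : (A.card : ℝ) * (4 * (r ^ 2 * (A.image (lv p r)).card ^ 2 + 4 ^ r * M)) ≤
          A.card * m ^ 3 := mul_le_mul_of_nonneg_left e5 (by positivity)
      linarith
    rw [e1] at hc
    have e7 : 3 / 4 * ((A.card : ℝ) / m) ≤ B.card := by linarith
    have e8 : 3 / 4 * ((A.card : ℝ) / m) = (3 * A.card / 4) / m := by ring
    rw [e8, div_le_iff₀ hm0R] at e7
    linarith

/-- the additive case for few levels -/
theorem add2 (h : Prop1 p r A U H) (hHY : H ^ 2 < 2 ^ Y) (hHY' : H < 2 ^ Y) (hY : 2 ≤ Y)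
    (hS : Sep (pv p) A r Y) (hD : ∀ j < r, Dig (p j) (pv p j) A) {T k m W : ℕ}
    (hT : ∀ n : ℕ, 1 ≤ n → n ≤ H → n.divisors.card ≤ T)
    (hk : ∀ a ∈ A, k ≤ (A.filter (fun b => lv p r b = lv p r a)).card ∧
      (A.filter (fun b => lv p r b = lv p r a)).card < 2 * k)
    (hm0 : 0 < m) (hm : 1024 * (1 + T) ^ 2 * k ≤ m ^ 2)
    (hW : (Nat.log 2 (A.image (lv p r)).card + 1) ^ (2 ^ r) ≤ W)
    (hmM : 68 * 4 ^ r * W * (A.image (lv p r)).card ^ 2 ≤ m ^ 3) :
    ∃ B ⊆ A, AddSidon B ∧ (A.card : ℝ) ≤ 4 * W * m * B.card := by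
  classical
  obtain ⟨Λ', hΛ', F, hc, hF, hM⟩ := level_regular (A.image (lv p r))
  set J := (A.image (lv p r)).card with hJ
  set A' := A.filter (fun a => lv p r a ∈ Λ') with hA'
  have hA'A : A' ⊆ A := filter_subset _ _
  have himg : A'.image (lv p r) ⊆ Λ' := by
    intro e he
    obtain ⟨a, ha, rfl⟩ := mem_image.1 he
    exact (mem_filter.1 ha).2
  have hJ' : (A'.image (lv p r)).card ≤ J := card_le_card (image_subset_image hA'A)
  have hW1 : 1 ≤ W := le_trans (Nat.one_le_pow _ _ (by omega)) hW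
  have hlevel : ∀ a ∈ A', A'.filter (fun b => lv p r b = lv p r a) =
      A.filter (fun b => lv p r b = lv p r a) := by
    intro a ha
    apply Subset.antisymm (filter_subset_filter _ hA'A)
    intro b hb
    rw [mem_filter] at hb ⊢
    refine ⟨?_, hb.2⟩
    rw [hA', mem_filter]
    refine ⟨hb.1, ?_⟩
    rw [hb.2]
    exact (mem_filter.1 ha).2
  have hr4 : r ^ 2 ≤ 4 ^ r := by
    calc r ^ 2 ≤ (2 ^ r) ^ 2 := Nat.pow_le_pow_left (Nat.lt_two_pow_self).le 2
      _ = 4 ^ r := by rw [← pow_mul, mul_comm, pow_mul]; norm_num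
  obtain ⟨B, hB, hBS, hBc⟩ := add_levels (h.subset hA'A) hHY hHY' hY (hS.subset hA'A)
    (fun j hj => (hD j hj).subset hA'A) hT
    (fun a ha => by
      rw [hlevel a ha]
      exact (hk a (hA'A ha)).2.le) hm0 hm F
    (fun S a ha => (card_le_card (filter_subset_filter _ himg)).trans
      (hF S _ (mem_filter.1 ha).2)) (16 * W * J ^ 2)
    (fun S S' hSS => (hM S S' hSS).trans (by gcongr))
    (by
      refine le_trans ?_ hmM
      calc 4 * (r ^ 2 * (A'.image (lv p r)).card ^ 2 + 4 ^ r * (16 * W * J ^ 2))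
          ≤ 4 * (4 ^ r * J ^ 2 + 4 ^ r * (16 * W * J ^ 2)) := by gcongr
        _ = 4 * 4 ^ r * ((1 + 16 * W) * J ^ 2) := by ring
        _ ≤ 4 * 4 ^ r * ((17 * W) * J ^ 2) := by
            gcongr
            omega
        _ = 68 * 4 ^ r * W * J ^ 2 := by ring)
  refine ⟨B, hB.trans hA'A, hBS, ?_⟩
  have c1 : A.card ≤ 2 * k * J := by
    rw [card_eq_sum_card_image (lv p r) A]
    calc _ ≤ ∑ e ∈ A.image (lv p r), 2 * k := by
          refine sum_le_sum fun e he => ?_
          obtain ⟨a, ha, rfl⟩ := mem_image.1 he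
          exact (hk a ha).2.le
      _ = 2 * k * J := by rw [sum_const, smul_eq_mul, mul_comm]
  have c2 : k * Λ'.card ≤ A'.card := by
    have himg' : A'.image (lv p r) = Λ' := by
      apply Subset.antisymm himg
      intro e he
      obtain ⟨a, ha, rfl⟩ := mem_image.1 (hΛ' he)
      exact mem_image_of_mem _ (mem_filter.2 ⟨ha, he⟩)
    rw [card_eq_sum_card_image (lv p r) A', himg']
    calc k * Λ'.card = ∑ e ∈ Λ', k := by rw [sum_const, smul_eq_mul, mul_comm]
      _ ≤ _ := by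
          refine sum_le_sum fun e he => ?_
          rw [← himg'] at he
          obtain ⟨a, ha, rfl⟩ := mem_image.1 he
          rw [hlevel a ha]
          exact (hk a (hA'A ha)).1
  have c3 : A.card ≤ 2 * W * A'.card := by
    calc A.card ≤ 2 * k * J := c1
      _ ≤ 2 * k * (W * Λ'.card) := by
          gcongr
          exact hc.trans (Nat.mul_le_mul_right _ hW)
      _ = 2 * W * (k * Λ'.card) := by ring
      _ ≤ 2 * W * A'.card := by gcongr
  have c4 : (A.card : ℝ) ≤ 2 * W * A'.card := by exact_mod_cast c3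
  have c5 : (A'.card : ℝ) ≤ 2 * (m * B.card) := by
    have : 0 ≤ (m : ℝ) * B.card := by positivity
    linarith
  calc (A.card : ℝ) ≤ 2 * W * A'.card := c4
    _ ≤ 2 * W * (2 * (m * B.card)) := by gcongr
    _ = 4 * W * m * B.card := by ring

end

end Pool.Agent.Lib.CSid
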