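import Pool.Agent.Lib.CSid.Energy

/-!
# Energy of a set split by several valuations

`pref v i a` is the list of the first `i` valuations of `a`.  `Val v q A n`: the valuations `v j`, `j < n`, of the elements
of `A` are exact for the powers of `q j`.
-/

set_option autoImplicit false

namespace Pool.Agent.Lib.CSid

open Finset

/-- the first `i` valuations -/
def pref (v : ℕ → ℤ → ℕ) (i : ℕ) (a : ℤ) : List ℕ := (List.range i).map (fun j => v j a)

lemma pref_eq_iff (v : ℕ → ℤ → ℕ) (i : ℕ) (a b : ℤ) :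
    pref v i a = pref v i b ↔ ∀ j < i, v j a = v j b := by
  unfold pref
  rw [List.map_inj_left]
  simp only [List.mem_range]

lemma pref_succ (v : ℕ → ℤ → ℕ) (i : ℕ) (a : ℤ) : pref v (i + 1) a = pref v i a ++ [v i a] := by
  unfold pref
  rw [List.range_succ, List.map_append, List.map_singleton]

lemma pref_succ_eq_iff (v : ℕ → ℤ → ℕ) (i : ℕ) (a : ℤ) (l : List ℕ) (w : ℕ) :
    pref v (i + 1) a = l ++ [w] ↔ pref v i a = l ∧ v i a = w := by
  rw [pref_succ]
  constructor
  · intro h
    have := List.append_inj' h rfl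
    exact ⟨this.1, by simpa using this.2⟩
  · rintro ⟨rfl, rfl⟩
    rfl

lemma pref_mono (v : ℕ → ℤ → ℕ) {i j : ℕ} (hij : i ≤ j) {a b : ℤ} (h : pref v j a = pref v j b) :
    pref v i a = pref v i b := by
  rw [pref_eq_iff] at h ⊢
  exact fun k hk => h k (by omega)

/-- exact valuations -/
def Val (v : ℕ → ℤ → ℕ) (q : ℕ → ℤ) (A : Finset ℤ) (n : ℕ) : Prop :=
  ∀ j < n, ∀ a ∈ A, q j ^ v j a ∣ a ∧ ¬ q j ^ (v j a + 1) ∣ a

lemma Val.subset {v : ℕ → ℤ → ℕ} {q : ℕ → ℤ} {A B : Finset ℤ} {n : ℕ} (h : Val v q A n)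
    (hB : B ⊆ A) : Val v q B n := fun j hj a ha => h j hj a (hB ha)

lemma en_empty : en ∅ = 0 := by
  have := en_le_cube ∅
  simpa using this

/-- iterated square function inequality -/
theorem chang_iter (v : ℕ → ℤ → ℕ) (q : ℕ → ℤ) (A : Finset ℤ) (i : ℕ) (hV : Val v q A i) (M : ℝ)
    (hM : 0 ≤ M)
    (h : ∀ l : List ℕ, (en (A.filter (fun a => pref v i a = l)) : ℝ) ≤
      M * ((A.filter (fun a => pref v i a = l)).card : ℝ) ^ 2) :
    (en A : ℝ) ≤ 81 ^ i * M * (A.card : ℝ) ^ 2 := by
  induction i generalizing M with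
  | zero =>
    have := h []
    have e : A.filter (fun a => pref v 0 a = []) = A := by
      rw [filter_eq_self]
      intro a _
      simp [pref]
    rw [e] at this
    simpa using this
  | succ i ih =>
    have := ih (fun j hj => hV j (by omega)) (81 * M) (by positivity) (fun l => ?_)
    · calc (en A : ℝ) ≤ 81 ^ i * (81 * M) * (A.card : ℝ) ^ 2 := this
        _ = 81 ^ (i + 1) * M * (A.card : ℝ) ^ 2 := by ring
    · set W := A.filter (fun a => pref v i a = l) with hW
      have hWA : W ⊆ A := filter_subset _ _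
      refine en_chang (v := v i) (q := q i) (fun a ha => (hV i (by omega) a (hWA ha)).1)
        (fun a ha => (hV i (by omega) a (hWA ha)).2) hM (fun w => ?_)
      have e : W.filter (fun a => v i a = w) = A.filter (fun a => pref v (i + 1) a = l ++ [w]) := by
        rw [hW, filter_filter]
        apply filter_congr
        intro a _
        rw [pref_succ_eq_iff]
      rw [e]
      exact h _

/-- separated valuations -/
def Sep (v : ℕ → ℤ → ℕ) (A : Finset ℤ) (n Y : ℕ) : Prop :=
  ∀ j < n, ∀ a ∈ A, ∀ b ∈ A, v j a < v j b → v j a + Y ≤ v j b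

lemma Sep.subset {v : ℕ → ℤ → ℕ} {A B : Finset ℤ} {n Y : ℕ} (h : Sep v A n Y) (hB : B ⊆ A) :
    Sep v B n Y := fun j hj a ha b hb => h j hj a (hB ha) b (hB hb)

/-- iterated separation, along a list of valuations -/
theorem sep_list (v : ℕ → ℤ → ℕ) (q : ℕ → ℤ) (n Y κ k' : ℕ) (js : List ℕ) (hjs : ∀ j ∈ js, j < n)
    (A : Finset ℤ) (hV : Val v q A n) (hS : Sep v A n Y)
    (hκ : ∀ j ∈ js, ∀ a ∈ A,
      (A.filter (fun a' => v j a = v j a' ∧ q j ^ (v j a + Y) ∣ a - a')).card ≤ κ)
    (hk : ∀ a ∈ A, (A.filter (fun b => ∀ j ∈ js, v j a = v j b)).card ≤ k') :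
    (en A : ℝ) ≤ 2 ^ js.length * (A.card * (k' : ℝ) ^ 2) +
      12 * (2 ^ js.length - 1) * (κ * (A.card : ℝ) ^ 2) := by
  induction js generalizing A with
  | nil =>
    simp only [List.length_nil, pow_zero, one_mul, sub_self, mul_zero, zero_mul, add_zero]
    rcases A.eq_empty_or_nonempty with rfl | ⟨a, ha⟩
    · rw [en_empty]
      simp
    · have h1 : A.card ≤ k' := by
        have := hk a ha
        rwa [filter_true_of_mem (by intro b _ j hj; simp at hj)] at this
      have h2 : (en A : ℝ) ≤ (A.card : ℝ) ^ 3 := by exact_mod_cast en_le_cube A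
      have h3 : (A.card : ℝ) ≤ k' := by exact_mod_cast h1
      calc (en A : ℝ) ≤ (A.card : ℝ) ^ 3 := h2
        _ = A.card * (A.card : ℝ) ^ 2 := by ring
        _ ≤ A.card * (k' : ℝ) ^ 2 := by gcongr
  | cons j js ih =>
    have hj : j < n := hjs j (by simp)
    have h0 := en_sep (A := A) (v := v j) (q := q j) (fun a ha => (hV j hj a ha).1)
      (fun a ha => (hV j hj a ha).2) (hS j hj) (hκ j (by simp))
    have h1 : (en A : ℝ) ≤ 2 * ∑ w ∈ A.image (v j), (en (A.filter (fun a => v j a = w)) : ℝ) +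
        12 * ((A.card : ℝ) ^ 2 * κ) := by exact_mod_cast h0
    have h2 : ∀ w ∈ A.image (v j), (en (A.filter (fun a => v j a = w)) : ℝ) ≤
        2 ^ js.length * (((A.filter (fun a => v j a = w)).card : ℝ) * (k' : ℝ) ^ 2) +
        12 * (2 ^ js.length - 1) * (κ * (((A.filter (fun a => v j a = w)).card : ℝ) * A.card)) := by
      intro w _
      set W := A.filter (fun a => v j a = w) with hW
      have hWA : W ⊆ A := filter_subset _ _
      have h3 := ih (fun i hi => hjs i (by simp [hi])) W (hV.subset hWA) (hS.subset hWA)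
        (fun i hi a ha => (card_le_card (filter_subset_filter _ hWA)).trans
          (hκ i (by simp [hi]) a (hWA ha)))
        (fun a ha => by
          refine le_trans (card_le_card ?_) (hk a (hWA ha))
          intro b hb
          rw [mem_filter] at hb ⊢
          refine ⟨hWA hb.1, ?_⟩
          intro i hi
          rcases List.mem_cons.1 hi with rfl | hi
          · rw [(mem_filter.1 ha).2, (mem_filter.1 hb.1).2]
          · exact hb.2 i hi)
      refine h3.trans ?_
      have h4 : (W.card : ℝ) ≤ A.card := by exact_mod_cast card_le_card hWA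
      have h5 : (1 : ℝ) ≤ 2 ^ js.length := one_le_pow₀ (by norm_num)
      have h6 : (κ : ℝ) * (W.card : ℝ) ^ 2 ≤ κ * (W.card * A.card) := by
        rw [sq]
        gcongr
      have h7 : 12 * ((2 : ℝ) ^ js.length - 1) * (κ * (W.card : ℝ) ^ 2) ≤
          12 * (2 ^ js.length - 1) * (κ * (W.card * A.card)) :=
        mul_le_mul_of_nonneg_left h6 (by linarith)
      linarith
    have h3 : (A.card : ℝ) = ∑ w ∈ A.image (v j), ((A.filter (fun a => v j a = w)).card : ℝ) := by
      rw [card_eq_sum_card_image (v j) A]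
      push_cast
      rfl
    have h4 := sum_le_sum h2
    rw [sum_add_distrib, ← mul_sum, ← sum_mul, ← mul_sum, ← mul_sum, ← sum_mul, ← h3] at h4
    rw [List.length_cons, pow_succ]
    nlinarith [h1, h4]

/-- energy bound with the square function inequality for the first `i` valuations and the separation
argument for the others -/
theorem en_le_main (v : ℕ → ℤ → ℕ) (q : ℕ → ℤ) (r Y κ k' : ℕ) (i : ℕ) (hi : i < r) (A : Finset ℤ)
    (hV : Val v q A r) (hS : Sep v A r Y)
    (hinj : ∀ j < r, ∀ a ∈ A, ∀ a' ∈ A, (∀ j < r, v j a = v j a') →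
      q j ^ (v j a + Y) ∣ a - a' → a = a')
    (hlev : ∀ a ∈ A, ((A.filter (fun b => pref v (i + 1) b = pref v (i + 1) a)).image
      (pref v r)).card ≤ κ)
    (hk : ∀ a ∈ A, (A.filter (fun b => pref v r b = pref v r a)).card ≤ k')
    (s : ℝ) (hs : 0 < s)
    (hbig : ∀ a ∈ A, s ≤ (A.filter (fun b => pref v i b = pref v i a)).card) :
    (en A : ℝ) ≤ 81 ^ i * (2 * 2 ^ r * (k' : ℝ) ^ 2 / s + 24 * 2 ^ r * κ) * (A.card : ℝ) ^ 2 := by
  apply chang_iter v q A i (fun j hj => hV j (by omega)) _ (by positivity)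
  intro l
  set W := A.filter (fun a => pref v i a = l) with hW
  have hWA : W ⊆ A := filter_subset _ _
  rcases W.eq_empty_or_nonempty with h0 | ⟨a0, ha0⟩
  · rw [h0, en_empty]
    simp
  have hWs : s ≤ W.card := by
    have h1 := hbig a0 (hWA ha0)
    rw [hW] at ha0
    rw [(mem_filter.1 ha0).2] at h1
    exact h1
  -- congruent elements
  have hκ : ∀ j < r, ∀ Z : Finset ℤ, Z ⊆ A → ∀ a ∈ A, (∀ b ∈ Z, pref v i b = pref v i a) →
      (∀ b ∈ Z, v i b = v i a) →
      (Z.filter (fun a' => v j a = v j a' ∧ q j ^ (v j a + Y) ∣ a - a')).card ≤ κ := by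
    intro j hj Z hZA a ha hZ1 hZ2
    refine le_trans ?_ (hlev a ha)
    refine card_le_card_of_injOn (pref v r) ?_ ?_
    · intro b hb
      rw [mem_coe, mem_filter] at hb
      rw [mem_coe]
      apply mem_image_of_mem
      rw [mem_filter]
      refine ⟨hZA hb.1, ?_⟩
      rw [pref_succ, pref_succ, hZ1 b hb.1, hZ2 b hb.1]
    · intro b hb c hc hbc
      rw [mem_coe, mem_filter] at hb hc
      rw [pref_eq_iff] at hbc
      apply hinj j hj b (hZA hb.1) c (hZA hc.1) hbc
      have h1 : q j ^ (v j b + Y) ∣ a - b := by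
        rw [← hb.2.1]; exact hb.2.2
      have h2 : q j ^ (v j b + Y) ∣ a - c := by
        rw [← hb.2.1]; exact hc.2.2
      have h3 : b - c = (a - c) - (a - b) := by ring
      rw [h3]
      exact dvd_sub h2 h1
  have e0 := en_sep (A := W) (v := v i) (q := q i) (Y := Y) (κ := κ)
    (fun a ha => (hV i hi a (hWA ha)).1) (fun a ha => (hV i hi a (hWA ha)).2)
    (fun a ha b hb => hS i hi a (hWA ha) b (hWA hb)) (by
      intro a ha
      have h1 := hκ i hi (W.filter (fun b => v i a = v i b)) ((filter_subset _ _).trans hWA) a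
        (hWA ha) (by
          intro b hb
          have hb' := (mem_filter.1 hb).1
          rw [hW] at hb' ha
          rw [(mem_filter.1 hb').2, (mem_filter.1 ha).2]) (by
          intro b hb
          exact (mem_filter.1 hb).2.symm)
      refine le_trans (card_le_card ?_) h1
      intro b hb
      rw [mem_filter] at hb
      rw [mem_filter, mem_filter]
      exact ⟨⟨hb.1, hb.2.1⟩, hb.2⟩)
  have e1 : (en W : ℝ) ≤ 2 * ∑ w ∈ W.image (v i), (en (W.filter (fun a => v i a = w)) : ℝ) +
      12 * ((W.card : ℝ) ^ 2 * κ) := by exact_mod_cast e0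
  have e2 : ∀ w ∈ W.image (v i), (en (W.filter (fun a => v i a = w)) : ℝ) ≤
      2 ^ r * (((W.filter (fun a => v i a = w)).card : ℝ) * (k' : ℝ) ^ 2) +
      12 * (2 ^ r - 1) * (κ * (((W.filter (fun a => v i a = w)).card : ℝ) * W.card)) := by
    intro w _
    set Z := W.filter (fun a => v i a = w) with hZ
    have hZW : Z ⊆ W := filter_subset _ _
    have hZA : Z ⊆ A := hZW.trans hWA
    have hmem1 : ∀ b ∈ Z, pref v i b = l := by
      intro b hb
      have := hZW hb
      rw [hW] at this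
      exact (mem_filter.1 this).2
    have hmem2 : ∀ b ∈ Z, v i b = w := fun b hb => (mem_filter.1 hb).2
    have h3 := sep_list v q r Y κ k' (List.range r) (fun j hj => List.mem_range.1 hj) Z
      (hV.subset hZA) (hS.subset hZA)
      (fun j hj a ha => hκ j (List.mem_range.1 hj) Z hZA a (hZA ha)
        (fun b hb => by rw [hmem1 b hb, hmem1 a ha]) (fun b hb => by rw [hmem2 b hb, hmem2 a ha]))
      (fun a ha => by
        refine le_trans (card_le_card ?_) (hk a (hZA ha))
        intro b hb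
        rw [mem_filter] at hb ⊢
        refine ⟨hZA hb.1, ?_⟩
        rw [pref_eq_iff]
        exact fun j hj => (hb.2 j (List.mem_range.2 hj)).symm)
    rw [List.length_range] at h3
    refine h3.trans ?_
    have h4 : (Z.card : ℝ) ≤ W.card := by exact_mod_cast card_le_card hZW
    have h5 : (1 : ℝ) ≤ 2 ^ r := one_le_pow₀ (by norm_num)
    have h6 : (κ : ℝ) * (Z.card : ℝ) ^ 2 ≤ κ * (Z.card * W.card) := by
      rw [sq]
      gcongr
    have h7 : 12 * ((2 : ℝ) ^ r - 1) * (κ * (Z.card : ℝ) ^ 2) ≤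
        12 * (2 ^ r - 1) * (κ * (Z.card * W.card)) :=
      mul_le_mul_of_nonneg_left h6 (by linarith)
    linarith
  have e3 : (W.card : ℝ) = ∑ w ∈ W.image (v i), ((W.filter (fun a => v i a = w)).card : ℝ) := by
    rw [card_eq_sum_card_image (v i) W]
    push_cast
    rfl
  have e4 := sum_le_sum e2
  rw [sum_add_distrib, ← mul_sum, ← sum_mul, ← mul_sum, ← mul_sum, ← sum_mul, ← e3] at e4
  have e5 : (W.card : ℝ) ≤ (W.card : ℝ) ^ 2 / s := by
    rw [le_div_iff₀ hs, sq]
    exact mul_le_mul_of_nonneg_left hWs (by positivity)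
  have e6 : (2 : ℝ) * 2 ^ r * (k' : ℝ) ^ 2 * W.card ≤
      2 * 2 ^ r * (k' : ℝ) ^ 2 * ((W.card : ℝ) ^ 2 / s) :=
    mul_le_mul_of_nonneg_left e5 (by positivity)
  have e7 : (2 * 2 ^ r * (k' : ℝ) ^ 2 / s + 24 * 2 ^ r * κ) * (W.card : ℝ) ^ 2 =
      2 * 2 ^ r * (k' : ℝ) ^ 2 * ((W.card : ℝ) ^ 2 / s) + 24 * 2 ^ r * κ * (W.card : ℝ) ^ 2 := by
    ring
  have e8 : (1 : ℝ) ≤ 2 ^ r := one_le_pow₀ (by norm_num)
  have e9 : 0 ≤ (κ : ℝ) * (W.card : ℝ) ^ 2 := by positivity
  rw [e7]
  nlinarith [e1, e4, e6, e9]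

end Pool.Agent.Lib.CSid
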