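import Pool.Agent.Lib.CSid.Class

/-!
# Sets whose levels are contained in dilates of an interval
-/

set_option autoImplicit false

namespace Pool.Agent.Lib.CSid

open Finset

/-- valuations at the primes `p j` -/
def pv (p : ℕ → ℕ) (j : ℕ) (a : ℤ) : ℕ := padicValInt (p j) a

/-- elements with the same first `r` valuations are proportional to the numbers `U a ≤ H` -/
structure Prop1 (p : ℕ → ℕ) (r : ℕ) (A : Finset ℤ) (U : ℤ → ℕ) (H : ℕ) : Prop where
  prime : ∀ j < r, (p j).Prime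
  pos : ∀ a ∈ A, 0 < a
  one_le : ∀ a ∈ A, 1 ≤ U a
  le : ∀ a ∈ A, U a ≤ H
  prop : ∀ a ∈ A, ∀ b ∈ A, (∀ j < r, pv p j a = pv p j b) → a * U b = b * U a

variable {p : ℕ → ℕ} {r : ℕ} {A : Finset ℤ} {U : ℤ → ℕ} {H : ℕ}

lemma Prop1.subset (h : Prop1 p r A U H) {B : Finset ℤ} (hB : B ⊆ A) : Prop1 p r B U H :=
  ⟨h.prime, fun a ha => h.pos a (hB ha), fun a ha => h.one_le a (hB ha),
    fun a ha => h.le a (hB ha), fun a ha b hb => h.prop a (hB ha) b (hB hb)⟩

lemma Prop1.val (h : Prop1 p r A U H) : Val (pv p) (fun j => (p j : ℤ)) A r := by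
  intro j hj a ha
  have : Fact (p j).Prime := ⟨h.prime j hj⟩
  have ha0 : a ≠ 0 := (h.pos a ha).ne'
  constructor
  · show ((p j : ℕ) : ℤ) ^ _ ∣ a
    rw [padicValInt_dvd_iff]
    exact Or.inr le_rfl
  · show ¬ ((p j : ℕ) : ℤ) ^ _ ∣ a
    rw [padicValInt_dvd_iff]
    rintro (h1 | h1)
    · exact ha0 h1
    · unfold pv at h1
      omega

lemma Prop1.inj (h : Prop1 p r A U H) {Y : ℕ} (hY : H < 2 ^ Y) :
    ∀ j < r, ∀ a ∈ A, ∀ a' ∈ A, (∀ j < r, pv p j a = pv p j a') →
      ((p j : ℕ) : ℤ) ^ (pv p j a + Y) ∣ a - a' → a = a' := by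
  intro j hj a ha a' ha' hl hd
  have hp := h.prime j hj
  have hP := h.prop a ha a' ha' hl
  have hv := h.val j hj a' ha'
  simp only at hv
  rw [← hl j hj] at hv
  set w := pv p j a with hw
  set q : ℤ := ((p j : ℕ) : ℤ) with hq
  have hq0 : q ≠ 0 := by rw [hq]; exact_mod_cast hp.ne_zero
  have hqp : Prime q := Nat.prime_iff_prime_int.1 hp
  obtain ⟨t, ht⟩ := hv.1
  have hqt : ¬ q ∣ t := by
    rintro ⟨s, rfl⟩
    apply hv.2
    rw [ht, pow_succ]
    exact ⟨s, by ring⟩
  have e1 : (a - a') * (U a' : ℤ) = a' * ((U a : ℤ) - U a') := by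
    have : (a - a') * (U a' : ℤ) = a * U a' - a' * U a' := by ring
    rw [this, hP]
    ring
  have e2 : q ^ w * q ^ Y ∣ q ^ w * (t * ((U a : ℤ) - U a')) := by
    have e3 : q ^ w * (t * ((U a : ℤ) - U a')) = (a - a') * (U a' : ℤ) := by
      rw [e1, ht]
      ring
    rw [e3, ← pow_add]
    exact Dvd.dvd.mul_right hd _
  have e4 : q ^ Y ∣ t * ((U a : ℤ) - U a') := (mul_dvd_mul_iff_left (pow_ne_zero _ hq0)).1 e2
  have e5 : IsCoprime (q ^ Y) t := by
    apply IsCoprime.pow_left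
    exact (Prime.coprime_iff_not_dvd hqp).2 hqt
  have e6 : q ^ Y ∣ (U a : ℤ) - U a' := e5.dvd_of_dvd_mul_left e4
  have e7 : (U a : ℤ) - U a' = 0 := by
    apply Int.eq_zero_of_abs_lt_dvd e6
    have f1 := h.one_le a ha
    have f2 := h.one_le a' ha'
    have f3 := h.le a ha
    have f4 := h.le a' ha'
    have f5 : (H : ℤ) < 2 ^ Y := by exact_mod_cast hY
    have f6 : (2 : ℤ) ^ Y ≤ q ^ Y := by
      apply pow_le_pow_left₀ (by norm_num)
      rw [hq]
      exact_mod_cast hp.two_le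
    rw [abs_lt]
    constructor <;> omega
  rw [e7, mul_zero] at e1
  rcases mul_eq_zero.1 e1 with h1 | h1
  · linarith
  · have := h.one_le a' ha'
    exfalso
    have h2 : (U a' : ℤ) ≠ 0 := by exact_mod_cast (by omega : U a' ≠ 0)
    exact h2 h1

lemma Prop1.reps (h : Prop1 p r A U H) {T : ℕ}
    (hT : ∀ n : ℕ, 1 ≤ n → n ≤ H ^ 2 → n.divisors.card ≤ T) :
    ∀ a ∈ A, ∀ b ∈ A, (A.filter (fun c => ∃ d ∈ A, a * b = c * d)).card ≤
      (A.image (pref (pv p) r)).card * T := by
  intro a ha b hb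
  set F := A.filter (fun c => ∃ d ∈ A, a * b = c * d) with hF
  have hFA : F ⊆ A := filter_subset _ _
  have key : ∀ l ∈ F.image (pref (pv p) r), (F.filter (fun c => pref (pv p) r c = l)).card ≤ T := by
    intro l hl
    obtain ⟨c0, hc0, rfl⟩ := mem_image.1 hl
    have hc0A := hFA hc0
    obtain ⟨d0, hd0, he0⟩ := (mem_filter.1 hc0).2
    have hV1 : 1 ≤ U c0 * U d0 :=
      Nat.one_le_iff_ne_zero.2 (Nat.mul_ne_zero (by have := h.one_le c0 hc0A; omega)
        (by have := h.one_le d0 hd0; omega))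
    have hV2 : U c0 * U d0 ≤ H ^ 2 := by
      rw [sq]
      exact Nat.mul_le_mul (h.le c0 hc0A) (h.le d0 hd0)
    refine le_trans ?_ (hT _ hV1 hV2)
    have hmain : ∀ c ∈ F.filter (fun c => pref (pv p) r c = pref (pv p) r c0),
        ∃ d ∈ A, U c * U d = U c0 * U d0 := by
      intro c hc
      rw [mem_filter] at hc
      have hcA := hFA hc.1
      obtain ⟨d, hd, he⟩ := (mem_filter.1 hc.1).2
      have hl := (pref_eq_iff _ _ _ _).1 hc.2
      refine ⟨d, hd, ?_⟩
      have hc1 := h.prop c hcA c0 hc0A hl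
      have hd1 : d * U d0 = d0 * U d := by
        apply h.prop d hd d0 hd0
        intro j hj
        have : Fact (p j).Prime := ⟨h.prime j hj⟩
        have g1 : padicValInt (p j) (c * d) = padicValInt (p j) c + padicValInt (p j) d :=
          padicValInt.mul (h.pos c hcA).ne' (h.pos d hd).ne'
        have g2 : padicValInt (p j) (c0 * d0) = padicValInt (p j) c0 + padicValInt (p j) d0 :=
          padicValInt.mul (h.pos c0 hc0A).ne' (h.pos d0 hd0).ne'
        have g3 := hl j hj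
        unfold pv at g3 ⊢
        rw [← he] at g1
        rw [← he0] at g2
        omega
      have e1 : (c * d) * ((U c0 : ℤ) * U d0) = (c0 * d0) * ((U c : ℤ) * U d) := by
        calc (c * d) * ((U c0 : ℤ) * U d0) = (c * U c0) * (d * U d0) := by ring
          _ = (c0 * U c) * (d0 * U d) := by rw [hc1, hd1]
          _ = _ := by ring
      rw [← he, ← he0] at e1
      have e2 : a * b ≠ 0 := mul_ne_zero (h.pos a ha).ne' (h.pos b hb).ne'
      have e3 := mul_left_cancel₀ e2 e1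
      exact_mod_cast e3.symm
    refine card_le_card_of_injOn U ?_ ?_
    · intro c hc
      rw [mem_coe] at hc ⊢
      obtain ⟨d, hd, he⟩ := hmain c hc
      rw [Nat.mem_divisors]
      exact ⟨⟨U d, he.symm⟩, by omega⟩
    · intro c hc c' hc' hU
      rw [mem_coe, mem_filter] at hc hc'
      have hcA := hFA hc.1
      have hc'A := hFA hc'.1
      have hl := (pref_eq_iff _ _ _ _).1 (hc.2.trans hc'.2.symm)
      have h1 := h.prop c hcA c' hc'A hl
      rw [hU] at h1
      have h2 : (U c' : ℤ) ≠ 0 := by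
        have := h.one_le c' hc'A
        exact_mod_cast (by omega : U c' ≠ 0)
      exact mul_right_cancel₀ h2 h1
  rw [card_eq_sum_card_image (pref (pv p) r) F]
  calc ∑ l ∈ F.image (pref (pv p) r), (F.filter (fun c => pref (pv p) r c = l)).card
      ≤ ∑ l ∈ F.image (pref (pv p) r), T := sum_le_sum key
    _ = (F.image (pref (pv p) r)).card * T := by rw [sum_const, smul_eq_mul]
    _ ≤ _ := Nat.mul_le_mul_right _ (card_le_card (image_subset_image hFA))

end Pool.Agent.Lib.CSid
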