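import Pool.Agent.Lib.CSid.Select
import Pool.Agent.Lib.CSid.Mult
import Pool.Agent.Lib.CSid.Sid

/-!
# The main estimate for regular sets
-/

set_option autoImplicit false

namespace Pool.Agent.Lib.CSid

open Finset

lemma exists_root (k : ℕ) (hk : 1 ≤ k) : ∃ s : ℕ, 1 ≤ s ∧ k ≤ s ^ 2 ∧ s ^ 2 ≤ 4 * k := by
  refine ⟨Nat.sqrt k + 1, by omega, ?_, ?_⟩
  · have := Nat.lt_succ_sqrt k
    rw [sq]
    exact this.le
  · have h1 : 1 ≤ Nat.sqrt k := Nat.sqrt_pos.2 hk
    have h2 : Nat.sqrt k * Nat.sqrt k ≤ k := Nat.sqrt_le k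
    nlinarith

theorem core {p : ℕ → ℕ} {r : ℕ} {A : Finset ℤ} {U : ℤ → ℕ} {H Y T k : ℕ}
    (h : Prop1 p r A U H) (hY : H < 2 ^ Y) (hS : Sep (pv p) A r Y)
    (hT : ∀ n : ℕ, 1 ≤ n → n ≤ H ^ 2 → n.divisors.card ≤ T) (hk : 1 ≤ k)
    (hpop : ∀ a ∈ A, k ≤ (cls (pv p) A r a).card ∧ (cls (pv p) A r a).card < 2 * k)
    (m : ℕ) (hm : 0 < m) (X : ℝ) (hX0 : 0 ≤ X) (hX : X ^ 3 = A.card)
    (hmX : 128 * 162 ^ r * (r + 9) * T * X ^ 4 ≤ (m : ℝ) ^ 3) :
    ∃ B ⊆ A, (AddSidon B ∨ MulSidon B) ∧ (A.card : ℝ) ≤ 4 * (r + 1) * m * B.card := by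
  obtain ⟨s, hs1, hs2, hs3⟩ := exists_root k hk
  have hkR : (1 : ℝ) ≤ k := by exact_mod_cast hk
  have hk0 : (0 : ℝ) < k := by linarith
  have hsR : (1 : ℝ) ≤ s := by exact_mod_cast hs1
  have hs2R : (k : ℝ) ≤ (s : ℝ) ^ 2 := by exact_mod_cast hs2
  have hs3R : (s : ℝ) ^ 2 ≤ 4 * k := by exact_mod_cast hs3
  have hpw : (1 : ℝ) ≤ 162 ^ r := one_le_pow₀ (by norm_num)
  have hrR : (0 : ℝ) ≤ r := by positivity
  have hX4 : 0 ≤ X ^ 4 := by positivity
  by_cases hcase : A.card ≤ 2 * k * s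
  · -- few levels: products
    set J := (A.image (pref (pv p) r)).card with hJ
    have hJk : J * k ≤ A.card := by
      rw [card_eq_sum_card_image (pref (pv p) r) A, ← smul_eq_mul, ← sum_const]
      refine sum_le_sum fun l hl => ?_
      obtain ⟨a, ha, rfl⟩ := mem_image.1 hl
      exact (hpop a ha).1
    have hN : X ^ 3 ≤ 2 * k * s := by rw [hX]; exact_mod_cast hcase
    have hX2 : X ^ 2 ≤ 3 * k := by
      have h1 : (X ^ 2) ^ 3 ≤ (3 * (k : ℝ)) ^ 3 := by
        calc (X ^ 2) ^ 3 = (X ^ 3) ^ 2 := by ring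
          _ ≤ (2 * (k : ℝ) * s) ^ 2 := pow_le_pow_left₀ (by positivity) hN 2
          _ = 4 * (k : ℝ) ^ 2 * (s : ℝ) ^ 2 := by ring
          _ ≤ 4 * (k : ℝ) ^ 2 * (4 * k) := by gcongr
          _ ≤ (3 * (k : ℝ)) ^ 3 := by
              have : 0 ≤ (k : ℝ) ^ 3 := by positivity
              nlinarith
      exact le_of_pow_le_pow_left₀ (by norm_num) (by positivity) h1
    have hNJ : (A.card : ℝ) * J ≤ 3 * X ^ 4 := by
      have h1 : (J : ℝ) * k ≤ A.card := by exact_mod_cast hJk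
      have h2 : ((A.card : ℝ) * J) * k ≤ (3 * X ^ 4) * k := by
        calc ((A.card : ℝ) * J) * k = A.card * (J * k) := by ring
          _ ≤ A.card * A.card := mul_le_mul_of_nonneg_left h1 (by positivity)
          _ = X ^ 4 * X ^ 2 := by rw [← hX]; ring
          _ ≤ X ^ 4 * (3 * k) := mul_le_mul_of_nonneg_left hX2 hX4
          _ = _ := by ring
      exact le_of_mul_le_mul_right h2 hk0
    have hcond : 8 * (A.card * (J * T)) ≤ m ^ 3 := by
      have h1 : (8 : ℝ) * (A.card * (J * T)) ≤ (m : ℝ) ^ 3 := by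
        refine le_trans ?_ hmX
        calc (8 : ℝ) * (A.card * (J * T)) = 8 * (A.card * J) * T := by ring
          _ ≤ 8 * (3 * X ^ 4) * T := by gcongr
          _ = 24 * (T * X ^ 4) := by ring
          _ ≤ (128 * 162 ^ r * (r + 9)) * (T * X ^ 4) := by
              apply mul_le_mul_of_nonneg_right _ (by positivity)
              nlinarith
          _ = _ := by ring
      exact_mod_cast h1
    obtain ⟨B, hB, hBS, hBc⟩ := mulSidon_of_reps A h.pos (J * T) m hm (h.reps hT) hcond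
    refine ⟨B, hB, Or.inr hBS, hBc.trans ?_⟩
    have : 0 ≤ (m : ℝ) * B.card := by positivity
    nlinarith
  · -- many levels: sums
    push Not at hcase
    have hAne : 0 < A.card := by omega
    have hT1 : (1 : ℝ) ≤ T := by
      obtain ⟨a, ha⟩ := card_pos.1 hAne
      have h1 := h.one_le a ha
      have h2 := h.le a ha
      have h3 : 1 ≤ H := by omega
      have h4 := hT 1 le_rfl (by nlinarith)
      rw [Nat.divisors_one, card_singleton] at h4
      exact_mod_cast h4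
    obtain ⟨i, hi, A', hA', hcard, hbig, hlev⟩ := select (pv p) r A k (2 * k * s)
      (fun a ha => (hpop a ha).1) (fun a ha => by
        have := (hpop a ha).2
        nlinarith) hcase
    have hr1 : (1 : ℝ) ≤ r := by exact_mod_cast (by omega : 1 ≤ r)
    have hr0 : (0 : ℝ) < r := by linarith
    have hlev' : ∀ a ∈ A', ((A'.filter (fun b => pref (pv p) (i + 1) b = pref (pv p) (i + 1) a)).image
        (pref (pv p) r)).card ≤ 2 * s := by
      intro a ha
      have h1 := hlev a ha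
      unfold cls at h1
      have h2 : 2 * k * s = 2 * s * k := by ring
      rw [h2] at h1
      exact Nat.le_of_mul_le_mul_right h1 (by omega)
    have hpos : (0 : ℝ) < ((2 * k * s : ℕ) : ℝ) / (2 * r) := by
      push_cast
      positivity
    have hE := en_le_main (pv p) (fun j => (p j : ℤ)) r Y (2 * s) (2 * k) i hi A'
      ((h.subset hA').val) (hS.subset hA') ((h.subset hA').inj hY) hlev'
      (fun a ha => by
        have h1 := (hpop a (hA' ha)).2
        have h2 : (A'.filter (fun b => pref (pv p) r b = pref (pv p) r a)).card ≤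
            (cls (pv p) A r a).card := card_le_card (filter_subset_filter _ hA')
        omega) _ hpos (fun a ha => hbig a ha)
    have hE2 : (en A' : ℝ) ≤ 162 ^ r * (8 * (r + 6)) * s * (A'.card : ℝ) ^ 2 := by
      refine hE.trans ?_
      have e1 : 2 * 2 ^ r * (((2 * k : ℕ) : ℝ)) ^ 2 / (((2 * k * s : ℕ) : ℝ) / (2 * r)) ≤
          8 * 2 ^ r * r * s := by
        rw [div_le_iff₀ hpos]
        push_cast
        have e2 : 8 * 2 ^ r * (r : ℝ) * s * (2 * k * s / (2 * r)) = 8 * 2 ^ r * k * (s : ℝ) ^ 2 := by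
          field_simp
        rw [e2]
        have e3 : 2 * 2 ^ r * (2 * (k : ℝ)) ^ 2 = 8 * 2 ^ r * k * k := by ring
        rw [e3]
        gcongr
      have e4 : (81 : ℝ) ^ i ≤ 81 ^ r := pow_le_pow_right₀ (by norm_num) hi.le
      have e5 : (162 : ℝ) ^ r = 81 ^ r * 2 ^ r := by rw [← mul_pow]; norm_num
      calc 81 ^ i * (2 * 2 ^ r * (((2 * k : ℕ) : ℝ)) ^ 2 / (((2 * k * s : ℕ) : ℝ) / (2 * r)) +
            24 * 2 ^ r * ((2 * s : ℕ) : ℝ)) * (A'.card : ℝ) ^ 2
          ≤ 81 ^ r * (8 * 2 ^ r * r * s + 24 * 2 ^ r * ((2 * s : ℕ) : ℝ)) * (A'.card : ℝ) ^ 2 := by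
            gcongr
        _ = _ := by
            rw [e5]
            push_cast
            ring
    have hs2X : (s : ℝ) ≤ 2 * X := by
      by_contra hcon
      push Not at hcon
      have h1 : (2 * X) ^ 3 < (s : ℝ) ^ 3 := pow_lt_pow_left₀ hcon (by positivity) (by norm_num)
      have h2 : (2 * k * s : ℝ) < X ^ 3 := by rw [hX]; exact_mod_cast hcase
      have h3 : (s : ℝ) ^ 2 * s ≤ 4 * k * s := mul_le_mul_of_nonneg_right hs3R (by linarith)
      have h4 : (s : ℝ) ^ 3 = (s : ℝ) ^ 2 * s := by ring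
      have h5 : (2 * X) ^ 3 = 8 * X ^ 3 := by ring
      have h6 : (0 : ℝ) < s := by linarith
      nlinarith [mul_pos hk0 h6]
    have hA'N : (A'.card : ℝ) ≤ X ^ 3 := by rw [hX]; exact_mod_cast card_le_card hA'
    have hcond : 8 * en A' ≤ A'.card * m ^ 3 := by
      have h1 : (8 : ℝ) * en A' ≤ A'.card * (m : ℝ) ^ 3 := by
        calc (8 : ℝ) * en A' ≤ 8 * (162 ^ r * (8 * (r + 6)) * s * (A'.card : ℝ) ^ 2) := by gcongr
          _ ≤ 8 * (162 ^ r * (8 * (r + 6)) * (2 * X) * (A'.card : ℝ) ^ 2) := by gcongr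
          _ = (128 * 162 ^ r * (r + 6)) * X * (A'.card * A'.card) := by ring
          _ ≤ (128 * 162 ^ r * (r + 6)) * X * (A'.card * X ^ 3) := by gcongr
          _ = A'.card * ((128 * 162 ^ r * (r + 6)) * 1 * X ^ 4) := by ring
          _ ≤ A'.card * ((128 * 162 ^ r * (r + 9)) * T * X ^ 4) := by
              gcongr
              norm_num
          _ ≤ A'.card * (m : ℝ) ^ 3 := by gcongr
      exact_mod_cast h1
    obtain ⟨B, hB, hBS, hBc⟩ := addSidon_of_en A' m hm hcond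
    refine ⟨B, hB.trans hA', Or.inl hBS, ?_⟩
    calc (A.card : ℝ) ≤ 2 * r * A'.card := hcard
      _ ≤ 2 * r * (2 * m * B.card) := by gcongr
      _ = 4 * r * m * B.card := by ring
      _ ≤ 4 * (r + 1) * m * B.card := by
          have : 0 ≤ (m : ℝ) * B.card := by positivity
          nlinarith

end Pool.Agent.Lib.CSid
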