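import Pool.Agent.Lib.CSid.Add2
import Pool.Agent.Lib.CSid.Core

/-!
# The main estimate with exponent `3/5` for regular sets
-/

set_option autoImplicit false

namespace Pool.Agent.Lib.CSid

open Finset

lemma addSidon_singleton (a : ℤ) : AddSidon {a} := by
  intro x hx y hy z hz w hw _
  simp only [mem_singleton] at hx hy hz hw
  left
  rw [hx, hy, hz, hw]
  exact ⟨rfl, rfl⟩

/-- the case of many levels -/
theorem add3 {p : ℕ → ℕ} {r : ℕ} {A : Finset ℤ} {U : ℤ → ℕ} {H Y k s m : ℕ}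
    (h : Prop1 p r A U H) (hY : H < 2 ^ Y) (hS : Sep (pv p) A r Y)
    (hk : 1 ≤ k)
    (hpop : ∀ a ∈ A, k ≤ (cls (pv p) A r a).card ∧ (cls (pv p) A r a).card < 2 * k)
    (hm : 0 < m) (hs1 : 1 ≤ s) (hs2 : k ≤ s ^ 2) (hcase : 2 * k * s < A.card)
    (hmX : 64 * 162 ^ r * (r + 6) * (s : ℝ) * A.card ≤ (m : ℝ) ^ 3) :
    ∃ B ⊆ A, AddSidon B ∧ (A.card : ℝ) ≤ 4 * r * m * B.card := by
  have hkR : (1 : ℝ) ≤ k := by exact_mod_cast hk
  have hk0 : (0 : ℝ) < k := by linarith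
  have hsR : (1 : ℝ) ≤ s := by exact_mod_cast hs1
  have hs2R : (k : ℝ) ≤ (s : ℝ) ^ 2 := by exact_mod_cast hs2
  have hpw : (1 : ℝ) ≤ 162 ^ r := one_le_pow₀ (by norm_num)
  obtain ⟨i, hi, A', hA', hcard, hbig, hlev⟩ := select (pv p) r A k (2 * k * s)
    (fun a ha => (hpop a ha).1) (fun a ha => by
      have := (hpop a ha).2
      nlinarith) hcase
  have hr1 : (1 : ℝ) ≤ r := by exact_mod_cast (by omega : 1 ≤ r)
  have hr0 : (0 : ℝ) < r := by linarith
  have hlev' : ∀ a ∈ A', ((A'.filter (fun b => pref (pv p) (i + 1) b = pref (pv p) (i + 1) a)).image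
      (pref (pv p) r)).card ≤ 2 * s := by
    intro a ha
    have h1 := hlev a ha
    unfold cls at h1
    have h2 : 2 * k * s = 2 * s * k := by ring
    rw [h2] at h1
    exact Nat.le_of_mul_le_mul_right h1 (by omega)
  have hpos : (0 : ℝ) < ((2 * k * s : ℕ) : ℝ) / (2 * r) := by
    push_cast
    positivity
  have hE := en_le_main (pv p) (fun j => (p j : ℤ)) r Y (2 * s) (2 * k) i hi A'
    ((h.subset hA').val) (hS.subset hA') ((h.subset hA').inj hY) hlev'
    (fun a ha => by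
      have h1 := (hpop a (hA' ha)).2
      have h2 : (A'.filter (fun b => pref (pv p) r b = pref (pv p) r a)).card ≤
          (cls (pv p) A r a).card := card_le_card (filter_subset_filter _ hA')
      omega) _ hpos (fun a ha => hbig a ha)
  have hE2 : (en A' : ℝ) ≤ 162 ^ r * (8 * (r + 6)) * s * (A'.card : ℝ) ^ 2 := by
    refine hE.trans ?_
    have e1 : 2 * 2 ^ r * (((2 * k : ℕ) : ℝ)) ^ 2 / (((2 * k * s : ℕ) : ℝ) / (2 * r)) ≤
        8 * 2 ^ r * r * s := by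
      rw [div_le_iff₀ hpos]
      push_cast
      have e2 : 8 * 2 ^ r * (r : ℝ) * s * (2 * k * s / (2 * r)) = 8 * 2 ^ r * k * (s : ℝ) ^ 2 := by
        field_simp
      rw [e2]
      have e3 : 2 * 2 ^ r * (2 * (k : ℝ)) ^ 2 = 8 * 2 ^ r * k * k := by ring
      rw [e3]
      gcongr
    have e4 : (81 : ℝ) ^ i ≤ 81 ^ r := pow_le_pow_right₀ (by norm_num) hi.le
    have e5 : (162 : ℝ) ^ r = 81 ^ r * 2 ^ r := by rw [← mul_pow]; norm_num
    calc 81 ^ i * (2 * 2 ^ r * (((2 * k : ℕ) : ℝ)) ^ 2 / (((2 * k * s : ℕ) : ℝ) / (2 * r)) +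
          24 * 2 ^ r * ((2 * s : ℕ) : ℝ)) * (A'.card : ℝ) ^ 2
        ≤ 81 ^ r * (8 * 2 ^ r * r * s + 24 * 2 ^ r * ((2 * s : ℕ) : ℝ)) * (A'.card : ℝ) ^ 2 := by
          gcongr
      _ = _ := by
          rw [e5]
          push_cast
          ring
  have hA'N : (A'.card : ℝ) ≤ A.card := by exact_mod_cast card_le_card hA'
  have hcond : 8 * en A' ≤ A'.card * m ^ 3 := by
    have h1 : (8 : ℝ) * en A' ≤ A'.card * (m : ℝ) ^ 3 := by
      calc (8 : ℝ) * en A' ≤ 8 * (162 ^ r * (8 * (r + 6)) * s * (A'.card : ℝ) ^ 2) := by gcongr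
        _ = A'.card * (64 * 162 ^ r * (r + 6) * s * A'.card) := by ring
        _ ≤ A'.card * (64 * 162 ^ r * (r + 6) * s * A.card) := by gcongr
        _ ≤ A'.card * (m : ℝ) ^ 3 := by gcongr
    exact_mod_cast h1
  obtain ⟨B, hB, hBS, hBc⟩ := addSidon_of_en A' m hm hcond
  refine ⟨B, hB.trans hA', hBS, ?_⟩
  calc (A.card : ℝ) ≤ 2 * r * A'.card := hcard
    _ ≤ 2 * r * (2 * m * B.card) := by gcongr
    _ = 4 * r * m * B.card := by ring

theorem core35 {p : ℕ → ℕ} {r : ℕ} {A : Finset ℤ} {U : ℤ → ℕ} {H Y T k W : ℕ}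
    (h : Prop1 p r A U H) (hHY : H ^ 2 < 2 ^ Y) (hHY' : H < 2 ^ Y) (hY : 2 ≤ Y)
    (hS : Sep (pv p) A r Y) (hD : ∀ j < r, Dig (p j) (pv p j) A)
    (hT : ∀ n : ℕ, 1 ≤ n → n ≤ H ^ 2 → n.divisors.card ≤ T) (hk : 1 ≤ k)
    (hpop : ∀ a ∈ A, k ≤ (cls (pv p) A r a).card ∧ (cls (pv p) A r a).card < 2 * k)
    (hW : (Nat.log 2 (A.image (lv p r)).card + 1) ^ (2 ^ r) ≤ W)
    (m : ℕ) (X : ℝ) (hX0 : 0 ≤ X) (hX : X ^ 5 = A.card) (hne : A.Nonempty)
    (hmX : 128 * 162 ^ r * (r + 9) * (1 + T) * W * X ^ 2 ≤ m) :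
    ∃ B ⊆ A, (AddSidon B ∨ MulSidon B) ∧ (A.card : ℝ) ≤ 4 * (r + 1) * W * m * B.card := by
  obtain ⟨s, hs1, hs2, hs3⟩ := exists_root k hk
  obtain ⟨a0, ha0⟩ := hne
  have hA1 : 1 ≤ A.card := card_pos.2 ⟨a0, ha0⟩
  have hA1R : (1 : ℝ) ≤ A.card := by exact_mod_cast hA1
  have hX1 : 1 ≤ X := by
    by_contra hcon
    push Not at hcon
    have : X ^ 5 < 1 := pow_lt_one₀ hX0 hcon (by norm_num)
    linarith
  have hkR : (1 : ℝ) ≤ k := by exact_mod_cast hk
  have hk0 : (0 : ℝ) < k := by linarith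
  have hsR : (1 : ℝ) ≤ s := by exact_mod_cast hs1
  have hs3R : (s : ℝ) ^ 2 ≤ 4 * k := by exact_mod_cast hs3
  have hpw : (1 : ℝ) ≤ 162 ^ r := one_le_pow₀ (by norm_num)
  have hrR : (0 : ℝ) ≤ r := by positivity
  have hTR : (0 : ℝ) ≤ T := by positivity
  have hW1 : 1 ≤ W := le_trans (Nat.one_le_pow _ _ (by omega)) hW
  have hW1R : (1 : ℝ) ≤ W := by exact_mod_cast hW1
  set C : ℝ := 128 * 162 ^ r * (r + 9) * (1 + T) * W with hC
  set J := (A.image (lv p r)).card with hJ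
  have hJpref : (A.image (pref (pv p) r)).card = J := card_image_pref p r A
  have hcls : ∀ a, A.filter (fun b => lv p r b = lv p r a) = cls (pv p) A r a := by
    intro a
    unfold cls
    ext b
    rw [mem_filter, mem_filter, pref_eq_iff_lv]
  have hJk : J * k ≤ A.card := by
    rw [card_eq_sum_card_image (lv p r) A, ← smul_eq_mul, ← sum_const]
    refine sum_le_sum fun l hl => ?_
    obtain ⟨a, ha, rfl⟩ := mem_image.1 hl
    rw [hcls]
    exact (hpop a ha).1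
  have hJkR : (J : ℝ) * k ≤ X ^ 5 := by
    rw [hX]
    exact_mod_cast hJk
  have hJ0 : (0 : ℝ) ≤ J := by positivity
  have hC1 : (1152 : ℝ) ≤ C := by
    calc (1152 : ℝ) = 128 * 1 * (0 + 9) * (1 + 0) * 1 := by norm_num
      _ ≤ C := by rw [hC]; gcongr
  have hC8T : 8 * (T : ℝ) ≤ C := by
    calc 8 * (T : ℝ) ≤ 128 * 1 * (0 + 9) * (1 + T) * 1 := by linarith
      _ ≤ C := by rw [hC]; gcongr
  have hC32 : 32 * (1 + (T : ℝ)) ≤ C := by
    calc 32 * (1 + (T : ℝ)) ≤ 128 * 1 * (0 + 9) * (1 + T) * 1 := by linarith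
      _ ≤ C := by rw [hC]; gcongr
  have hC68 : 68 * 4 ^ r * (W : ℝ) ≤ C := by
    calc 68 * 4 ^ r * (W : ℝ) ≤ 128 * 162 ^ r * 1 * 1 * W := by
          rw [mul_one, mul_one]
          gcongr
          · norm_num
          · norm_num
      _ ≤ C := by
          rw [hC]
          gcongr
          · linarith
          · linarith
  have hC64 : 128 * 162 ^ r * ((r : ℝ) + 6) ≤ C := by
    calc 128 * 162 ^ r * ((r : ℝ) + 6) ≤ 128 * 162 ^ r * ((r : ℝ) + 9) * 1 * 1 := by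
          rw [mul_one, mul_one]
          gcongr
          norm_num
      _ ≤ C := by
          rw [hC]
          gcongr
          linarith
  have hX2 : 1 ≤ X ^ 2 := one_le_pow₀ hX1
  have hCm : C ≤ m := by
    refine le_trans ?_ hmX
    nlinarith
  have hm : 0 < m := by
    have : (0 : ℝ) < m := by linarith
    exact_mod_cast this
  have hX6 : 0 ≤ X ^ 6 := by positivity
  have hm2 : C ^ 2 * X ^ 4 ≤ (m : ℝ) ^ 2 := by
    calc C ^ 2 * X ^ 4 = (C * X ^ 2) ^ 2 := by ring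
      _ ≤ (m : ℝ) ^ 2 := pow_le_pow_left₀ (by positivity) hmX 2
  have hm3 : C * X ^ 6 ≤ (m : ℝ) ^ 3 := by
    calc C * X ^ 6 ≤ C ^ 3 * X ^ 6 := by
          gcongr
          calc C = C ^ 1 := (pow_one C).symm
            _ ≤ C ^ 3 := pow_le_pow_right₀ (by linarith) (by norm_num)
      _ = (C * X ^ 2) ^ 3 := by ring
      _ ≤ (m : ℝ) ^ 3 := pow_le_pow_left₀ (by positivity) hmX 3
  have hT1 : ∀ n : ℕ, 1 ≤ n → n ≤ H → n.divisors.card ≤ T := by
    intro n hn1 hn2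
    refine hT n hn1 (hn2.trans ?_)
    nlinarith
  by_cases c1 : J ^ 4 ≤ k
  · -- few levels: products
    have hJX : (J : ℝ) ≤ X := by
      have h1 : (J : ℝ) ^ 5 ≤ X ^ 5 := by
        have h2 : (J : ℝ) ^ 4 ≤ k := by exact_mod_cast c1
        calc (J : ℝ) ^ 5 = (J : ℝ) * (J : ℝ) ^ 4 := by ring
          _ ≤ (J : ℝ) * k := by gcongr
          _ ≤ X ^ 5 := hJkR
      exact le_of_pow_le_pow_left₀ (by norm_num) hX0 h1
    have hcond : 8 * (A.card * (J * T)) ≤ m ^ 3 := by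
      have h1 : (8 : ℝ) * (A.card * (J * T)) ≤ (m : ℝ) ^ 3 := by
        calc (8 : ℝ) * (A.card * (J * T)) ≤ 8 * (X ^ 5 * (X * T)) := by
              rw [← hX]
              gcongr
          _ = (8 * T) * X ^ 6 := by ring
          _ ≤ C * X ^ 6 := by gcongr
          _ ≤ (m : ℝ) ^ 3 := hm3
      exact_mod_cast h1
    obtain ⟨B, hB, hBS, hBc⟩ := mulSidon_of_reps A h.pos (J * T) m hm
      (by
        have := h.reps hT
        rwa [hJpref] at this) hcond
    refine ⟨B, hB, Or.inr hBS, hBc.trans ?_⟩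
    have h1 : 0 ≤ (m : ℝ) * B.card := by positivity
    calc 2 * (m : ℝ) * B.card = (2 * 1 * 1) * (m * B.card) := by ring
      _ ≤ (4 * (r + 1) * W) * (m * B.card) := by
          gcongr
          · norm_num
          · linarith
      _ = _ := by ring
  by_cases c2 : J ^ 2 ≤ k ^ 3
  · push Not at c1
    have hc1R : (k : ℝ) ≤ (J : ℝ) ^ 4 := by exact_mod_cast c1.le
    have hc2R : (J : ℝ) ^ 2 ≤ (k : ℝ) ^ 3 := by exact_mod_cast c2
    have hJX : (J : ℝ) ≤ X ^ 3 := by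
      have h1 : (J : ℝ) ^ 5 ≤ (X ^ 3) ^ 5 := by
        calc (J : ℝ) ^ 5 = (J : ℝ) ^ 3 * (J : ℝ) ^ 2 := by ring
          _ ≤ (J : ℝ) ^ 3 * (k : ℝ) ^ 3 := by gcongr
          _ = ((J : ℝ) * k) ^ 3 := by ring
          _ ≤ (X ^ 5) ^ 3 := pow_le_pow_left₀ (by positivity) hJkR 3
          _ = (X ^ 3) ^ 5 := by ring
      exact le_of_pow_le_pow_left₀ (by norm_num) (by positivity) h1
    have hkX : (k : ℝ) ≤ X ^ 4 := by
      have h1 : (k : ℝ) ^ 5 ≤ (X ^ 4) ^ 5 := by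
        calc (k : ℝ) ^ 5 = (k : ℝ) ^ 4 * k := by ring
          _ ≤ (k : ℝ) ^ 4 * (J : ℝ) ^ 4 := by gcongr
          _ = ((J : ℝ) * k) ^ 4 := by ring
          _ ≤ (X ^ 5) ^ 4 := pow_le_pow_left₀ (by positivity) hJkR 4
          _ = (X ^ 4) ^ 5 := by ring
      exact le_of_pow_le_pow_left₀ (by norm_num) (by positivity) h1
    obtain ⟨B, hB, hBS, hBc⟩ := add2 (m := m) (k := k) (W := W) h hHY hHY' hY hS hD hT1
      (fun a ha => by
        rw [hcls]
        exact hpop a ha) hm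
      (by
        have h1 : 1024 * (1 + (T : ℝ)) ^ 2 * k ≤ (m : ℝ) ^ 2 := by
          calc 1024 * (1 + (T : ℝ)) ^ 2 * k = (32 * (1 + (T : ℝ))) ^ 2 * k := by ring
            _ ≤ C ^ 2 * X ^ 4 := by gcongr
            _ ≤ (m : ℝ) ^ 2 := hm2
        exact_mod_cast h1) hW
      (by
        have h1 : 68 * 4 ^ r * (W : ℝ) * (J : ℝ) ^ 2 ≤ (m : ℝ) ^ 3 := by
          calc 68 * 4 ^ r * (W : ℝ) * (J : ℝ) ^ 2 ≤ C * (X ^ 3) ^ 2 := by gcongr
            _ = C * X ^ 6 := by ring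
            _ ≤ (m : ℝ) ^ 3 := hm3
        exact_mod_cast h1)
    refine ⟨B, hB, Or.inl hBS, hBc.trans ?_⟩
    have h1 : 0 ≤ (m : ℝ) * B.card := by positivity
    calc 4 * (W : ℝ) * m * B.card = (4 * 1 * W) * (m * B.card) := by ring
      _ ≤ (4 * (r + 1) * W) * (m * B.card) := by
          gcongr
          linarith
      _ = _ := by ring
  · push Not at c2
    have hc2R : (k : ℝ) ^ 3 ≤ (J : ℝ) ^ 2 := by exact_mod_cast c2.le
    by_cases c3 : A.card ≤ 2 * k * s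
    · -- small sets
      have e1 : J ≤ 2 * s := by
        have : J * k ≤ 2 * s * k := by
          calc J * k ≤ A.card := hJk
            _ ≤ 2 * k * s := c3
            _ = 2 * s * k := by ring
        exact Nat.le_of_mul_le_mul_right this (by omega)
      have e2 : k ≤ 3 := by
        by_contra hcon
        push Not at hcon
        have h1 : J ^ 2 ≤ 16 * k := by
          calc J ^ 2 ≤ (2 * s) ^ 2 := Nat.pow_le_pow_left e1 2
            _ = 4 * s ^ 2 := by ring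
            _ ≤ 4 * (4 * k) := by gcongr
            _ = 16 * k := by ring
        have h2 : 16 * k ≤ k ^ 3 := by
          have : 4 ^ 2 ≤ k ^ 2 := Nat.pow_le_pow_left hcon 2
          calc 16 * k = 4 ^ 2 * k := by norm_num
            _ ≤ k ^ 2 * k := Nat.mul_le_mul_right _ this
            _ = k ^ 3 := by ring
        omega
      have e3 : s ≤ 3 := by
        by_contra hcon
        push Not at hcon
        have : 4 ^ 2 ≤ s ^ 2 := Nat.pow_le_pow_left hcon 2
        omega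
      have e4 : A.card ≤ 18 := by
        calc A.card ≤ 2 * k * s := c3
          _ ≤ 2 * 3 * 3 := by gcongr
          _ = 18 := by norm_num
      refine ⟨{a0}, by simpa using ha0, Or.inl (addSidon_singleton a0), ?_⟩
      rw [card_singleton]
      have e5 : (A.card : ℝ) ≤ 18 := by exact_mod_cast e4
      calc (A.card : ℝ) ≤ 4 * 1 * 1 * m * 1 := by linarith
        _ ≤ 4 * (r + 1) * W * m * ((1 : ℕ) : ℝ) := by
            push_cast
            gcongr
            linarith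
    · push Not at c3
      have hkX : (k : ℝ) ≤ X ^ 2 := by
        have h1 : (k : ℝ) ^ 5 ≤ (X ^ 2) ^ 5 := by
          calc (k : ℝ) ^ 5 = (k : ℝ) ^ 2 * (k : ℝ) ^ 3 := by ring
            _ ≤ (k : ℝ) ^ 2 * (J : ℝ) ^ 2 := by gcongr
            _ = ((J : ℝ) * k) ^ 2 := by ring
            _ ≤ (X ^ 5) ^ 2 := pow_le_pow_left₀ (by positivity) hJkR 2
            _ = (X ^ 2) ^ 5 := by ring
        exact le_of_pow_le_pow_left₀ (by norm_num) (by positivity) h1
      have hsX : (s : ℝ) ≤ 2 * X := by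
        have h1 : (s : ℝ) ^ 2 ≤ (2 * X) ^ 2 := by
          calc (s : ℝ) ^ 2 ≤ 4 * k := hs3R
            _ ≤ 4 * X ^ 2 := by gcongr
            _ = (2 * X) ^ 2 := by ring
        exact le_of_pow_le_pow_left₀ (by norm_num) (by positivity) h1
      obtain ⟨B, hB, hBS, hBc⟩ := add3 h hHY' hS hk hpop hm hs1 hs2 c3 (by
        calc 64 * 162 ^ r * ((r : ℝ) + 6) * (s : ℝ) * A.card
            ≤ 64 * 162 ^ r * ((r : ℝ) + 6) * (2 * X) * X ^ 5 := by
              rw [← hX]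
              gcongr
          _ = (128 * 162 ^ r * ((r : ℝ) + 6)) * X ^ 6 := by ring
          _ ≤ C * X ^ 6 := by gcongr
          _ ≤ (m : ℝ) ^ 3 := hm3)
      refine ⟨B, hB, Or.inl hBS, hBc.trans ?_⟩
      have h1 : 0 ≤ (m : ℝ) * B.card := by positivity
      calc 4 * (r : ℝ) * m * B.card = (4 * r * 1) * (m * B.card) := by ring
        _ ≤ (4 * (r + 1) * W) * (m * B.card) := by
            gcongr
            linarith
        _ = _ := by ring

end Pool.Agent.Lib.CSid
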