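import Pool.Agent.Lib.CSid.Types

/-!
# The number of bad quadruples
-/

set_option autoImplicit false

namespace Pool.Agent.Lib.CSid

open Finset

section

variable {p : ℕ → ℕ} {r Y : ℕ} {A : Finset ℤ} {U : ℤ → ℕ} {H : ℕ}

/-- all solutions of `a + b = c + d` -/
def sols (A : Finset ℤ) : Finset (ℤ × ℤ × ℤ × ℤ) :=
  (A ×ˢ A ×ˢ A ×ˢ A).filter (fun t => t.1 + t.2.1 = t.2.2.1 + t.2.2.2)

lemma mem_sols {A : Finset ℤ} {a b c d : ℤ} :
    (a, b, c, d) ∈ sols A ↔ (a ∈ A ∧ b ∈ A ∧ c ∈ A ∧ d ∈ A) ∧ a + b = c + d := by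
  unfold sols
  rw [mem_filter, mem_product, mem_product, mem_product]

lemma unique_cong (h : Prop1 p r A U H) (hHY : H < 2 ^ Y) {a c c' : ℤ} (hc : c ∈ A)
    (hc' : c' ∈ A) (hl : lv p r c = lv p r c') {j : ℕ} (hj : j < r) (e : pv p j a = pv p j c)
    (h1 : ((p j : ℕ) : ℤ) ^ (pv p j a + Y) ∣ a - c)
    (h2 : ((p j : ℕ) : ℤ) ^ (pv p j a + Y) ∣ a - c') : c = c' := by
  have hl' := (lv_eq_iff p r c c').1 hl
  refine eq_of_level h hHY hc hc' hl' hj ?_
  rw [← e]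
  have h3 : c - c' = (a - c') - (a - c) := by ring
  rw [h3]
  exact dvd_sub h2 h1

open Classical in
lemma card_OvP (h : Prop1 p r A U H) (hHY : H < 2 ^ Y) :
    ((sols A).filter (fun t => OvP p r Y t.1 t.2.1 t.2.2.1 t.2.2.2)).card ≤
      r ^ 2 * (A.card * (A.image (lv p r)).card ^ 2) := by
  set Λ := A.image (lv p r) with hΛ
  set S : ℕ × ℕ → Finset (ℤ × ℤ × ℤ × ℤ) := fun x =>
    (sols A).filter (fun t => Pr p Y x.1 t.1 t.2.2.1 t.2.1 t.2.2.2 ∧
      Pr p Y x.2 t.1 t.2.2.2 t.2.1 t.2.2.1) with hS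
  have h1 : (sols A).filter (fun t => OvP p r Y t.1 t.2.1 t.2.2.1 t.2.2.2) ⊆
      (range r ×ˢ range r).biUnion S := by
    rintro ⟨a, b, c, d⟩ ht
    rw [mem_filter] at ht
    obtain ⟨ht, j, hj, j', hj', k1, k2⟩ := ht
    rw [mem_biUnion]
    refine ⟨(j, j'), mem_product.2 ⟨mem_range.2 hj, mem_range.2 hj'⟩, ?_⟩
    rw [hS, mem_filter]
    exact ⟨ht, k1, k2⟩
  have h2 : ∀ x ∈ range r ×ˢ range r, (S x).card ≤ A.card * Λ.card ^ 2 := by
    rintro ⟨j, j'⟩ hx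
    rw [mem_product, mem_range, mem_range] at hx
    have h3 : A.card * Λ.card ^ 2 = (A ×ˢ Λ ×ˢ Λ).card := by
      rw [card_product, card_product, sq]
    rw [h3]
    refine card_le_card_of_injOn (fun t => (t.1, lv p r t.2.2.1, lv p r t.2.2.2)) ?_ ?_
    · rintro ⟨a, b, c, d⟩ ht
      rw [mem_coe, hS, mem_filter, mem_sols] at ht
      rw [mem_coe, mem_product, mem_product]
      exact ⟨ht.1.1.1, mem_image_of_mem _ ht.1.1.2.2.1, mem_image_of_mem _ ht.1.1.2.2.2⟩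
    · rintro ⟨a, b, c, d⟩ ht ⟨a', b', c', d'⟩ ht' heq
      rw [mem_coe, hS, mem_filter, mem_sols] at ht ht'
      simp only [Prod.mk.injEq] at heq
      obtain ⟨rfl, e1, e2⟩ := heq
      obtain ⟨⟨⟨ha, hb, hc, hd⟩, he⟩, k1, k2⟩ := ht
      obtain ⟨⟨⟨-, hb', hc', hd'⟩, he'⟩, k1', k2'⟩ := ht'
      have f1 : c = c' := unique_cong h hHY hc hc' e1 hx.1 k1.1 k1.2.2.2 k1'.2.2.2
      have f2 : d = d' := unique_cong h hHY hd hd' e2 hx.2 k2.1 k2.2.2.2 k2'.2.2.2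
      subst f1
      subst f2
      have f3 : b = b' := by linarith
      rw [f3]
  calc _ ≤ ((range r ×ˢ range r).biUnion S).card := card_le_card h1
    _ ≤ (range r ×ˢ range r).card * (A.card * Λ.card ^ 2) := card_biUnion_le_card_mul _ _ _ h2
    _ = r ^ 2 * (A.card * Λ.card ^ 2) := by
        rw [card_product, card_range]
        ring

lemma cross (h : Prop1 p r A U H) (hHY : H ^ 2 < 2 ^ Y) {b b' d d' : ℤ} (hb : b ∈ A)
    (hb' : b' ∈ A) (hd : d ∈ A) (hd' : d' ∈ A) (hlb : lv p r b = lv p r b')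
    (hld : lv p r d = lv p r d') {j : ℕ} (hj : j < r) (hbd : pv p j b = pv p j d)
    (h1 : ((p j : ℕ) : ℤ) ^ (pv p j b + Y) ∣ b - d)
    (h2 : ((p j : ℕ) : ℤ) ^ (pv p j b + Y) ∣ b' - d') : b * d' = b' * d := by
  have hlb' := (lv_eq_iff p r b b').1 hlb
  have hld' := (lv_eq_iff p r d d').1 hld
  have hp := h.prime j hj
  have hPb := h.prop b hb b' hb' hlb'
  have hPd := h.prop d hd d' hd' hld'
  have hvb := h.val j hj b hb
  have hvb' := h.val j hj b' hb'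
  have hvd := h.val j hj d hd
  simp only at hvb hvb' hvd
  rw [← hlb' j hj] at hvb'
  rw [← hbd] at hvd
  set w := pv p j b with hw
  set q : ℤ := ((p j : ℕ) : ℤ) with hq
  have hq0 : q ≠ 0 := by rw [hq]; exact_mod_cast hp.ne_zero
  have hqp : Prime q := Nat.prime_iff_prime_int.1 hp
  obtain ⟨x, hx⟩ := hvb.1
  obtain ⟨x', hx'⟩ := hvb'.1
  obtain ⟨z, hz⟩ := hvd.1
  have hqx : ¬ q ∣ x := by
    rintro ⟨s, rfl⟩
    apply hvb.2
    rw [hx, pow_succ]
    exact ⟨s, by ring⟩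
  have hqz : ¬ q ∣ z := by
    rintro ⟨s, rfl⟩
    apply hvd.2
    rw [hz, pow_succ]
    exact ⟨s, by ring⟩
  set E : ℤ := (U b : ℤ) * U d' - U b' * U d with hE
  have e1 : (b * d' - b' * d) * ((U b : ℤ) * U d) = b * d * E := by
    have g1 : b * d' * ((U b : ℤ) * U d) = b * d * ((U b : ℤ) * U d') := by
      calc b * d' * ((U b : ℤ) * U d) = b * U b * (d' * U d) := by ring
        _ = b * U b * (d * U d') := by rw [hPd]
        _ = _ := by ring
    have g2 : b' * d * ((U b : ℤ) * U d) = b * d * ((U b' : ℤ) * U d) := by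
      calc b' * d * ((U b : ℤ) * U d) = (b' * U b) * (d * U d) := by ring
        _ = (b * U b') * (d * U d) := by rw [hPb]
        _ = _ := by ring
    rw [sub_mul, g1, g2, hE]
    ring
  have e2 : q ^ w * q ^ w * q ^ Y ∣ b * d' - b' * d := by
    have g3 : b * d' - b' * d = b' * (b - d) - b * (b' - d') := by ring
    rw [g3]
    apply dvd_sub
    · rw [mul_assoc, ← pow_add]
      exact mul_dvd_mul hvb'.1 h1
    · rw [mul_assoc, ← pow_add]
      exact mul_dvd_mul hvb.1 h2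
  have e3 : q ^ w * q ^ w * q ^ Y ∣ q ^ w * q ^ w * (x * z * E) := by
    have g4 : q ^ w * q ^ w * (x * z * E) = (b * d' - b' * d) * ((U b : ℤ) * U d) := by
      rw [e1]
      conv_rhs => rw [hx, hz]
      ring
    rw [g4]
    exact Dvd.dvd.mul_right e2 _
  have e4 : q ^ Y ∣ x * z * E :=
    (mul_dvd_mul_iff_left (mul_ne_zero (pow_ne_zero _ hq0) (pow_ne_zero _ hq0))).1 e3
  have e5 : IsCoprime (q ^ Y) (x * z) := by
    apply IsCoprime.pow_left
    apply IsCoprime.mul_right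
    · exact (Prime.coprime_iff_not_dvd hqp).2 hqx
    · exact (Prime.coprime_iff_not_dvd hqp).2 hqz
  have e6 : q ^ Y ∣ E := e5.dvd_of_dvd_mul_left e4
  have e7 : E = 0 := by
    apply Int.eq_zero_of_abs_lt_dvd e6
    have f5 : ((H : ℤ)) ^ 2 < 2 ^ Y := by exact_mod_cast hHY
    have f6 : (2 : ℤ) ^ Y ≤ q ^ Y := by
      apply pow_le_pow_left₀ (by norm_num)
      rw [hq]
      exact_mod_cast hp.two_le
    have k1 : 1 ≤ U b * U d' :=
      Nat.one_le_iff_ne_zero.2 (Nat.mul_ne_zero (by have := h.one_le b hb; omega)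
        (by have := h.one_le d' hd'; omega))
    have k2 : 1 ≤ U b' * U d :=
      Nat.one_le_iff_ne_zero.2 (Nat.mul_ne_zero (by have := h.one_le b' hb'; omega)
        (by have := h.one_le d hd; omega))
    have k3 : U b * U d' ≤ H ^ 2 := by
      rw [sq]
      exact Nat.mul_le_mul (h.le b hb) (h.le d' hd')
    have k4 : U b' * U d ≤ H ^ 2 := by
      rw [sq]
      exact Nat.mul_le_mul (h.le b' hb') (h.le d hd)
    have k1' : (1 : ℤ) ≤ (U b : ℤ) * U d' := by exact_mod_cast k1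
    have k2' : (1 : ℤ) ≤ (U b' : ℤ) * U d := by exact_mod_cast k2
    have k3' : (U b : ℤ) * U d' ≤ (H : ℤ) ^ 2 := by exact_mod_cast k3
    have k4' : (U b' : ℤ) * U d ≤ (H : ℤ) ^ 2 := by exact_mod_cast k4
    rw [hE, abs_lt]
    constructor <;> linarith
  rw [e7, mul_zero] at e1
  rcases mul_eq_zero.1 e1 with h3 | h3
  · linarith
  · exfalso
    have g5 := h.one_le b hb
    have g6 := h.one_le d hd
    rcases mul_eq_zero.1 h3 with h4 | h4
    · have : U b = 0 := by exact_mod_cast h4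
      omega
    · have : U d = 0 := by exact_mod_cast h4
      omega

/-- levels agreeing with `e` on `S` -/
def fib {r : ℕ} (Λ : Finset (Fin r → ℕ)) (S : Finset (Fin r)) (e : Fin r → ℕ) :
    Finset (Fin r → ℕ) := Λ.filter (fun e' => ∀ j ∈ S, e' j = e j)

lemma mem_fib {r : ℕ} {Λ : Finset (Fin r → ℕ)} {S : Finset (Fin r)} {e e' : Fin r → ℕ} :
    e' ∈ fib Λ S e ↔ e' ∈ Λ ∧ ∀ j ∈ S, e' j = e j := by
  unfold fib
  rw [mem_filter]

open Classical in
lemma card_DisP_type (h : Prop1 p r A U H) (hHY : H ^ 2 < 2 ^ Y) (hHY' : H < 2 ^ Y)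
    (F : Finset (Fin r) → ℕ)
    (hF : ∀ S, ∀ a ∈ A, (fib (A.image (lv p r)) S (lv p r a)).card ≤ F S) (M : ℕ)
    (hM : ∀ S S' : Finset (Fin r), S ∪ S' = univ → F S * F S' * F (S ∩ S') ≤ M)
    (T T' : Finset (Fin r)) :
    ((sols A).filter (fun t => t.1 ≠ t.2.2.1 ∧ DisP p r Y t.1 t.2.1 t.2.2.1 t.2.2.2 ∧
      (univ.filter (fun j : Fin r => Pr p Y j t.1 t.2.2.1 t.2.1 t.2.2.2)) = T ∧
      (univ.filter (fun j : Fin r => Pr p Y j t.2.1 t.2.2.2 t.1 t.2.2.1)) = T')).card ≤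
      A.card * M := by
  set Λ := A.image (lv p r) with hΛ
  set D := (sols A).filter (fun t => t.1 ≠ t.2.2.1 ∧ DisP p r Y t.1 t.2.1 t.2.2.1 t.2.2.2 ∧
      (univ.filter (fun j : Fin r => Pr p Y j t.1 t.2.2.1 t.2.1 t.2.2.2)) = T ∧
      (univ.filter (fun j : Fin r => Pr p Y j t.2.1 t.2.2.2 t.1 t.2.2.1)) = T') with hD
  rcases D.eq_empty_or_nonempty with h0 | ⟨⟨a0, b0, c0, d0⟩, ht0⟩
  · rw [h0]
    simp
  rw [hD, mem_filter] at ht0
  have hTT : T'ᶜ ∪ Tᶜ = univ := by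
    rw [← compl_inter, compl_eq_univ_iff]
    obtain ⟨-, -, -, hT, hT'⟩ := ht0
    rw [← hT, ← hT']
    ext j
    simp only [mem_inter, mem_filter, mem_univ, true_and, notMem_empty, iff_false, not_and]
    intro k1 k2
    have := k1.2.1
    have := k2.2.1
    omega
  have hM' := hM _ _ hTT
  set G := A.sigma (fun a => (fib Λ T'ᶜ (lv p r a)).sigma (fun _ =>
    (fib Λ (T'ᶜ ∩ Tᶜ) (lv p r a)).sigma (fun eb => fib Λ Tᶜ eb))) with hG
  have hGc : G.card ≤ A.card * M := by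
    rw [hG, card_sigma]
    have h1 : ∀ a ∈ A, ((fib Λ T'ᶜ (lv p r a)).sigma (fun _ =>
        (fib Λ (T'ᶜ ∩ Tᶜ) (lv p r a)).sigma (fun eb => fib Λ Tᶜ eb))).card ≤ M := by
      intro a ha
      rw [card_sigma]
      have h2 : ∀ x ∈ fib Λ T'ᶜ (lv p r a),
          ((fib Λ (T'ᶜ ∩ Tᶜ) (lv p r a)).sigma (fun eb => fib Λ Tᶜ eb)).card ≤
            F (T'ᶜ ∩ Tᶜ) * F Tᶜ := by
        intro x _
        rw [card_sigma]
        calc ∑ eb ∈ fib Λ (T'ᶜ ∩ Tᶜ) (lv p r a), (fib Λ Tᶜ eb).card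
            ≤ ∑ eb ∈ fib Λ (T'ᶜ ∩ Tᶜ) (lv p r a), F Tᶜ := by
              refine sum_le_sum fun eb heb => ?_
              obtain ⟨b, hb, hbe⟩ := mem_image.1 (mem_fib.1 heb).1
              rw [← hbe]
              exact hF _ b hb
          _ = (fib Λ (T'ᶜ ∩ Tᶜ) (lv p r a)).card * F Tᶜ := by rw [sum_const, smul_eq_mul]
          _ ≤ F (T'ᶜ ∩ Tᶜ) * F Tᶜ := Nat.mul_le_mul_right _ (hF _ a ha)
      calc _ ≤ ∑ x ∈ fib Λ T'ᶜ (lv p r a), F (T'ᶜ ∩ Tᶜ) * F Tᶜ := sum_le_sum h2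
        _ = (fib Λ T'ᶜ (lv p r a)).card * (F (T'ᶜ ∩ Tᶜ) * F Tᶜ) := by
            rw [sum_const, smul_eq_mul]
        _ ≤ F T'ᶜ * (F (T'ᶜ ∩ Tᶜ) * F Tᶜ) := Nat.mul_le_mul_right _ (hF _ a ha)
        _ = F T'ᶜ * F Tᶜ * F (T'ᶜ ∩ Tᶜ) := by ring
        _ ≤ M := hM'
    calc _ ≤ ∑ a ∈ A, M := sum_le_sum h1
      _ = A.card * M := by rw [sum_const, smul_eq_mul]
  refine le_trans ?_ hGc
  refine card_le_card_of_injOn
    (fun t => (⟨t.1, lv p r t.2.2.1, lv p r t.2.1, lv p r t.2.2.2⟩ :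
      Σ _ : ℤ, Σ _ : Fin r → ℕ, Σ _ : Fin r → ℕ, (Fin r → ℕ))) ?_ ?_
  · rintro ⟨a, b, c, d⟩ ht
    rw [mem_coe, hD, mem_filter, mem_sols] at ht
    obtain ⟨⟨⟨ha, hb, hc, hd⟩, he⟩, hac, hDis, hT, hT'⟩ := ht
    simp only at hac hDis hT hT'
    have hcas : ∀ j : Fin r, (pv p j a = pv p j b ∧ pv p j a = pv p j c ∧ pv p j a = pv p j d) ∨
      Pr p Y j a c b d ∨ Pr p Y j b d a c := fun j => hDis.1 j j.2
    have m1 : ∀ j : Fin r, j ∈ T ↔ Pr p Y j a c b d := by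
      intro j
      rw [← hT]
      simp
    have m2 : ∀ j : Fin r, j ∈ T' ↔ Pr p Y j b d a c := by
      intro j
      rw [← hT']
      simp
    rw [mem_coe, hG, mem_sigma, mem_sigma, mem_sigma]
    refine ⟨ha, mem_fib.2 ⟨mem_image_of_mem _ hc, ?_⟩, mem_fib.2 ⟨mem_image_of_mem _ hb, ?_⟩,
      mem_fib.2 ⟨mem_image_of_mem _ hd, ?_⟩⟩
    · intro j hj
      rw [mem_compl, m2] at hj
      show pv p j c = pv p j a
      rcases hcas j with k | k | k
      · exact k.2.1.symm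
      · exact k.1.symm
      · exact absurd k hj
    · intro j hj
      rw [mem_inter, mem_compl, mem_compl, m1, m2] at hj
      show pv p j b = pv p j a
      rcases hcas j with k | k | k
      · exact k.1.symm
      · exact absurd k hj.2
      · exact absurd k hj.1
    · intro j hj
      rw [mem_compl, m1] at hj
      show pv p j d = pv p j b
      rcases hcas j with k | k | k
      · exact k.2.2.symm.trans k.1
      · exact absurd k hj
      · exact k.1.symm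
  · rintro ⟨a, b, c, d⟩ ht ⟨a', b', c', d'⟩ ht' heq
    rw [mem_coe, hD, mem_filter, mem_sols] at ht ht'
    simp only [Sigma.mk.injEq, heq_eq_eq] at heq
    obtain ⟨rfl, e1, e2, e3⟩ := heq
    obtain ⟨⟨⟨ha, hb, hc, hd⟩, he⟩, hac, hDis, hT, hT'⟩ := ht
    obtain ⟨⟨⟨-, hb', hc', hd'⟩, he'⟩, hac', hDis', hT2, hT2'⟩ := ht'
    simp only at hac hDis hT hT' hac' hDis' hT2 hT2'
    obtain ⟨-, ⟨j, hj, k1⟩, ⟨j', hj', k2⟩⟩ := hDis
    have k1' : Pr p Y j a c' b' d' := by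
      have h3 : (⟨j, hj⟩ : Fin r) ∈ T := by
        rw [← hT]
        simpa using k1
      rw [← hT2] at h3
      simpa using h3
    have k2' : Pr p Y j' b' d' a c' := by
      have h3 : (⟨j', hj'⟩ : Fin r) ∈ T' := by
        rw [← hT']
        simpa using k2
      rw [← hT2'] at h3
      simpa using h3
    have f1 : c = c' := unique_cong h hHY' hc hc' e1 hj k1.1 k1.2.2.2 k1'.2.2.2
    subst f1
    have g1 : pv p j' b = pv p j' b' := ((lv_eq_iff p r b b').1 e2) j' hj'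
    have f2 : b * d' = b' * d := cross h hHY hb hb' hd hd' e2 e3 hj' k2.1 k2.2.2.2 (by
      rw [g1]
      exact k2'.2.2.2)
    have f3 : d = a + b - c := by linarith
    have f4 : d' = a + b' - c := by linarith
    rw [f3, f4] at f2
    have f5 : (a - c) * (b - b') = 0 := by linarith
    have f6 : b = b' := by
      rcases mul_eq_zero.1 f5 with h3 | h3
      · exact absurd (by linarith) hac
      · linarith
    subst f6
    have f7 : d = d' := by linarith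
    rw [f7]

open Classical in
lemma card_DisP (h : Prop1 p r A U H) (hHY : H ^ 2 < 2 ^ Y) (hHY' : H < 2 ^ Y)
    (F : Finset (Fin r) → ℕ)
    (hF : ∀ S, ∀ a ∈ A, (fib (A.image (lv p r)) S (lv p r a)).card ≤ F S) (M : ℕ)
    (hM : ∀ S S' : Finset (Fin r), S ∪ S' = univ → F S * F S' * F (S ∩ S') ≤ M) :
    ((sols A).filter (fun t => t.1 ≠ t.2.2.1 ∧ DisP p r Y t.1 t.2.1 t.2.2.1 t.2.2.2)).card ≤
      4 ^ r * (A.card * M) := by
  set S : Finset (Fin r) × Finset (Fin r) → Finset (ℤ × ℤ × ℤ × ℤ) := fun x =>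
    (sols A).filter (fun t => t.1 ≠ t.2.2.1 ∧ DisP p r Y t.1 t.2.1 t.2.2.1 t.2.2.2 ∧
      (univ.filter (fun j : Fin r => Pr p Y j t.1 t.2.2.1 t.2.1 t.2.2.2)) = x.1 ∧
      (univ.filter (fun j : Fin r => Pr p Y j t.2.1 t.2.2.2 t.1 t.2.2.1)) = x.2) with hS
  have h1 : (sols A).filter (fun t => t.1 ≠ t.2.2.1 ∧ DisP p r Y t.1 t.2.1 t.2.2.1 t.2.2.2) ⊆
      (univ : Finset (Finset (Fin r) × Finset (Fin r))).biUnion S := by
    rintro ⟨a, b, c, d⟩ ht
    rw [mem_filter] at ht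
    obtain ⟨ht, hac, hDis⟩ := ht
    rw [mem_biUnion]
    refine ⟨((univ.filter (fun j : Fin r => Pr p Y j a c b d)),
      (univ.filter (fun j : Fin r => Pr p Y j b d a c))), mem_univ _, ?_⟩
    rw [hS, mem_filter]
    exact ⟨ht, hac, hDis, rfl, rfl⟩
  calc _ ≤ ((univ : Finset (Finset (Fin r) × Finset (Fin r))).biUnion S).card := card_le_card h1
    _ ≤ (univ : Finset (Finset (Fin r) × Finset (Fin r))).card * (A.card * M) :=
        card_biUnion_le_card_mul _ _ _ fun x _ => card_DisP_type h hHY hHY' F hF M hM x.1 x.2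
    _ = 4 ^ r * (A.card * M) := by
        rw [card_univ, Fintype.card_prod, Fintype.card_finset, Fintype.card_fin, ← mul_pow]
        norm_num

end

end Pool.Agent.Lib.CSid
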