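import Pool.Agent.Lib.CSid.Select

/-!
# Levels of almost equal size
-/

set_option autoImplicit false

namespace Pool.Agent.Lib.CSid

open Finset

/-- pigeonhole: the most popular value -/
lemma exists_popular {α β : Type*} [DecidableEq β] (A : Finset α) (f : α → β) (S : Finset β)
    (hS : ∀ a ∈ A, f a ∈ S) (hA : A.Nonempty) :
    ∃ b ∈ S, A.card ≤ S.card * (A.filter (fun a => f a = b)).card := by
  have hSne : S.Nonempty := by
    obtain ⟨a, ha⟩ := hA
    exact ⟨f a, hS a ha⟩
  obtain ⟨b, hb, hmax⟩ := exists_max_image S (fun b => (A.filter (fun a => f a = b)).card) hSne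
  refine ⟨b, hb, ?_⟩
  rw [card_eq_sum_card_fiberwise hS, ← smul_eq_mul, ← sum_const]
  exact sum_le_sum fun c hc => hmax c hc

theorem regular (v : ℕ → ℤ → ℕ) (r : ℕ) (A : Finset ℤ) :
    ∃ A' ⊆ A, ∃ k : ℕ, 1 ≤ k ∧
      (∀ a ∈ A', k ≤ (cls v A' r a).card ∧ (cls v A' r a).card < 2 * k) ∧
      A.card ≤ (Nat.log 2 A.card + 1) * A'.card := by
  rcases A.eq_empty_or_nonempty with rfl | hA
  · exact ⟨∅, Subset.refl _, 1, le_rfl, by simp, by simp⟩
  obtain ⟨l, hl, hc⟩ := exists_popular A (fun a => Nat.log 2 (cls v A r a).card)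
    (range (Nat.log 2 A.card + 1)) (by
      intro a _
      rw [mem_range, Nat.lt_succ_iff]
      exact Nat.log_mono_right (card_le_card (filter_subset _ _))) hA
  rw [card_range] at hc
  set A' := A.filter (fun a => Nat.log 2 (cls v A r a).card = l) with hA'
  refine ⟨A', filter_subset _ _, 2 ^ l, Nat.one_le_two_pow, ?_, hc⟩
  intro a ha
  have hcl : cls v A' r a = cls v A r a := by
    apply Subset.antisymm (filter_subset_filter _ (filter_subset _ _))
    intro b hb
    have hb : b ∈ A ∧ pref v r b = pref v r a := mem_filter.1 hb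
    refine mem_filter.2 ⟨?_, hb.2⟩
    rw [mem_filter]
    refine ⟨hb.1, ?_⟩
    rw [cls_congr v A r hb.2]
    exact (mem_filter.1 ha).2
  rw [hcl]
  have h1 := (mem_filter.1 ha).2
  have h2 : (cls v A r a).card ≠ 0 := by
    rw [← Nat.pos_iff_ne_zero, card_pos]
    exact ⟨a, mem_filter.2 ⟨(mem_filter.1 ha).1, rfl⟩⟩
  constructor
  · rw [← h1]
    exact Nat.pow_log_le_self 2 h2
  · rw [← h1, mul_comm, ← pow_succ]
    exact Nat.lt_pow_succ_log_self (by norm_num) _

end Pool.Agent.Lib.CSid
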