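import Pool.Agent.Lib.CSid.Mult
import Pool.Agent.Lib.CSid.Regular

/-!
# Restricting the leading digits

After losing a factor `6` for each prime one may assume that `x + y` and `x + y - z` have almost the same valuation
as `x`, `y`, `z` if these have equal valuations.
-/

set_option autoImplicit false

namespace Pool.Agent.Lib.CSid

open Finset

/-- sums of elements with the same valuation keep this valuation (almost) -/
def Dig (q : ℤ) (v : ℤ → ℕ) (A : Finset ℤ) : Prop :=
  ∀ x ∈ A, ∀ y ∈ A, ∀ z ∈ A, v x = v y → v x = v z →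
    ¬ q ^ (v x + 2) ∣ x + y ∧ ¬ q ^ (v x + 2) ∣ x + y - z

lemma Dig.subset {q : ℤ} {v : ℤ → ℕ} {A B : Finset ℤ} (h : Dig q v A) (hB : B ⊆ A) : Dig q v B :=
  fun x hx y hy z hz => h x (hB hx) y (hB hy) z (hB hz)

lemma exists_digit_two (v : ℤ → ℕ) (A : Finset ℤ) (h1 : ∀ a ∈ A, (2 : ℤ) ^ v a ∣ a)
    (h2 : ∀ a ∈ A, ¬ (2 : ℤ) ^ (v a + 1) ∣ a) :
    ∃ A' ⊆ A, Dig 2 v A' ∧ A.card ≤ 6 * A'.card := by
  rcases A.eq_empty_or_nonempty with rfl | hne
  · exact ⟨∅, Subset.refl _, by intro x hx; simp at hx, by simp⟩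
  have hy : ∀ a, ∃ y : ℤ, a ∈ A → a = 2 ^ v a * y ∧ y % 2 = 1 := by
    intro a
    by_cases ha : a ∈ A
    · obtain ⟨y, hy⟩ := h1 a ha
      refine ⟨y, fun _ => ⟨hy, ?_⟩⟩
      by_contra hcon
      apply h2 a ha
      have h3 : (2 : ℤ) ∣ y := by omega
      obtain ⟨z, hz⟩ := h3
      rw [hz] at hy
      exact ⟨z, by rw [pow_succ]; linarith⟩
    · exact ⟨0, fun h => absurd h ha⟩
  choose y hy using hy
  obtain ⟨b, hb, hc⟩ := exists_popular A (fun a => (y a % 4).toNat) (range 4) (by
    intro a _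
    rw [mem_range]
    omega) hne
  rw [card_range] at hc
  refine ⟨A.filter (fun a => (y a % 4).toNat = b), filter_subset _ _, ?_, by omega⟩
  intro x hx y' hy' z hz e1 e2
  rw [mem_filter] at hx hy' hz
  obtain ⟨hxA, hxb⟩ := hx
  obtain ⟨hyA, hyb⟩ := hy'
  obtain ⟨hzA, hzb⟩ := hz
  obtain ⟨g1, g1'⟩ := hy x hxA
  obtain ⟨g2, g2'⟩ := hy y' hyA
  obtain ⟨g3, g3'⟩ := hy z hzA
  rw [← e1] at g2
  rw [← e2] at g3
  have hp : (2 : ℤ) ^ v x ≠ 0 := by positivity
  constructor
  · intro hd
    have h3 : (2 : ℤ) ^ v x * 4 ∣ 2 ^ v x * (y x + y y') := by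
      have : (2 : ℤ) ^ v x * (y x + y y') = x + y' := by
        rw [mul_add, ← g1, ← g2]
      rw [this]
      rw [pow_add] at hd
      exact hd
    have h4 := (mul_dvd_mul_iff_left hp).1 h3
    omega
  · intro hd
    have h3 : (2 : ℤ) ^ v x * 4 ∣ 2 ^ v x * (y x + y y' - y z) := by
      have : (2 : ℤ) ^ v x * (y x + y y' - y z) = x + y' - z := by
        rw [mul_sub, mul_add, ← g1, ← g2, ← g3]
      rw [this]
      rw [pow_add] at hd
      exact hd
    have h4 := (mul_dvd_mul_iff_left hp).1 h3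
    obtain ⟨c, hc'⟩ := h4
    have k1 : y x % 4 = (b : ℤ) := by omega
    have k2 : y y' % 4 = (b : ℤ) := by omega
    have k3 : y z % 4 = (b : ℤ) := by omega
    have k4 : (y x + y y' - y z) % 2 = 1 := by omega
    omega

/-- the middle interval -/
def midI (q : ℕ) : Finset (ZMod q) :=
  if h : q = 0 then ∅ else
    haveI : NeZero q := ⟨h⟩
    univ.filter (fun c : ZMod q => q < 6 * c.val ∧ 3 * c.val ≤ q)

lemma exists_digit_odd (q : ℕ) (hq : q.Prime) (hq2 : q ≠ 2) (v : ℤ → ℕ) (A : Finset ℤ)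
    (h1 : ∀ a ∈ A, (q : ℤ) ^ v a ∣ a) (h2 : ∀ a ∈ A, ¬ (q : ℤ) ^ (v a + 1) ∣ a) :
    ∃ A' ⊆ A, Dig q v A' ∧ A.card ≤ 6 * A'.card := by
  classical
  have : Fact q.Prime := ⟨hq⟩
  have hq3 : 3 ≤ q := by
    have := hq.two_le
    omega
  have hodd : q % 2 = 1 := by
    rcases hq.eq_two_or_odd with h | h
    · exact absurd h hq2
    · exact h
  have hy : ∀ a, ∃ y : ℤ, a ∈ A → a = (q : ℤ) ^ v a * y ∧ (y : ZMod q) ≠ 0 := by
    intro a
    by_cases ha : a ∈ A
    · obtain ⟨y, hy⟩ := h1 a ha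
      refine ⟨y, fun _ => ⟨hy, ?_⟩⟩
      intro hcon
      apply h2 a ha
      obtain ⟨z, hz⟩ := (ZMod.intCast_zmod_eq_zero_iff_dvd y q).1 hcon
      rw [hz] at hy
      exact ⟨z, by rw [pow_succ]; linarith⟩
    · exact ⟨0, fun h => absurd h ha⟩
  choose y hy using hy
  set I : Finset (ZMod q) := univ.filter (fun c : ZMod q => q < 6 * c.val ∧ 3 * c.val ≤ q) with hI
  have hI0 : (0 : ZMod q) ∉ I := by
    rw [hI, mem_filter]
    simp
  have hIc : q - 1 ≤ 6 * I.card := by
    have h3 : (Ioc (q / 6) (q / 3)).card ≤ I.card := by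
      refine card_le_card_of_injOn (fun n : ℕ => (n : ZMod q)) ?_ ?_
      · intro n hn
        rw [mem_coe, mem_Ioc] at hn
        rw [mem_coe, hI, mem_filter]
        have hnq : n < q := by omega
        rw [ZMod.val_natCast_of_lt hnq]
        refine ⟨mem_univ _, ?_, ?_⟩ <;> omega
      · intro n hn n' hn' h
        rw [mem_coe, mem_Ioc] at hn hn'
        have hnq : n < q := by omega
        have hnq' : n' < q := by omega
        have := congrArg ZMod.val h
        simp only at this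
        rwa [ZMod.val_natCast_of_lt hnq, ZMod.val_natCast_of_lt hnq'] at this
    rw [Nat.card_Ioc] at h3
    have h5 : q % 6 = 1 ∨ q % 6 = 3 ∨ q % 6 = 5 := by omega
    rcases h5 with h5 | h5 | h5 <;> omega
  set At : ZMod q → Finset ℤ := fun t => A.filter (fun a => t * (y a : ZMod q) ∈ I) with hAt
  have hsum : ∑ t ∈ (univ : Finset (ZMod q)).erase 0, (At t).card = A.card * I.card := by
    rw [hAt]
    simp only [card_filter]
    rw [sum_comm, ← smul_eq_mul, ← sum_const]
    refine sum_congr rfl fun a ha => ?_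
    rw [← card_filter]
    have hya := (hy a ha).2
    apply card_bij (fun t _ => t * (y a : ZMod q))
    · intro t ht
      exact (mem_filter.1 ht).2
    · intro t _ t' _ h
      exact mul_right_cancel₀ hya h
    · intro c hc
      refine ⟨c * (y a : ZMod q)⁻¹, ?_, ?_⟩
      · have h3 : c * (y a : ZMod q)⁻¹ * (y a : ZMod q) = c := by
          rw [mul_assoc, inv_mul_cancel₀ hya, mul_one]
        rw [mem_filter, mem_erase]
        refine ⟨⟨?_, mem_univ _⟩, by rw [h3]; exact hc⟩
        intro h0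
        rw [h0, zero_mul] at h3
        rw [← h3] at hc
        exact hI0 hc
      · rw [mul_assoc, inv_mul_cancel₀ hya, mul_one]
  obtain ⟨t, ht, htc⟩ : ∃ t ∈ (univ : Finset (ZMod q)).erase 0, A.card ≤ 6 * (At t).card := by
    by_contra hcon
    push Not at hcon
    have hne : ((univ : Finset (ZMod q)).erase 0).Nonempty := ⟨1, by simp⟩
    have h3 : ∑ t ∈ (univ : Finset (ZMod q)).erase 0, 6 * (At t).card <
        ∑ t ∈ (univ : Finset (ZMod q)).erase 0, A.card := sum_lt_sum_of_nonempty hne hcon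
    rw [← mul_sum, hsum, sum_const, card_erase_of_mem (mem_univ _), card_univ, ZMod.card,
      smul_eq_mul] at h3
    have h4 : A.card * (q - 1) ≤ A.card * (6 * I.card) := Nat.mul_le_mul_left _ hIc
    nlinarith
  refine ⟨At t, filter_subset _ _, ?_, htc⟩
  intro x hx x' hx' z hz e1 e2
  rw [hAt, mem_filter] at hx hx' hz
  obtain ⟨hxA, hxb⟩ := hx
  obtain ⟨hyA, hyb⟩ := hx'
  obtain ⟨hzA, hzb⟩ := hz
  obtain ⟨g1, g1'⟩ := hy x hxA
  obtain ⟨g2, g2'⟩ := hy x' hyA
  obtain ⟨g3, g3'⟩ := hy z hzA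
  rw [← e1] at g2
  rw [← e2] at g3
  rw [hI, mem_filter] at hxb hyb hzb
  have hp : (q : ℤ) ^ v x ≠ 0 := pow_ne_zero _ (by exact_mod_cast hq.ne_zero)
  have hval : (t * (y x : ZMod q) + t * (y x' : ZMod q)).val =
      (t * (y x : ZMod q)).val + (t * (y x' : ZMod q)).val := by
    apply ZMod.val_add_of_lt
    omega
  constructor
  · intro hd
    have h3 : (q : ℤ) ^ v x * q ∣ (q : ℤ) ^ v x * (y x + y x') := by
      have : (q : ℤ) ^ v x * (y x + y x') = x + x' := by
        rw [mul_add, ← g1, ← g2]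
      rw [this, ← pow_succ]
      exact (pow_dvd_pow _ (by omega)).trans hd
    have h4 := (mul_dvd_mul_iff_left hp).1 h3
    have h5 := (ZMod.intCast_zmod_eq_zero_iff_dvd _ q).2 h4
    push_cast at h5
    have h6 : t * (y x : ZMod q) + t * (y x' : ZMod q) = 0 := by
      rw [← mul_add, h5, mul_zero]
    rw [h6, ZMod.val_zero] at hval
    omega
  · intro hd
    have h3 : (q : ℤ) ^ v x * q ∣ (q : ℤ) ^ v x * (y x + y x' - y z) := by
      have : (q : ℤ) ^ v x * (y x + y x' - y z) = x + x' - z := by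
        rw [mul_sub, mul_add, ← g1, ← g2, ← g3]
      rw [this, ← pow_succ]
      exact (pow_dvd_pow _ (by omega)).trans hd
    have h4 := (mul_dvd_mul_iff_left hp).1 h3
    have h5 := (ZMod.intCast_zmod_eq_zero_iff_dvd _ q).2 h4
    push_cast at h5
    have h6 : t * (y x : ZMod q) + t * (y x' : ZMod q) = t * (y z : ZMod q) := by
      rw [← mul_add]
      congr 1
      exact sub_eq_zero.1 h5
    rw [h6] at hval
    omega

theorem exists_digits {p : ℕ → ℕ} {r : ℕ} {A : Finset ℤ} {U : ℤ → ℕ} {H : ℕ}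
    (h : Prop1 p r A U H) : ∃ A' ⊆ A, (∀ j < r, Dig (p j) (pv p j) A') ∧
      A.card ≤ 6 ^ r * A'.card := by
  have key : ∀ n ≤ r, ∃ A' ⊆ A, (∀ j < n, Dig (p j) (pv p j) A') ∧ A.card ≤ 6 ^ n * A'.card := by
    intro n
    induction n with
    | zero => exact fun _ => ⟨A, Subset.refl _, fun j hj => by omega, by simp⟩
    | succ n ih =>
      intro hn
      obtain ⟨A', hA', hD, hc⟩ := ih (by omega)
      have hp := h.prime n (by omega)
      have hv := (h.subset hA').val n (by omega)
      obtain ⟨A'', hA'', hD', hc'⟩ : ∃ A'' ⊆ A', Dig (p n) (pv p n) A'' ∧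
          A'.card ≤ 6 * A''.card := by
        by_cases h2 : p n = 2
        · have := exists_digit_two (pv p n) A' (fun a ha => by
            have := (hv a ha).1
            simp only [h2] at this
            exact_mod_cast this) (fun a ha => by
            have := (hv a ha).2
            simp only [h2] at this
            exact_mod_cast this)
          rw [h2]
          exact_mod_cast this
        · exact exists_digit_odd (p n) hp h2 (pv p n) A' (fun a ha => (hv a ha).1)
            (fun a ha => (hv a ha).2)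
      refine ⟨A'', hA''.trans hA', ?_, ?_⟩
      · intro j hj
        rcases Nat.lt_or_ge j n with h3 | h3
        · exact (hD j h3).subset hA''
        · have : j = n := by omega
          rw [this]
          exact hD'
      · calc A.card ≤ 6 ^ n * A'.card := hc
          _ ≤ 6 ^ n * (6 * A''.card) := Nat.mul_le_mul_left _ hc'
          _ = 6 ^ (n + 1) * A''.card := by ring
  exact key r le_rfl

end Pool.Agent.Lib.CSid
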