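import Mathlib

/-!
# Additive energy and valuations

Two inequalities for the additive energy of a finite set of integers split according to the valuation at a number `q`:
`en_chang` (an `L⁴` square function inequality in counting form) and `en_sep` (separated valuations).
-/

set_option autoImplicit false

namespace Pool.Agent.Lib.CSid

open Finset

/-- number of pairs in `P` with difference `x` -/
def rp (P : Finset (ℤ × ℤ)) (x : ℤ) : ℕ := (P.filter (fun s => s.1 - s.2 = x)).card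

/-- number of coincidences between differences of pairs in `P` and in `Q` -/
def ip (P Q : Finset (ℤ × ℤ)) : ℕ :=
  ((P ×ˢ Q).filter (fun q => q.1.1 - q.1.2 = q.2.1 - q.2.2)).card

/-- additive energy -/
def en (A : Finset ℤ) : ℕ := ip (A ×ˢ A) (A ×ˢ A)

lemma ip_eq_sum (P Q : Finset (ℤ × ℤ)) : ip P Q = ∑ s ∈ P, rp Q (s.1 - s.2) := by
  unfold ip rp
  rw [card_filter, sum_product]
  refine sum_congr rfl fun s _ => ?_
  rw [card_filter]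
  refine sum_congr rfl fun t _ => ?_
  by_cases h : s.1 - s.2 = t.1 - t.2
  · rw [if_pos h, if_pos h.symm]
  · rw [if_neg h, if_neg (fun h' => h h'.symm)]

lemma ip_eq_sum_D (P Q : Finset (ℤ × ℤ)) (D : Finset ℤ) (hD : ∀ s ∈ P, s.1 - s.2 ∈ D) :
    ip P Q = ∑ x ∈ D, rp P x * rp Q x := by
  rw [ip_eq_sum, ← sum_fiberwise_of_maps_to hD]
  refine sum_congr rfl fun x _ => ?_
  rw [sum_congr rfl (g := fun _ => rp Q x)]
  · rw [sum_const, smul_eq_mul]; rfl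
  · intro s hs
    rw [mem_filter] at hs
    rw [hs.2]

lemma ip_mono {P P' Q Q' : Finset (ℤ × ℤ)} (h : P ⊆ P') (h' : Q ⊆ Q') : ip P Q ≤ ip P' Q' :=
  card_le_card (filter_subset_filter _ (product_subset_product h h'))

lemma ip_sq_le (P Q : Finset (ℤ × ℤ)) : ((ip P Q : ℕ) : ℝ) ^ 2 ≤ (ip P P : ℝ) * (ip Q Q : ℝ) := by
  set D : Finset ℤ := (P ∪ Q).image (fun s => s.1 - s.2) with hD
  have h1 : ∀ s ∈ P, s.1 - s.2 ∈ D := fun s hs => mem_image.2 ⟨s, mem_union_left _ hs, rfl⟩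
  have h2 : ∀ s ∈ Q, s.1 - s.2 ∈ D := fun s hs => mem_image.2 ⟨s, mem_union_right _ hs, rfl⟩
  rw [ip_eq_sum_D P Q D h1, ip_eq_sum_D P P D h1, ip_eq_sum_D Q Q D h2]
  push_cast
  have := sum_mul_sq_le_sq_mul_sq D (fun x => (rp P x : ℝ)) (fun x => (rp Q x : ℝ))
  simpa only [sq] using this

lemma ip_three {P P1 P2 P3 : Finset (ℤ × ℤ)} (h : P ⊆ P1 ∪ P2 ∪ P3) :
    ip P P ≤ 2 * ip P1 P1 + 4 * ip P2 P2 + 4 * ip P3 P3 := by
  set D : Finset ℤ := (P ∪ P1 ∪ P2 ∪ P3).image (fun s => s.1 - s.2) with hD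
  have h0 : ∀ s ∈ P, s.1 - s.2 ∈ D := fun s hs => mem_image.2 ⟨s, by simp [hs], rfl⟩
  have h1 : ∀ s ∈ P1, s.1 - s.2 ∈ D := fun s hs => mem_image.2 ⟨s, by simp [hs], rfl⟩
  have h2 : ∀ s ∈ P2, s.1 - s.2 ∈ D := fun s hs => mem_image.2 ⟨s, by simp [hs], rfl⟩
  have h3 : ∀ s ∈ P3, s.1 - s.2 ∈ D := fun s hs => mem_image.2 ⟨s, by simp [hs], rfl⟩
  rw [ip_eq_sum_D P P D h0, ip_eq_sum_D P1 P1 D h1, ip_eq_sum_D P2 P2 D h2,
    ip_eq_sum_D P3 P3 D h3, mul_sum, mul_sum, mul_sum, ← sum_add_distrib, ← sum_add_distrib]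
  refine sum_le_sum fun x _ => ?_
  have hx : rp P x ≤ rp P1 x + rp P2 x + rp P3 x := by
    unfold rp
    calc (P.filter (fun s => s.1 - s.2 = x)).card
        ≤ ((P1.filter (fun s => s.1 - s.2 = x) ∪ P2.filter (fun s => s.1 - s.2 = x)) ∪
            P3.filter (fun s => s.1 - s.2 = x)).card := by
          apply card_le_card
          rw [← filter_union, ← filter_union]
          exact filter_subset_filter _ h
      _ ≤ _ := (card_union_le _ _).trans (by gcongr; exact card_union_le _ _)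
  have h5 : rp P x * rp P x ≤ (rp P1 x + rp P2 x + rp P3 x) * (rp P1 x + rp P2 x + rp P3 x) :=
    Nat.mul_le_mul hx hx
  have h6 : (rp P1 x + rp P2 x + rp P3 x) * (rp P1 x + rp P2 x + rp P3 x) ≤
      2 * (rp P1 x * rp P1 x) + 4 * (rp P2 x * rp P2 x) + 4 * (rp P3 x * rp P3 x) := by
    zify
    nlinarith [sq_nonneg ((rp P1 x : ℤ) - rp P2 x - rp P3 x), sq_nonneg ((rp P2 x : ℤ) - rp P3 x)]
  exact h5.trans h6

/-- trivial bound for the energy -/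
lemma en_le_cube (A : Finset ℤ) : en A ≤ A.card ^ 3 := by
  unfold en
  rw [ip_eq_sum]
  have h : ∀ s ∈ A ×ˢ A, rp (A ×ˢ A) (s.1 - s.2) ≤ A.card := by
    intro s _
    unfold rp
    refine card_le_card_of_injOn (fun t => t.1) ?_ ?_
    · intro t ht
      rw [mem_coe, mem_filter, mem_product] at ht
      exact ht.1.1
    · intro t ht t' ht' hh
      rw [mem_coe, mem_filter] at ht ht'
      have h1 := ht.2
      have h2 := ht'.2
      simp only at hh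
      rw [← h2, hh] at h1
      exact Prod.ext hh (by linarith)
  calc ∑ s ∈ A ×ˢ A, rp (A ×ˢ A) (s.1 - s.2) ≤ ∑ s ∈ A ×ˢ A, A.card := sum_le_sum h
    _ = A.card ^ 3 := by rw [sum_const, card_product, smul_eq_mul]; ring

lemma sq_le_en (A : Finset ℤ) : A.card ^ 2 ≤ en A := by
  unfold en ip
  rw [sq, ← card_product]
  refine card_le_card_of_injOn (fun s => (s, s)) ?_ ?_
  · intro s hs
    rw [mem_coe, mem_filter, mem_product]
    exact ⟨⟨hs, hs⟩, rfl⟩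
  · intro s _ s' _ h
    exact (Prod.ext_iff.1 h).1

section val

variable (A : Finset ℤ) (v : ℤ → ℕ) (q : ℤ)

/-- pairs with the same valuation whose difference is divisible by a higher power -/
def rho (Y : ℕ) : Finset (ℤ × ℤ) :=
  (A ×ˢ A).filter (fun s => v s.1 = v s.2 ∧ q ^ (v s.1 + Y) ∣ s.1 - s.2)

variable {A v q}

lemma not_lt_of_val (h1 : ∀ a ∈ A, q ^ v a ∣ a) (h2 : ∀ a ∈ A, ¬ q ^ (v a + 1) ∣ a)
    {a b a' b' : ℤ} (ha : a ∈ A) (hb : b ∈ A) (ha' : a' ∈ A) (hb' : b' ∈ A)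
    (h : a - b = a' - b') (hab : v a < v b) (hab' : v a' < v b') : ¬ v a < v a' := by
  intro hlt
  apply h2 a ha
  have e1 : q ^ (v a + 1) ∣ b := (pow_dvd_pow q (by omega)).trans (h1 b hb)
  have e2 : q ^ (v a + 1) ∣ a' := (pow_dvd_pow q (by omega)).trans (h1 a' ha')
  have e3 : q ^ (v a + 1) ∣ b' := (pow_dvd_pow q (by omega)).trans (h1 b' hb')
  have e4 : b + (a' - b') = a := by linarith
  have e5 := dvd_add e1 (dvd_sub e2 e3)
  rwa [e4] at e5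

lemma val_eq (h1 : ∀ a ∈ A, q ^ v a ∣ a) (h2 : ∀ a ∈ A, ¬ q ^ (v a + 1) ∣ a)
    {a b a' b' : ℤ} (ha : a ∈ A) (hb : b ∈ A) (ha' : a' ∈ A) (hb' : b' ∈ A)
    (h : a - b = a' - b') (hab : v a < v b) (hab' : v a' < v b') : v a = v a' := by
  have e1 := not_lt_of_val h1 h2 ha hb ha' hb' h hab hab'
  have e2 := not_lt_of_val h1 h2 ha' hb' ha hb h.symm hab' hab
  omega

lemma ip_lt_lt (h1 : ∀ a ∈ A, q ^ v a ∣ a) (h2 : ∀ a ∈ A, ¬ q ^ (v a + 1) ∣ a) {Y : ℕ}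
    (hY : ∀ a ∈ A, ∀ b ∈ A, v a < v b → v a + Y ≤ v b) :
    ip ((A ×ˢ A).filter (fun s => v s.1 < v s.2)) ((A ×ˢ A).filter (fun s => v s.1 < v s.2)) ≤
      ip (rho A v q Y) (A ×ˢ A) := by
  unfold ip
  refine card_le_card_of_injOn (fun s => ((s.1.1, s.2.1), (s.1.2, s.2.2))) ?_ ?_
  · rintro ⟨⟨a, b⟩, ⟨a', b'⟩⟩ hs
    simp only [mem_coe, mem_filter, mem_product, rho] at hs ⊢
    obtain ⟨⟨⟨⟨ha, hb⟩, hab⟩, ⟨⟨ha', hb'⟩, hab'⟩⟩, he⟩ := hs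
    have hv := val_eq h1 h2 ha hb ha' hb' he hab hab'
    have e1 : q ^ (v a + Y) ∣ b := (pow_dvd_pow q (hY a ha b hb hab)).trans (h1 b hb)
    have e2 : q ^ (v a + Y) ∣ b' := by
      rw [hv]; exact (pow_dvd_pow q (hY a' ha' b' hb' hab')).trans (h1 b' hb')
    have e3 : a - a' = b - b' := by linarith
    refine ⟨⟨⟨⟨ha, ha'⟩, hv, ?_⟩, hb, hb'⟩, e3⟩
    rw [e3]
    exact dvd_sub e1 e2
  · rintro ⟨⟨a, b⟩, ⟨a', b'⟩⟩ _ ⟨⟨c, d⟩, ⟨c', d'⟩⟩ _ h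
    simp only [Prod.mk.injEq] at h ⊢
    tauto

lemma ip_gt_gt (h1 : ∀ a ∈ A, q ^ v a ∣ a) (h2 : ∀ a ∈ A, ¬ q ^ (v a + 1) ∣ a) {Y : ℕ}
    (hY : ∀ a ∈ A, ∀ b ∈ A, v a < v b → v a + Y ≤ v b) :
    ip ((A ×ˢ A).filter (fun s => v s.2 < v s.1)) ((A ×ˢ A).filter (fun s => v s.2 < v s.1)) ≤
      ip (rho A v q Y) (A ×ˢ A) := by
  refine le_trans ?_ (ip_lt_lt h1 h2 hY)
  unfold ip
  refine card_le_card_of_injOn (fun s => ((s.1.2, s.1.1), (s.2.2, s.2.1))) ?_ ?_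
  · rintro ⟨⟨a, b⟩, ⟨a', b'⟩⟩ hs
    simp only [mem_coe, mem_filter, mem_product] at hs ⊢
    obtain ⟨⟨⟨⟨ha, hb⟩, hab⟩, ⟨⟨ha', hb'⟩, hab'⟩⟩, he⟩ := hs
    exact ⟨⟨⟨⟨hb, ha⟩, hab⟩, ⟨hb', ha'⟩, hab'⟩, by linarith⟩
  · rintro ⟨⟨a, b⟩, ⟨a', b'⟩⟩ _ ⟨⟨c, d⟩, ⟨c', d'⟩⟩ _ h
    simp only [Prod.mk.injEq] at h ⊢
    tauto

lemma ip_rho_le (Y κ : ℕ)
    (hκ : ∀ a ∈ A, (A.filter (fun a' => v a = v a' ∧ q ^ (v a + Y) ∣ a - a')).card ≤ κ) :
    ip (rho A v q Y) (A ×ˢ A) ≤ A.card ^ 2 * κ := by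
  have e1 : (rho A v q Y).card ≤ A.card * κ := by
    unfold rho
    rw [card_filter, sum_product]
    calc ∑ a ∈ A, ∑ a' ∈ A, (if v a = v a' ∧ q ^ (v a + Y) ∣ a - a' then 1 else 0)
        ≤ ∑ a ∈ A, κ := by
          refine sum_le_sum fun a ha => ?_
          rw [← card_filter]
          exact hκ a ha
      _ = A.card * κ := by rw [sum_const, smul_eq_mul]
  have e2 : ip (rho A v q Y) (A ×ˢ A) ≤ (rho A v q Y).card * A.card := by
    rw [← card_product]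
    unfold ip
    refine card_le_card_of_injOn (fun s => (s.1, s.2.1)) ?_ ?_
    · rintro ⟨s, ⟨b, b'⟩⟩ hs
      simp only [mem_coe, mem_filter, mem_product] at hs ⊢
      exact ⟨hs.1.1, hs.1.2.1⟩
    · rintro ⟨s, ⟨b, b'⟩⟩ hs ⟨t, ⟨c, c'⟩⟩ ht h
      simp only [mem_coe, mem_filter, Prod.mk.injEq] at hs ht h ⊢
      obtain ⟨rfl, rfl⟩ := h
      refine ⟨rfl, rfl, ?_⟩
      linarith [hs.2, ht.2]
  calc ip (rho A v q Y) (A ×ˢ A) ≤ (rho A v q Y).card * A.card := e2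
    _ ≤ (A.card * κ) * A.card := Nat.mul_le_mul_right _ e1
    _ = A.card ^ 2 * κ := by ring

lemma ip_all_le (h1 : ∀ a ∈ A, q ^ v a ∣ a) (h2 : ∀ a ∈ A, ¬ q ^ (v a + 1) ∣ a) {Y : ℕ}
    (hY : ∀ a ∈ A, ∀ b ∈ A, v a < v b → v a + Y ≤ v b) :
    en A ≤ 2 * ip ((A ×ˢ A).filter (fun s => v s.1 = v s.2))
      ((A ×ˢ A).filter (fun s => v s.1 = v s.2)) + 8 * ip (rho A v q Y) (A ×ˢ A) := by
  have hsub : A ×ˢ A ⊆ (A ×ˢ A).filter (fun s => v s.1 = v s.2) ∪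
      (A ×ˢ A).filter (fun s => v s.1 < v s.2) ∪ (A ×ˢ A).filter (fun s => v s.2 < v s.1) := by
    intro s hs
    simp only [mem_union, mem_filter]
    rcases lt_trichotomy (v s.1) (v s.2) with h | h | h
    · left; right; exact ⟨hs, h⟩
    · left; left; exact ⟨hs, h⟩
    · right; exact ⟨hs, h⟩
  have e := ip_three hsub
  have e1 := ip_lt_lt h1 h2 hY
  have e2 := ip_gt_gt h1 h2 hY
  unfold en
  omega

lemma ip_eq_eq_le (h1 : ∀ a ∈ A, q ^ v a ∣ a) {Y : ℕ}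
    (hY : ∀ a ∈ A, ∀ b ∈ A, v a < v b → v a + Y ≤ v b) :
    ip ((A ×ˢ A).filter (fun s => v s.1 = v s.2)) ((A ×ˢ A).filter (fun s => v s.1 = v s.2)) ≤
      ∑ w ∈ A.image v, en (A.filter (fun a => v a = w)) + 2 * ip (rho A v q Y) (A ×ˢ A) := by
  set S := ((((A ×ˢ A).filter (fun s => v s.1 = v s.2)) ×ˢ
    ((A ×ˢ A).filter (fun s => v s.1 = v s.2))).filter
      (fun q => q.1.1 - q.1.2 = q.2.1 - q.2.2)) with hS
  have hmem : ∀ a b a' b' : ℤ, ((a, b), (a', b')) ∈ S ↔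
      (a ∈ A ∧ b ∈ A ∧ v a = v b) ∧ (a' ∈ A ∧ b' ∈ A ∧ v a' = v b') ∧ a - b = a' - b' := by
    intro a b a' b'
    rw [hS]
    simp only [mem_filter, mem_product]
    tauto
  have hsplit : S.card ≤ (S.filter (fun s => v s.1.1 = v s.2.1)).card +
      (S.filter (fun s => v s.1.1 < v s.2.1)).card + (S.filter (fun s => v s.2.1 < v s.1.1)).card := by
    have : S ⊆ (S.filter (fun s => v s.1.1 = v s.2.1)) ∪ (S.filter (fun s => v s.1.1 < v s.2.1)) ∪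
        (S.filter (fun s => v s.2.1 < v s.1.1)) := by
      intro s hs
      simp only [mem_union, mem_filter]
      rcases lt_trichotomy (v s.1.1) (v s.2.1) with h | h | h
      · left; right; exact ⟨hs, h⟩
      · left; left; exact ⟨hs, h⟩
      · right; exact ⟨hs, h⟩
    exact (card_le_card this).trans ((card_union_le _ _).trans (by gcongr; exact card_union_le _ _))
  have hA : (S.filter (fun s => v s.1.1 = v s.2.1)).card ≤
      ∑ w ∈ A.image v, en (A.filter (fun a => v a = w)) := by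
    have hmaps : ∀ s ∈ S.filter (fun s => v s.1.1 = v s.2.1), v s.1.1 ∈ A.image v := by
      rintro ⟨⟨a, b⟩, ⟨a', b'⟩⟩ hs
      rw [mem_filter] at hs
      exact mem_image.2 ⟨a, ((hmem a b a' b').1 hs.1).1.1, rfl⟩
    rw [card_eq_sum_card_fiberwise hmaps]
    refine sum_le_sum fun w _ => ?_
    unfold en ip
    apply card_le_card
    rintro ⟨⟨a, b⟩, ⟨a', b'⟩⟩ hs
    rw [mem_filter, mem_filter] at hs
    obtain ⟨⟨hs, e1⟩, e2⟩ := hs
    obtain ⟨⟨ha, hb, hab⟩, ⟨ha', hb', hab'⟩, he⟩ := (hmem a b a' b').1 hs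
    simp only at e1 e2
    simp only [mem_filter, mem_product]
    exact ⟨⟨⟨⟨ha, e2⟩, hb, by omega⟩, ⟨ha', by omega⟩, hb', by omega⟩, he⟩
  have hB : (S.filter (fun s => v s.1.1 < v s.2.1)).card ≤ ip (rho A v q Y) (A ×ˢ A) := by
    unfold ip
    apply card_le_card
    rintro ⟨⟨a, b⟩, ⟨a', b'⟩⟩ hs
    rw [mem_filter] at hs
    obtain ⟨hs, e1⟩ := hs
    obtain ⟨⟨ha, hb, hab⟩, ⟨ha', hb', hab'⟩, he⟩ := (hmem a b a' b').1 hs
    simp only at e1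
    simp only [mem_filter, mem_product, rho]
    have e2 : q ^ (v a + Y) ∣ a' := (pow_dvd_pow q (hY a ha a' ha' e1)).trans (h1 a' ha')
    have e3 : q ^ (v a + Y) ∣ b' :=
      (pow_dvd_pow q (hY a ha b' hb' (by omega))).trans (h1 b' hb')
    refine ⟨⟨⟨⟨ha, hb⟩, hab, ?_⟩, ha', hb'⟩, he⟩
    rw [he]
    exact dvd_sub e2 e3
  have hC : (S.filter (fun s => v s.2.1 < v s.1.1)).card ≤ ip (rho A v q Y) (A ×ˢ A) := by
    unfold ip
    refine card_le_card_of_injOn (fun s => (s.2, s.1)) ?_ ?_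
    · rintro ⟨⟨a, b⟩, ⟨a', b'⟩⟩ hs
      rw [mem_coe, mem_filter] at hs
      obtain ⟨hs, e1⟩ := hs
      obtain ⟨⟨ha, hb, hab⟩, ⟨ha', hb', hab'⟩, he⟩ := (hmem a b a' b').1 hs
      simp only at e1
      simp only [mem_coe, mem_filter, mem_product, rho]
      have e2 : q ^ (v a' + Y) ∣ a := (pow_dvd_pow q (hY a' ha' a ha e1)).trans (h1 a ha)
      have e3 : q ^ (v a' + Y) ∣ b :=
        (pow_dvd_pow q (hY a' ha' b hb (by omega))).trans (h1 b hb)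
      refine ⟨⟨⟨⟨ha', hb'⟩, hab', ?_⟩, ha, hb⟩, he.symm⟩
      rw [← he]
      exact dvd_sub e2 e3
    · rintro ⟨s, t⟩ _ ⟨s', t'⟩ _ h
      simp only [Prod.mk.injEq] at h ⊢
      exact ⟨h.2, h.1⟩
  have e0 : ip ((A ×ˢ A).filter (fun s => v s.1 = v s.2))
      ((A ×ˢ A).filter (fun s => v s.1 = v s.2)) = S.card := rfl
  rw [e0]
  omega

/-- **Separated valuations.** If the valuations of the elements of `A` are equal or at least `Y` apart, and each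
`a ∈ A` has at most `κ` elements `a' ∈ A` of the same valuation congruent to it modulo `q ^ (v a + Y)`, then the energy
of `A` is at most twice the sum of the energies of the parts plus `12 |A|² κ`. -/
theorem en_sep (h1 : ∀ a ∈ A, q ^ v a ∣ a) (h2 : ∀ a ∈ A, ¬ q ^ (v a + 1) ∣ a) {Y : ℕ}
    (hY : ∀ a ∈ A, ∀ b ∈ A, v a < v b → v a + Y ≤ v b) {κ : ℕ}
    (hκ : ∀ a ∈ A, (A.filter (fun a' => v a = v a' ∧ q ^ (v a + Y) ∣ a - a')).card ≤ κ) :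
    en A ≤ 2 * ∑ w ∈ A.image v, en (A.filter (fun a => v a = w)) + 12 * (A.card ^ 2 * κ) := by
  have e1 := ip_all_le h1 h2 hY
  have e2 := ip_eq_eq_le h1 hY
  have e3 := ip_rho_le Y κ hκ
  omega

lemma ip_eq_eq_le_M {M : ℝ} (hM : 0 ≤ M)
    (h : ∀ w, (en (A.filter (fun a => v a = w)) : ℝ) ≤ M * ((A.filter (fun a => v a = w)).card : ℝ) ^ 2) :
    (ip ((A ×ˢ A).filter (fun s => v s.1 = v s.2))
      ((A ×ˢ A).filter (fun s => v s.1 = v s.2)) : ℝ) ≤ M * (A.card : ℝ) ^ 2 := by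
  set S := ((((A ×ˢ A).filter (fun s => v s.1 = v s.2)) ×ˢ
    ((A ×ˢ A).filter (fun s => v s.1 = v s.2))).filter
      (fun q => q.1.1 - q.1.2 = q.2.1 - q.2.2)) with hS
  set Aw : ℕ → Finset ℤ := fun w => A.filter (fun a => v a = w) with hAw
  have e0 : ip ((A ×ˢ A).filter (fun s => v s.1 = v s.2))
      ((A ×ˢ A).filter (fun s => v s.1 = v s.2)) = S.card := rfl
  have e1 : S.card ≤ ∑ x ∈ A.image v ×ˢ A.image v, ip (Aw x.1 ×ˢ Aw x.1) (Aw x.2 ×ˢ Aw x.2) := by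
    have hmaps : ∀ s ∈ S, (v s.1.1, v s.2.1) ∈ A.image v ×ˢ A.image v := by
      rintro ⟨⟨a, b⟩, ⟨a', b'⟩⟩ hs
      rw [hS] at hs
      simp only [mem_filter, mem_product] at hs
      exact mem_product.2 ⟨mem_image.2 ⟨a, hs.1.1.1.1, rfl⟩, mem_image.2 ⟨a', hs.1.2.1.1, rfl⟩⟩
    rw [card_eq_sum_card_fiberwise hmaps]
    refine sum_le_sum fun w _ => ?_
    unfold ip
    apply card_le_card
    rintro ⟨⟨a, b⟩, ⟨a', b'⟩⟩ hs
    rw [mem_filter, hS] at hs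
    simp only [mem_filter, mem_product] at hs
    obtain ⟨⟨⟨⟨⟨ha, hb⟩, hab⟩, ⟨ha', hb'⟩, hab'⟩, he⟩, hw⟩ := hs
    rw [Prod.ext_iff] at hw
    obtain ⟨hw1, hw2⟩ := hw
    simp only at hw1 hw2
    simp only [mem_filter, mem_product, hAw]
    exact ⟨⟨⟨⟨ha, hw1⟩, hb, by omega⟩, ⟨ha', hw2⟩, hb', by omega⟩, he⟩
  have e2 : ∀ w w', (ip (Aw w ×ˢ Aw w) (Aw w' ×ˢ Aw w') : ℝ) ≤
      M * ((Aw w).card * (Aw w').card : ℝ) := by
    intro w w'
    have f1 := ip_sq_le (Aw w ×ˢ Aw w) (Aw w' ×ˢ Aw w')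
    have f2 : (ip (Aw w ×ˢ Aw w) (Aw w ×ˢ Aw w) : ℝ) ≤ M * ((Aw w).card : ℝ) ^ 2 := h w
    have f3 : (ip (Aw w' ×ˢ Aw w') (Aw w' ×ˢ Aw w') : ℝ) ≤ M * ((Aw w').card : ℝ) ^ 2 := h w'
    apply le_of_sq_le_sq _ (by positivity)
    calc (ip (Aw w ×ˢ Aw w) (Aw w' ×ˢ Aw w') : ℝ) ^ 2
        ≤ (ip (Aw w ×ˢ Aw w) (Aw w ×ˢ Aw w) : ℝ) * (ip (Aw w' ×ˢ Aw w') (Aw w' ×ˢ Aw w') : ℝ) := f1
      _ ≤ (M * ((Aw w).card : ℝ) ^ 2) * (M * ((Aw w').card : ℝ) ^ 2) :=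
          mul_le_mul f2 f3 (by positivity) (by positivity)
      _ = (M * ((Aw w).card * (Aw w').card : ℝ)) ^ 2 := by ring
  have e3 : (A.card : ℝ) = ∑ w ∈ A.image v, ((Aw w).card : ℝ) := by
    rw [card_eq_sum_card_image v A]
    push_cast
    rfl
  rw [e0]
  calc (S.card : ℝ) ≤ ∑ x ∈ A.image v ×ˢ A.image v,
        (ip (Aw x.1 ×ˢ Aw x.1) (Aw x.2 ×ˢ Aw x.2) : ℝ) := by exact_mod_cast e1
    _ ≤ ∑ x ∈ A.image v ×ˢ A.image v, M * ((Aw x.1).card * (Aw x.2).card : ℝ) :=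
        sum_le_sum fun x _ => e2 x.1 x.2
    _ = M * (A.card : ℝ) ^ 2 := by
        rw [← mul_sum, sum_product, e3, sq, sum_mul_sum]

/-- **Square function inequality in counting form.** -/
theorem en_chang (h1 : ∀ a ∈ A, q ^ v a ∣ a) (h2 : ∀ a ∈ A, ¬ q ^ (v a + 1) ∣ a)
    {M : ℝ} (hM : 0 ≤ M)
    (h : ∀ w, (en (A.filter (fun a => v a = w)) : ℝ) ≤ M * ((A.filter (fun a => v a = w)).card : ℝ) ^ 2) :
    (en A : ℝ) ≤ 81 * M * (A.card : ℝ) ^ 2 := by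
  have e1 := ip_all_le (Y := 0) h1 h2 (fun a _ b _ hab => by omega)
  have e2 := ip_eq_eq_le_M hM h
  set Pe := (A ×ˢ A).filter (fun s => v s.1 = v s.2) with hPe
  have e3 : ip (rho A v q 0) (A ×ˢ A) ≤ ip Pe (A ×ˢ A) := by
    apply ip_mono _ (Subset.refl _)
    intro s hs
    rw [rho, mem_filter] at hs
    rw [hPe, mem_filter]
    exact ⟨hs.1, hs.2.1⟩
  have e4 := ip_sq_le Pe (A ×ˢ A)
  have e5 : (en A : ℝ) ≤ 2 * (ip Pe Pe : ℝ) + 8 * (ip Pe (A ×ˢ A) : ℝ) := by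
    have : en A ≤ 2 * ip Pe Pe + 8 * ip Pe (A ×ˢ A) := by omega
    exact_mod_cast this
  have e6 : (ip Pe (A ×ˢ A) : ℝ) ^ 2 ≤ (M * (A.card : ℝ) ^ 2) * (en A : ℝ) :=
    e4.trans (mul_le_mul_of_nonneg_right e2 (by positivity))
  set t : ℝ := M * (A.card : ℝ) ^ 2 with ht
  have ht0 : 0 ≤ t := by positivity
  set e : ℝ := (en A : ℝ)
  set y : ℝ := (ip Pe (A ×ˢ A) : ℝ)
  have he0 : 0 ≤ e := by positivity
  have hy0 : 0 ≤ y := by positivity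
  have goal : e ≤ 81 * t := by
    by_contra hcon
    push Not at hcon
    have g1 : (9 * y) ^ 2 ≤ e ^ 2 := by
      have : t * e ≤ (e / 81) * e := mul_le_mul_of_nonneg_right (by linarith) he0
      nlinarith
    have g2 : 9 * y ≤ e := le_of_sq_le_sq g1 he0
    linarith
  calc e ≤ 81 * t := goal
    _ = 81 * M * (A.card : ℝ) ^ 2 := by rw [ht]; ring

end val

end Pool.Agent.Lib.CSid
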