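import Mathlib

/-!
# Primes whose valuations determine an element of a finitely generated group
-/

set_option autoImplicit false

namespace Pool.Agent.Lib.CSid

open Finset Module

lemma exists_coords {ι K : Type*} [Field K] [Nonempty ι] (r : ℕ) :
    ∀ (V : Submodule K (ι → K)) [FiniteDimensional K V], finrank K V ≤ r →
      ∃ Q : Fin r → ι, ∀ y ∈ V, (∀ j, y (Q j) = 0) → y = 0 := by
  induction r with
  | zero =>
    intro V _ h
    refine ⟨fun _ => Classical.arbitrary ι, fun y hy _ => ?_⟩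
    have h1 : V = ⊥ := Submodule.finrank_eq_zero.1 (by omega)
    rw [h1] at hy
    exact (Submodule.mem_bot K).1 hy
  | succ r ih =>
    intro V _ h
    by_cases hV : V = ⊥
    · refine ⟨fun _ => Classical.arbitrary ι, fun y hy _ => ?_⟩
      rw [hV] at hy
      exact (Submodule.mem_bot K).1 hy
    · obtain ⟨y0, hy0, hne⟩ := Submodule.exists_mem_ne_zero_of_ne_bot hV
      obtain ⟨i, hi⟩ : ∃ i, y0 i ≠ 0 := by
        by_contra hcon
        push Not at hcon
        exact hne (funext hcon)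
      set V' : Submodule K (ι → K) := V ⊓ LinearMap.ker (LinearMap.proj i) with hV'
      have hlt : V' < V := by
        refine lt_of_le_of_ne inf_le_left fun heq => ?_
        rw [← heq] at hy0
        exact hi (LinearMap.mem_ker.1 hy0.2)
      have hfd : FiniteDimensional K V' := Submodule.finiteDimensional_of_le inf_le_left
      have h1 : finrank K V' < finrank K V := Submodule.finrank_lt_finrank_of_lt hlt
      obtain ⟨Q, hQ⟩ := ih V' (by omega)
      refine ⟨Fin.cons i Q, fun y hy hz => ?_⟩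
      have h2 : y i = 0 := by simpa using hz 0
      refine hQ y ⟨hy, LinearMap.mem_ker.2 h2⟩ fun j => ?_
      simpa using hz j.succ

lemma finrank_span_le_of_rel {α M N : Type*} [Fintype α] [AddCommGroup M] [Module ℚ M]
    [AddCommGroup N] [Module ℚ N] (x : α → M) (E : α → N)
    (h : ∀ c : α → ℚ, ∑ a, c a • E a = 0 → ∑ a, c a • x a = 0) :
    finrank ℚ (Submodule.span ℚ (Set.range x)) ≤ finrank ℚ (Submodule.span ℚ (Set.range E)) := by
  classical
  rw [← Fintype.range_linearCombination ℚ x, ← Fintype.range_linearCombination ℚ E]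
  have h1 := LinearMap.finrank_range_add_finrank_ker (Fintype.linearCombination ℚ x)
  have h2 := LinearMap.finrank_range_add_finrank_ker (Fintype.linearCombination ℚ E)
  have h3 : LinearMap.ker (Fintype.linearCombination ℚ E) ≤
      LinearMap.ker (Fintype.linearCombination ℚ x) := by
    intro c hc
    rw [LinearMap.mem_ker, Fintype.linearCombination_apply] at hc ⊢
    exact h c hc
  have h4 := Submodule.finrank_mono h3
  omega

lemma padicValRat_prod_zpow {α : Type*} (q : ℕ) [Fact q.Prime] (s : Finset α) (f : α → ℚ)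
    (n : α → ℤ) (hf : ∀ a ∈ s, f a ≠ 0) :
    padicValRat q (∏ a ∈ s, f a ^ n a) = ∑ a ∈ s, n a * padicValRat q (f a) := by
  classical
  induction s using Finset.induction_on with
  | empty => simp
  | insert a s ha ih =>
    rw [prod_insert ha, sum_insert ha, padicValRat.mul
      (zpow_ne_zero _ (hf a (mem_insert_self a s)))
      (prod_ne_zero_iff.2 fun b hb => zpow_ne_zero _ (hf b (mem_insert_of_mem hb))),
      ih fun b hb => hf b (mem_insert_of_mem hb), padicValRat.zpow]

/-- clearing denominators -/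
lemma exists_int_mul {α : Type*} [Fintype α] (c : α → ℚ) :
    ∃ (N : ℤ) (n : α → ℤ), N ≠ 0 ∧ ∀ a, (N : ℚ) * c a = n a := by
  classical
  refine ⟨∏ a, ((c a).den : ℤ), fun a => (∏ b ∈ univ.erase a, ((c b).den : ℤ)) * (c a).num, ?_, ?_⟩
  · exact prod_ne_zero_iff.2 fun a _ => by exact_mod_cast (c a).den_ne_zero
  · intro a
    rw [← mul_prod_erase univ _ (mem_univ a)]
    push_cast
    have h1 : ((c a).den : ℚ) * c a = (c a).num := by
      rw [mul_comm]
      exact Rat.mul_den_eq_num (c a)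
    calc ((c a).den : ℚ) * (∏ b ∈ univ.erase a, ((c b).den : ℚ)) * c a
        = (∏ b ∈ univ.erase a, ((c b).den : ℚ)) * (((c a).den : ℚ) * c a) := by ring
      _ = _ := by rw [h1]

theorem exists_primes {r : ℕ} (g : Fin r → ℝ) (hg : ∀ i, g i ≠ 0) (A : Finset ℤ)
    (hpos : ∀ a ∈ A, 0 < a) (E : ℤ → Fin r → ℤ) (u : ℤ → ℤ)
    (hA : ∀ a ∈ A, (a : ℝ) = (∏ i, g i ^ E a i) * u a) :
    ∃ p : ℕ → ℕ, (∀ j < r, (p j).Prime) ∧ ∀ a ∈ A, ∀ b ∈ A,
      (∀ j < r, (padicValInt (p j) a : ℤ) - padicValNat (p j) (u a).natAbs =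
        padicValInt (p j) b - padicValNat (p j) (u b).natAbs) →
      a * (u b).natAbs = b * (u a).natAbs := by
  classical
  have hu : ∀ a ∈ A, u a ≠ 0 := by
    intro a ha h0
    have h1 := hA a ha
    rw [h0] at h1
    have h2 : (a : ℝ) ≠ 0 := by exact_mod_cast (hpos a ha).ne'
    apply h2
    rw [h1]
    simp
  set ρ : A → ℚ := fun a => ((a.1.natAbs : ℕ) : ℚ) / ((u a.1).natAbs : ℕ) with hρ
  have hn0 : ∀ a : A, a.1.natAbs ≠ 0 := fun a => Int.natAbs_ne_zero.2 (hpos a.1 a.2).ne'
  have hU0 : ∀ a : A, (u a.1).natAbs ≠ 0 := fun a => Int.natAbs_ne_zero.2 (hu a.1 a.2)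
  have hρpos : ∀ a, 0 < ρ a := by
    intro a
    have h1 : (0 : ℚ) < ((a.1.natAbs : ℕ) : ℚ) := by
      exact_mod_cast Nat.pos_of_ne_zero (hn0 a)
    have h2 : (0 : ℚ) < (((u a.1).natAbs : ℕ) : ℚ) := by
      exact_mod_cast Nat.pos_of_ne_zero (hU0 a)
    exact div_pos h1 h2
  have hρR : ∀ a, Real.log (ρ a : ℝ) = ∑ i, (E a.1 i : ℝ) * Real.log |g i| := by
    intro a
    have h1 : (ρ a : ℝ) = ∏ i, |g i| ^ E a.1 i := by
      have h2 := hA a.1 a.2
      have h3 : |(a.1 : ℝ)| = (∏ i, |g i| ^ E a.1 i) * |(u a.1 : ℝ)| := by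
        rw [h2, abs_mul, abs_prod]
        simp only [abs_zpow]
      have h4 : |(u a.1 : ℝ)| ≠ 0 := abs_ne_zero.2 (by exact_mod_cast hu a.1 a.2)
      have h5 : (ρ a : ℝ) = |(a.1 : ℝ)| / |(u a.1 : ℝ)| := by
        rw [hρ]
        push_cast
        rw [Nat.cast_natAbs, Nat.cast_natAbs]
        push_cast
        rfl
      rw [h5, h3, mul_div_assoc, div_self h4, mul_one]
    rw [h1, Real.log_prod (fun i _ => zpow_ne_zero _ (abs_ne_zero.2 (hg i)))]
    exact sum_congr rfl fun i _ => Real.log_zpow _ _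
  set x : A → (Nat.Primes → ℚ) := fun a q => (padicValRat q.1 (ρ a) : ℚ) with hx
  have hrel : ∀ c : A → ℚ, ∑ a, c a • (fun i => (E a.1 i : ℚ) : Fin r → ℚ) = 0 →
      ∑ a, c a • x a = 0 := by
    intro c hc
    obtain ⟨N, n, hN, hn⟩ := exists_int_mul c
    have hN' : (N : ℚ) ≠ 0 := by exact_mod_cast hN
    have h1 : ∀ i, ∑ a : A, (n a : ℚ) * (E a.1 i : ℚ) = 0 := by
      intro i
      have h2 := congrFun hc i
      simp only [Finset.sum_apply, Pi.smul_apply, smul_eq_mul, Pi.zero_apply] at h2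
      have h3 : ∑ a : A, (n a : ℚ) * (E a.1 i : ℚ) = N * ∑ a : A, c a * (E a.1 i : ℚ) := by
        rw [mul_sum]
        refine sum_congr rfl fun a _ => ?_
        rw [← hn a]
        ring
      rw [h3, h2, mul_zero]
    have h2 : ∏ a : A, (ρ a) ^ n a = 1 := by
      have h3 : ((∏ a : A, (ρ a) ^ n a : ℚ) : ℝ) = 1 := by
        apply Real.eq_one_of_pos_of_log_eq_zero
        · exact_mod_cast prod_pos fun a _ => zpow_pos (hρpos a) _
        · push_cast
          rw [Real.log_prod (fun a _ => zpow_ne_zero _ (by exact_mod_cast (hρpos a).ne'))]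
          simp only [Real.log_zpow, hρR]
          have h4 : ∀ a : A, (n a : ℝ) * ∑ i, (E a.1 i : ℝ) * Real.log |g i| =
              ∑ i, ((n a : ℝ) * (E a.1 i : ℝ)) * Real.log |g i| := by
            intro a
            rw [mul_sum]
            exact sum_congr rfl fun i _ => by ring
          rw [sum_congr rfl fun a _ => h4 a, sum_comm]
          refine sum_eq_zero fun i _ => ?_
          rw [← sum_mul]
          have h5 : ∑ a : A, (n a : ℝ) * (E a.1 i : ℝ) = 0 := by exact_mod_cast h1 i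
          rw [h5, zero_mul]
      exact_mod_cast h3
    funext q
    have : Fact q.1.Prime := ⟨q.2⟩
    have h3 := padicValRat_prod_zpow q.1 univ ρ n (fun a _ => (hρpos a).ne')
    rw [h2, padicValRat.one] at h3
    have h4 : ∑ a : A, (n a : ℚ) * (padicValRat q.1 (ρ a) : ℚ) = 0 := by exact_mod_cast h3.symm
    have h5 : ∑ a : A, (n a : ℚ) * (padicValRat q.1 (ρ a) : ℚ) =
        N * ∑ a : A, c a * (padicValRat q.1 (ρ a) : ℚ) := by
      rw [mul_sum]
      refine sum_congr rfl fun a _ => ?_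
      rw [← hn a]
      ring
    rw [h5] at h4
    have h6 := (mul_eq_zero.1 h4).resolve_left hN'
    simp only [Finset.sum_apply, Pi.smul_apply, smul_eq_mul, Pi.zero_apply, hx]
    exact h6
  have hrank : finrank ℚ (Submodule.span ℚ (Set.range x)) ≤ r := by
    refine (finrank_span_le_of_rel x _ hrel).trans ?_
    refine (Submodule.finrank_le _).trans ?_
    rw [finrank_fin_fun]
  have hfd : FiniteDimensional ℚ (Submodule.span ℚ (Set.range x)) :=
    FiniteDimensional.span_of_finite ℚ (Set.finite_range x)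
  have : Nonempty Nat.Primes := ⟨⟨2, Nat.prime_two⟩⟩
  obtain ⟨Q, hQ⟩ := exists_coords r (Submodule.span ℚ (Set.range x)) hrank
  refine ⟨fun j => if h : j < r then (Q ⟨j, h⟩).1 else 2, ?_, ?_⟩
  · intro j hj
    simp only [dif_pos hj]
    exact (Q ⟨j, hj⟩).2
  · intro a ha b hb hab
    have hv : ∀ (c : ℤ) (hc : c ∈ A) (q : Nat.Primes), padicValRat q.1 (ρ ⟨c, hc⟩) =
        (padicValInt q.1 c : ℤ) - padicValNat q.1 (u c).natAbs := by
      intro c hc q
      have : Fact q.1.Prime := ⟨q.2⟩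
      rw [hρ]
      simp only
      rw [padicValRat.div (by exact_mod_cast hn0 ⟨c, hc⟩) (by exact_mod_cast hU0 ⟨c, hc⟩),
        padicValRat.of_nat, padicValRat.of_nat]
      rfl
    have h0 : x ⟨a, ha⟩ - x ⟨b, hb⟩ = 0 := by
      apply hQ
      · exact Submodule.sub_mem _ (Submodule.subset_span ⟨_, rfl⟩) (Submodule.subset_span ⟨_, rfl⟩)
      · intro j
        have h1 := hab j.1 j.2
        simp only [dif_pos j.2] at h1
        rw [Pi.sub_apply, hx]
        simp only
        rw [hv, hv, sub_eq_zero]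
        exact_mod_cast h1
    have h1 : ∀ q : ℕ, q.Prime → padicValNat q (a.natAbs * (u b).natAbs) =
        padicValNat q (b.natAbs * (u a).natAbs) := by
      intro q hq
      have : Fact q.Prime := ⟨hq⟩
      let q' : Nat.Primes := ⟨q, hq⟩
      have h2 : (padicValRat q'.1 (ρ ⟨a, ha⟩) : ℚ) - (padicValRat q'.1 (ρ ⟨b, hb⟩) : ℚ) = 0 :=
        congrFun h0 q'
      rw [hv, hv] at h2
      have h3 : ((padicValInt q a : ℤ) - padicValNat q (u a).natAbs) -
          ((padicValInt q b : ℤ) - padicValNat q (u b).natAbs) = 0 := by exact_mod_cast h2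
      rw [padicValNat.mul (hn0 ⟨a, ha⟩) (hU0 ⟨b, hb⟩), padicValNat.mul (hn0 ⟨b, hb⟩) (hU0 ⟨a, ha⟩)]
      unfold padicValInt at h3
      simp only at h3 ⊢
      omega
    have h2 := (Nat.eq_iff_prime_padicValNat_eq _ _
      (Nat.mul_ne_zero (hn0 ⟨a, ha⟩) (hU0 ⟨b, hb⟩))
      (Nat.mul_ne_zero (hn0 ⟨b, hb⟩) (hU0 ⟨a, ha⟩))).2 h1
    simp only at h2
    have h3 : ((a.natAbs : ℕ) : ℤ) * (u b).natAbs = (b.natAbs : ℕ) * (u a).natAbs := by
      exact_mod_cast h2
    rw [Int.natAbs_of_nonneg (hpos a ha).le, Int.natAbs_of_nonneg (hpos b hb).le] at h3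
    exact h3

end Pool.Agent.Lib.CSid
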