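import Pool.Agent.Lib.CSid.Regular
import Pool.Agent.Lib.CSid.Mult
import Pool.Agent.Lib.CSid.Primes

/-!
# Reduction of a set covered by few dilates of an interval

`GoodP r H P`: every finite set of positive integers with the property `P` has, for suitable primes `p 0, ..., p (r - 1)`,
the form `a = x a * u a` with integers `|u a| ≤ H` and such that `x a` is determined by its valuations at these
primes.
-/

set_option autoImplicit false

namespace Pool.Agent.Lib.CSid

open Finset

/-- sets with the property `P` are covered by dilates of an interval which are separated by `r` valuations -/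
def GoodP (r H : ℕ) (P : ℤ → Prop) : Prop :=
  (∀ a, P a → P (-a)) ∧ ∀ A : Finset ℤ, (∀ a ∈ A, 0 < a) → (∀ a ∈ A, P a) →
    ∃ (p : ℕ → ℕ) (u : ℤ → ℤ), (∀ j < r, (p j).Prime) ∧
      (∀ a ∈ A, u a ≠ 0 ∧ (u a).natAbs ≤ H) ∧
      ∀ a ∈ A, ∀ b ∈ A, (∀ j < r, (padicValInt (p j) a : ℤ) - padicValNat (p j) (u a).natAbs =
        padicValInt (p j) b - padicValNat (p j) (u b).natAbs) →
        a * (u b).natAbs = b * (u a).natAbs

theorem goodP_group {r : ℕ} (g : Fin r → ℝ) (hg : ∀ i, g i ≠ 0) (H : ℕ) :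
    GoodP r H (fun a => ∃ (e : Fin r → ℤ) (u : ℤ), u.natAbs ≤ H ∧ (a : ℝ) = (∏ i, g i ^ e i) * u) := by
  classical
  refine ⟨?_, ?_⟩
  · rintro a ⟨e, u, hu, he⟩
    refine ⟨e, -u, by rwa [Int.natAbs_neg], ?_⟩
    push_cast
    rw [he]
    ring
  · intro A hpos hA
    have hA' : ∀ a, ∃ (e : Fin r → ℤ) (u : ℤ), a ∈ A →
        u.natAbs ≤ H ∧ (a : ℝ) = (∏ i, g i ^ e i) * u := by
      intro a
      by_cases ha : a ∈ A
      · obtain ⟨e, u, h⟩ := hA a ha
        exact ⟨e, u, fun _ => h⟩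
      · exact ⟨0, 0, fun h => absurd h ha⟩
    choose E u hEu using hA'
    obtain ⟨p, hp, hprop⟩ := exists_primes g hg A hpos E u (fun a ha => (hEu a ha).2)
    refine ⟨p, u, hp, fun a ha => ⟨?_, (hEu a ha).1⟩, hprop⟩
    intro h0
    have h1 := (hEu a ha).2
    rw [h0] at h1
    have h2 : (a : ℝ) ≠ 0 := by exact_mod_cast (hpos a ha).ne'
    apply h2
    rw [h1]
    simp

theorem goodP_dil {r : ℕ} (p : Fin r → ℕ) (hp : ∀ j, (p j).Prime) (Λ : Set ℚ)
    (hΛ : ∀ x ∈ Λ, ∀ y ∈ Λ, (∀ j, padicValRat (p j) x = padicValRat (p j) y) → x = y) (H : ℕ) :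
    GoodP r H (fun a => ∃ x ∈ Λ, ∃ u : ℤ, u.natAbs ≤ H ∧ (a : ℚ) = x * u) := by
  classical
  refine ⟨?_, ?_⟩
  · rintro a ⟨x, hx, u, hu, he⟩
    refine ⟨x, hx, -u, by rwa [Int.natAbs_neg], ?_⟩
    push_cast
    rw [he]
    ring
  · intro A hpos hA
    have hA' : ∀ a : ℤ, ∃ (x : ℚ) (u : ℤ), a ∈ A →
        x ∈ Λ ∧ u.natAbs ≤ H ∧ (a : ℚ) = x * u := by
      intro a
      by_cases ha : a ∈ A
      · obtain ⟨x, hx, u, h⟩ := hA a ha
        exact ⟨x, u, fun _ => ⟨hx, h⟩⟩
      · exact ⟨0, 0, fun h => absurd h ha⟩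
    choose x u hxu using hA'
    have hu0 : ∀ a ∈ A, u a ≠ 0 := by
      intro a ha h0
      have h1 := (hxu a ha).2.2
      rw [h0] at h1
      have h2 : (a : ℚ) ≠ 0 := by exact_mod_cast (hpos a ha).ne'
      apply h2
      rw [h1]
      simp
    have hx0 : ∀ a ∈ A, x a ≠ 0 := by
      intro a ha h0
      have h1 := (hxu a ha).2.2
      rw [h0, zero_mul] at h1
      have h2 : (a : ℚ) ≠ 0 := by exact_mod_cast (hpos a ha).ne'
      exact h2 h1
    refine ⟨fun j => if h : j < r then p ⟨j, h⟩ else 2, u, ?_, fun a ha => ⟨hu0 a ha, (hxu a ha).2.1⟩,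
      ?_⟩
    · intro j hj
      simp only [dif_pos hj]
      exact hp ⟨j, hj⟩
    · intro a ha b hb hab
      have hv : ∀ c ∈ A, ∀ j : Fin r, padicValRat (p j) (x c) =
          (padicValInt (p j) c : ℤ) - padicValNat (p j) (u c).natAbs := by
        intro c hc j
        have : Fact (p j).Prime := ⟨hp j⟩
        have h1 : padicValRat (p j) (c : ℚ) = padicValRat (p j) (x c) + padicValRat (p j) (u c : ℚ) := by
          rw [(hxu c hc).2.2]
          exact padicValRat.mul (hx0 c hc) (by exact_mod_cast hu0 c hc)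
        rw [padicValRat.of_int, padicValRat.of_int] at h1
        have h2 : (padicValInt (p j) (u c) : ℤ) = padicValNat (p j) (u c).natAbs := rfl
        rw [h2] at h1
        linarith
      have hxx : x a = x b := by
        apply hΛ _ (hxu a ha).1 _ (hxu b hb).1
        intro j
        rw [hv a ha j, hv b hb j]
        have h1 := hab j.1 j.2
        simp only [dif_pos j.2] at h1
        exact h1
      have h1 : (a : ℚ) * u b = b * u a := by
        rw [(hxu a ha).2.2, (hxu b hb).2.2, hxx]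
        ring
      have h2 : a * u b = b * u a := by exact_mod_cast h1
      have h3 := congrArg Int.natAbs h2
      rw [Int.natAbs_mul, Int.natAbs_mul] at h3
      have h4 : ((a.natAbs : ℕ) : ℤ) * (u b).natAbs = (b.natAbs : ℕ) * (u a).natAbs := by
        exact_mod_cast h3
      rwa [Int.natAbs_of_nonneg (hpos a ha).le, Int.natAbs_of_nonneg (hpos b hb).le] at h4

theorem reduceP {r H : ℕ} {P : ℤ → Prop} (hG : GoodP r H P) (A : Finset ℤ)
    (hpos : ∀ a ∈ A, 0 < a) (hA : ∀ a ∈ A, P a)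
    (hne : A.Nonempty) (Y : ℕ) (hY : Nat.log 2 H + 1 ≤ Y) :
    ∃ (p : ℕ → ℕ) (U : ℤ → ℕ), ∃ A₂ ⊆ A, Prop1 p r A₂ U H ∧
      Sep (pv p) A₂ r Y ∧ A.card ≤ Y ^ (2 * r) * A₂.card := by
  classical
  obtain ⟨p, u, hp, hu, hprop⟩ := hG.2 A hpos hA
  obtain ⟨b, hb, hcard⟩ := exists_popular A
    (fun a => fun j : Fin r => (padicValNat (p j) (u a).natAbs, padicValInt (p j) a % Y))
    (Fintype.piFinset fun _ : Fin r => range Y ×ˢ range Y) (by
      intro a ha
      rw [Fintype.mem_piFinset]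
      intro j
      have : Fact (p j).Prime := ⟨hp j j.2⟩
      rw [mem_product, mem_range, mem_range]
      constructor
      · have h1 : padicValNat (p j) (u a).natAbs ≤ Nat.log (p j) (u a).natAbs :=
          padicValNat_le_nat_log _
        have h2 : Nat.log (p j) (u a).natAbs ≤ Nat.log 2 (u a).natAbs :=
          Nat.log_anti_left (by norm_num) (hp j j.2).two_le
        have h3 : Nat.log 2 (u a).natAbs ≤ Nat.log 2 H := Nat.log_mono_right (hu a ha).2
        simp only
        omega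
      · exact Nat.mod_lt _ (by omega)) hne
  rw [Fintype.card_piFinset, prod_const, card_product, card_range, card_univ, Fintype.card_fin,
    ← pow_two, ← pow_mul] at hcard
  refine ⟨p, fun a => (u a).natAbs, _, filter_subset _ _, ⟨hp, ?_, ?_, ?_, ?_⟩, ?_, hcard⟩
  · exact fun a ha => hpos a (mem_filter.1 ha).1
  · intro a ha
    have := (hu a (mem_filter.1 ha).1).1
    have h2 := Int.natAbs_ne_zero.2 this
    omega
  · exact fun a ha => (hu a (mem_filter.1 ha).1).2
  · intro a ha c hc hac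
    rw [mem_filter] at ha hc
    apply hprop a ha.1 c hc.1
    intro j hj
    have h1 := congrFun (ha.2.trans hc.2.symm) ⟨j, hj⟩
    simp only [Prod.mk.injEq] at h1
    have h2 := hac j hj
    unfold pv at h2
    rw [h1.1, h2]
  · intro j hj a ha c hc hlt
    rw [mem_filter] at ha hc
    have h1 := congrFun (ha.2.trans hc.2.symm) ⟨j, hj⟩
    simp only [Prod.mk.injEq] at h1
    have h2 : pv p j a ≡ pv p j c [MOD Y] := h1.2
    have h3 : Y ∣ pv p j c - pv p j a := (Nat.modEq_iff_dvd' hlt.le).1 h2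
    have h4 := Nat.le_of_dvd (by omega) h3
    omega

end Pool.Agent.Lib.CSid
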