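import Pool.Agent.Lib.CSid.Core
import Pool.Agent.Lib.CSid.Reduce

/-!
# Sets in a finitely generated group times an interval: exponent `5/9`, uniform in the rank
-/

set_option autoImplicit false

namespace Pool.Agent.Lib.CSid

open Finset

lemma nat_four_pow (r : ℕ) : (r + 1) * (r + 9) ≤ 9 * 4 ^ r := by
  induction r with
  | zero => norm_num
  | succ r ih =>
    rw [pow_succ]
    nlinarith

lemma rpow_third_cube {x : ℝ} (hx : 0 ≤ x) : (x ^ (1 / 3 : ℝ)) ^ 3 = x := by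
  rw [← Real.rpow_natCast, ← Real.rpow_mul hx]
  norm_num

theorem pos59 {r H : ℕ} {P : ℤ → Prop} (hG : GoodP r H P) (T : ℕ) (hT1 : 1 ≤ T)
    (hT : ∀ n : ℕ, 1 ≤ n → n ≤ H ^ 2 → n.divisors.card ≤ T) (A : Finset ℤ)
    (hne : A.Nonempty) (hpos : ∀ a ∈ A, 0 < a) (hA : ∀ a ∈ A, P a) :
    ∃ B ⊆ A, (AddSidon B ∨ MulSidon B) ∧ (A.card : ℝ) ^ (5 / 9 : ℝ) ≤
      (9216 : ℕ) * ((Nat.log 2 A.card + 1 : ℕ) : ℝ) ^ 1 *
        ((26 : ℕ) * (Nat.log 2 H + 1 : ℕ)) ^ (2 * r) * T * B.card := by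
  obtain ⟨p, U, A₂, hA₂, hP, hS, hc₂⟩ := reduceP hG A hpos hA hne (Nat.log 2 H + 1) le_rfl
  obtain ⟨A₃, hA₃, k, hk1, hkpop, hc₃⟩ := regular (pv p) r A₂
  set Y := Nat.log 2 H + 1 with hY
  set L := Nat.log 2 A.card + 1 with hL
  have hN1 : 0 < A.card := card_pos.2 hne
  have hL2 : Nat.log 2 A₂.card + 1 ≤ L := by
    have := Nat.log_mono_right (b := 2) (card_le_card hA₂)
    omega
  have hc : A.card ≤ Y ^ (2 * r) * (L * A₃.card) :=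
    hc₂.trans (Nat.mul_le_mul_left _ (hc₃.trans (Nat.mul_le_mul_right _ hL2)))
  have hN3 : 0 < A₃.card := by
    rcases Nat.eq_zero_or_pos A₃.card with h | h
    · rw [h, mul_zero, mul_zero] at hc
      omega
    · exact h
  set N₃ : ℝ := (A₃.card : ℝ) with hN₃
  have hN₃1 : 1 ≤ N₃ := by rw [hN₃]; exact_mod_cast hN3
  have hN₃0 : 0 ≤ N₃ := by linarith
  set X : ℝ := N₃ ^ (1 / 3 : ℝ) with hX
  have hX0 : 0 ≤ X := by positivity
  have hX1 : 1 ≤ X := Real.one_le_rpow hN₃1 (by norm_num)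
  have hX3 : X ^ 3 = A₃.card := rpow_third_cube hN₃0
  set D : ℝ := 128 * 162 ^ r * (r + 9) * T with hD
  have hTR : (1 : ℝ) ≤ T := by exact_mod_cast hT1
  have hD1 : 1 ≤ D := by
    have h1 : (1 : ℝ) ≤ 162 ^ r := one_le_pow₀ (by norm_num)
    have h2 : (0 : ℝ) ≤ r := by positivity
    calc (1 : ℝ) ≤ 128 * 1 * (0 + 9) * 1 := by norm_num
      _ ≤ D := by rw [hD]; gcongr
  have hDX : 1 ≤ D * X ^ 4 := by
    have : 1 ≤ X ^ 4 := one_le_pow₀ hX1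
    nlinarith
  set Z : ℝ := (D * X ^ 4) ^ (1 / 3 : ℝ) with hZ
  have hZ1 : 1 ≤ Z := Real.one_le_rpow hDX (by norm_num)
  have hZ3 : Z ^ 3 = D * X ^ 4 := rpow_third_cube (by linarith)
  set m : ℕ := ⌈Z⌉₊ with hm
  have hm0 : 0 < m := Nat.ceil_pos.2 (by linarith)
  have hmZ : Z ≤ m := Nat.le_ceil Z
  have hm2 : (m : ℝ) ≤ 2 * Z := by
    have := Nat.ceil_lt_add_one (by linarith : 0 ≤ Z)
    linarith
  obtain ⟨B, hB, hBS, hBc⟩ := core (hP.subset hA₃) (Nat.lt_pow_succ_log_self (by norm_num) H)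
    (hS.subset hA₃) hT hk1 hkpop m hm0 X hX0 hX3 (by
      calc 128 * 162 ^ r * (r + 9) * T * X ^ 4 = Z ^ 3 := hZ3.symm
        _ ≤ (m : ℝ) ^ 3 := pow_le_pow_left₀ (by linarith) hmZ 3)
  refine ⟨B, hB.trans (hA₃.trans hA₂), hBS, ?_⟩
  have hZle : Z ≤ D * N₃ ^ (4 / 9 : ℝ) := by
    have h1 : Z = D ^ (1 / 3 : ℝ) * (X ^ 4) ^ (1 / 3 : ℝ) :=
      Real.mul_rpow (by linarith) (by positivity)
    have h2 : (X ^ 4) ^ (1 / 3 : ℝ) = N₃ ^ (4 / 9 : ℝ) := by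
      rw [← Real.rpow_natCast, hX, ← Real.rpow_mul hN₃0, ← Real.rpow_mul hN₃0]
      norm_num
    have h3 : D ^ (1 / 3 : ℝ) ≤ D := by
      calc D ^ (1 / 3 : ℝ) ≤ D ^ (1 : ℝ) := Real.rpow_le_rpow_of_exponent_le hD1 (by norm_num)
        _ = D := Real.rpow_one D
    rw [h1, h2]
    gcongr
  have hB3 : N₃ ^ (5 / 9 : ℝ) ≤ 8 * (r + 1) * D * B.card := by
    have hpw : 0 < N₃ ^ (4 / 9 : ℝ) := Real.rpow_pos_of_pos (by linarith) _
    have h1 : N₃ ^ (5 / 9 : ℝ) * N₃ ^ (4 / 9 : ℝ) = N₃ := by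
      rw [← Real.rpow_add (by linarith)]
      norm_num
    have h2 : N₃ ≤ (8 * (r + 1) * D * B.card) * N₃ ^ (4 / 9 : ℝ) := by
      calc N₃ ≤ 4 * (r + 1) * m * B.card := hBc
        _ ≤ 4 * (r + 1) * (2 * (D * N₃ ^ (4 / 9 : ℝ))) * B.card := by
            gcongr
            linarith
        _ = _ := by ring
    have h3 : N₃ ^ (5 / 9 : ℝ) * N₃ ^ (4 / 9 : ℝ) ≤
        (8 * (r + 1) * D * B.card) * N₃ ^ (4 / 9 : ℝ) := by
      rw [h1]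
      exact h2
    exact le_of_mul_le_mul_right h3 hpw
  have hY1 : (1 : ℝ) ≤ (Y : ℝ) ^ (2 * r) := one_le_pow₀ (by rw [hY]; push_cast; linarith [Nat.cast_nonneg (α := ℝ) (Nat.log 2 H)])
  have hL1 : (1 : ℝ) ≤ L := by rw [hL]; exact_mod_cast Nat.succ_le_succ (Nat.zero_le _)
  have hYL : (1 : ℝ) ≤ (Y : ℝ) ^ (2 * r) * L := by nlinarith
  have hcR : (A.card : ℝ) ≤ ((Y : ℝ) ^ (2 * r) * L) * N₃ := by
    have : (A.card : ℝ) ≤ (Y : ℝ) ^ (2 * r) * (L * A₃.card) := by exact_mod_cast hc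
    rw [mul_assoc]
    exact this
  have hr4 : ((r : ℝ) + 1) * (r + 9) ≤ 9 * 4 ^ r := by exact_mod_cast nat_four_pow r
  have h676 : (4 : ℝ) ^ r * 162 ^ r ≤ 26 ^ (2 * r) := by
    rw [← mul_pow, pow_mul]
    exact pow_le_pow_left₀ (by norm_num) (by norm_num) r
  calc (A.card : ℝ) ^ (5 / 9 : ℝ) ≤ (((Y : ℝ) ^ (2 * r) * L) * N₃) ^ (5 / 9 : ℝ) :=
        Real.rpow_le_rpow (by positivity) hcR (by norm_num)
    _ = ((Y : ℝ) ^ (2 * r) * L) ^ (5 / 9 : ℝ) * N₃ ^ (5 / 9 : ℝ) :=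
        Real.mul_rpow (by positivity) hN₃0
    _ ≤ ((Y : ℝ) ^ (2 * r) * L) * N₃ ^ (5 / 9 : ℝ) := by
        gcongr
        calc ((Y : ℝ) ^ (2 * r) * L) ^ (5 / 9 : ℝ) ≤ ((Y : ℝ) ^ (2 * r) * L) ^ (1 : ℝ) :=
              Real.rpow_le_rpow_of_exponent_le hYL (by norm_num)
          _ = _ := Real.rpow_one _
    _ ≤ ((Y : ℝ) ^ (2 * r) * L) * (8 * (r + 1) * D * B.card) := by gcongr
    _ = 1024 * L * ((((r : ℝ) + 1) * (r + 9)) * 162 ^ r) * (Y : ℝ) ^ (2 * r) * T * B.card := by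
        rw [hD]; ring
    _ ≤ 1024 * L * (9 * 26 ^ (2 * r)) * (Y : ℝ) ^ (2 * r) * T * B.card := by
        have hx : ((r : ℝ) + 1) * (r + 9) * 162 ^ r ≤ 9 * 26 ^ (2 * r) := by
          calc ((r : ℝ) + 1) * (r + 9) * 162 ^ r ≤ (9 * 4 ^ r) * 162 ^ r := by gcongr
            _ = 9 * (4 ^ r * 162 ^ r) := by ring
            _ ≤ 9 * 26 ^ (2 * r) := by gcongr
        have hy : (0 : ℝ) ≤ 1024 * L := by positivity
        have hz := mul_le_mul_of_nonneg_left hx hy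
        have hw : (0 : ℝ) ≤ (Y : ℝ) ^ (2 * r) * T * B.card := by positivity
        have hv := mul_le_mul_of_nonneg_right hz hw
        linarith
    _ = _ := by
        rw [pow_one]
        push_cast
        rw [mul_pow]
        ring

end Pool.Agent.Lib.CSid
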