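import Pool.Agent.Lib.CSid.Sid

/-!
# Reduction to positive integers
-/

set_option autoImplicit false

namespace Pool.Agent.Lib.CSid

open Finset

lemma AddSidon.neg {B : Finset ℤ} (h : AddSidon B) : AddSidon (B.image (fun a => -a)) := by
  intro a ha b hb c hc d hd he
  obtain ⟨a', ha', rfl⟩ := mem_image.1 ha
  obtain ⟨b', hb', rfl⟩ := mem_image.1 hb
  obtain ⟨c', hc', rfl⟩ := mem_image.1 hc
  obtain ⟨d', hd', rfl⟩ := mem_image.1 hd
  have := h a' ha' b' hb' c' hc' d' hd' (by linarith)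
  rcases this with ⟨rfl, rfl⟩ | ⟨rfl, rfl⟩
  · exact Or.inl ⟨rfl, rfl⟩
  · exact Or.inr ⟨rfl, rfl⟩

lemma MulSidon.neg {B : Finset ℤ} (h : MulSidon B) : MulSidon (B.image (fun a => -a)) := by
  intro a ha b hb c hc d hd he
  obtain ⟨a', ha', rfl⟩ := mem_image.1 ha
  obtain ⟨b', hb', rfl⟩ := mem_image.1 hb
  obtain ⟨c', hc', rfl⟩ := mem_image.1 hc
  obtain ⟨d', hd', rfl⟩ := mem_image.1 hd
  have := h a' ha' b' hb' c' hc' d' hd' (by linarith)
  rcases this with ⟨rfl, rfl⟩ | ⟨rfl, rfl⟩
  · exact Or.inl ⟨rfl, rfl⟩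
  · exact Or.inr ⟨rfl, rfl⟩

lemma addSidon_of_card_le_one {B : Finset ℤ} (h : B.card ≤ 1) : AddSidon B := by
  intro a ha b hb c hc d hd _
  rw [card_le_one] at h
  exact Or.inl ⟨h a ha c hc, h b hb d hd⟩

/-- If a bound `|A| ≤ f |B|` is known for nonempty sets `A` of positive integers with a property closed
under subsets and negation, then `|A| ≤ 3 f |B|` holds in general. -/
theorem of_pos (P : ℤ → Prop) (hneg : ∀ a, P a → P (-a)) (R : Finset ℤ → Finset ℤ → Prop)
    (hR : ∀ A : Finset ℤ, A.Nonempty → (∀ a ∈ A, 0 < a) → (∀ a ∈ A, P a) →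
      ∃ B ⊆ A, (AddSidon B ∨ MulSidon B) ∧ R A B)
    (A : Finset ℤ) (hA : ∀ a ∈ A, P a) (hA1 : 2 ≤ A.card) :
    ∃ B ⊆ A, (AddSidon B ∨ MulSidon B) ∧
      ∃ A₁ B₁ : Finset ℤ, A₁.Nonempty ∧ A.card ≤ 3 * A₁.card ∧ A₁.card ≤ A.card ∧
        B₁.card = B.card ∧ R A₁ B₁ := by
  classical
  set Ap := A.filter (fun a => 0 < a) with hAp
  set An := (A.filter (fun a => a < 0)) with hAn
  have hcov : A.card ≤ Ap.card + An.card + 1 := by
    have h1 : A ⊆ Ap ∪ An ∪ {0} := by
      intro a ha
      rw [mem_union, mem_union, mem_singleton, hAp, hAn, mem_filter, mem_filter]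
      rcases lt_trichotomy a 0 with h | h | h
      · left; right; exact ⟨ha, h⟩
      · right; exact h
      · left; left; exact ⟨ha, h⟩
    have h2 := card_le_card h1
    have h3 := card_union_le (Ap ∪ An) {0}
    have h4 := card_union_le Ap An
    rw [card_singleton] at h3
    omega
  rcases le_total An.card Ap.card with h | h
  · have hne : Ap.Nonempty := card_pos.1 (by omega)
    obtain ⟨B, hB, hBS, hBR⟩ := hR Ap hne (fun a ha => (mem_filter.1 ha).2)
      (fun a ha => hA a (mem_filter.1 ha).1)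
    exact ⟨B, hB.trans (filter_subset _ _), hBS, Ap, B, hne, by omega,
      card_le_card (filter_subset _ _), rfl, hBR⟩
  · set A₁ := An.image (fun a => -a) with hA₁
    have hc1 : A₁.card = An.card := card_image_of_injective _ neg_injective
    have hne : A₁.Nonempty := card_pos.1 (by omega)
    obtain ⟨B, hB, hBS, hBR⟩ := hR A₁ hne (fun a ha => by
        obtain ⟨b, hb, rfl⟩ := mem_image.1 ha
        have := (mem_filter.1 hb).2
        omega)
      (fun a ha => by
        obtain ⟨b, hb, rfl⟩ := mem_image.1 ha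
        exact hneg b (hA b (mem_filter.1 hb).1))
    refine ⟨B.image (fun a => -a), ?_, ?_, A₁, B, hne, by omega, ?_, ?_, hBR⟩
    · intro a ha
      obtain ⟨b, hb, rfl⟩ := mem_image.1 ha
      obtain ⟨c, hc, rfl⟩ := mem_image.1 (hB hb)
      rw [neg_neg]
      exact (mem_filter.1 hc).1
    · rcases hBS with h | h
      · exact Or.inl h.neg
      · exact Or.inr h.neg
    · rw [hc1]
      exact card_le_card (filter_subset _ _)
    · exact (card_image_of_injective _ neg_injective).symm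

end Pool.Agent.Lib.CSid
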