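import Pool.Agent.Lib.CSid.Main35
import Pool.Agent.Lib.CSid.Main59
import Pool.Agent.Lib.CSid.Neg
import Pool.Agent.Lib.P5632c9.DivBound

/-!
# Large Sidon subsets of sets covered by few dilates of an interval
-/

set_option autoImplicit false

namespace Pool.Agent.Lib.CSid

open Finset

/-- from positive sets and natural parameters to the general case -/
theorem wrap (θ : ℝ) (hθ0 : 0 < θ) (hθ1 : θ ≤ 1) (K : ℕ) (hK : 1 ≤ K) (b : ℕ) (hb : 1 ≤ b)
    (α : ℕ → ℕ)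
    (hyp : ∀ (r H : ℕ) (P : ℤ → Prop), GoodP r H P → ∀ T : ℕ, 1 ≤ T →
      (∀ n : ℕ, 1 ≤ n → n ≤ H ^ 2 → n.divisors.card ≤ T) → ∀ A : Finset ℤ, A.Nonempty →
      (∀ a ∈ A, 0 < a) → (∀ a ∈ A, P a) →
      ∃ B ⊆ A, (AddSidon B ∨ MulSidon B) ∧ (A.card : ℝ) ^ θ ≤
        K * ((Nat.log 2 A.card + 1 : ℕ) : ℝ) ^ α r *
          (b * (Nat.log 2 H + 1 : ℕ)) ^ (2 * r) * T * B.card)
    (ε : ℝ) (hε : 0 < ε) : ∃ c : ℝ, 0 < c ∧ ∀ (r : ℕ) (H : ℝ), 1 ≤ H → ∀ P : ℤ → Prop,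
    GoodP r ⌊H⌋₊ P → ∀ A : Finset ℤ, (∀ a ∈ A, P a) →
    ∃ B ⊆ A, (AddSidon B ∨ MulSidon B) ∧
      c * H ^ (-ε) * (A.card : ℝ) ^ θ /
        (Real.logb 2 (2 * A.card) ^ α r * (b * Real.logb 2 (2 * H)) ^ (2 * r)) ≤ B.card := by
  classical
  obtain ⟨C, hC1, hC⟩ := P5632c9.card_divisors_le (ε / 2) (by linarith)
  have hKR : (1 : ℝ) ≤ K := by exact_mod_cast hK
  have hbR : (1 : ℝ) ≤ b := by exact_mod_cast hb
  refine ⟨1 / (3 * K * C), by positivity, ?_⟩
  intro r H hH P hG A hA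
  have hH0 : 0 < H := by linarith
  set H' : ℕ := ⌊H⌋₊ with hH'
  have hH'1 : 1 ≤ H' := Nat.le_floor (by exact_mod_cast hH)
  have hH'le : (H' : ℝ) ≤ H := Nat.floor_le hH0.le
  set T : ℕ := ⌊C * H ^ ε⌋₊ with hTdef
  have hHε1 : 1 ≤ H ^ ε := Real.one_le_rpow hH hε.le
  have hT1 : 1 ≤ T := Nat.le_floor (by push_cast; nlinarith)
  have hTle : (T : ℝ) ≤ C * H ^ ε := Nat.floor_le (by positivity)
  have hT : ∀ n : ℕ, 1 ≤ n → n ≤ H' ^ 2 → n.divisors.card ≤ T := by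
    intro n hn1 hn2
    apply Nat.le_floor
    refine (hC n (by omega)).trans ?_
    have h1 : (n : ℝ) ≤ H ^ 2 := by
      calc (n : ℝ) ≤ (H' : ℝ) ^ 2 := by exact_mod_cast hn2
        _ ≤ H ^ 2 := pow_le_pow_left₀ (by positivity) hH'le 2
    have h2 : (n : ℝ) ^ (ε / 2) ≤ H ^ ε := by
      calc (n : ℝ) ^ (ε / 2) ≤ (H ^ 2) ^ (ε / 2) :=
            Real.rpow_le_rpow (by positivity) h1 (by linarith)
        _ = H ^ ε := by
            rw [← Real.rpow_natCast, ← Real.rpow_mul hH0.le]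
            congr 1
            push_cast
            ring
    gcongr
  have hY : ((Nat.log 2 H' + 1 : ℕ) : ℝ) ≤ Real.logb 2 (2 * H) := by
    rw [Real.logb_mul (by norm_num) hH0.ne', Real.logb_self_eq_one (by norm_num)]
    push_cast
    have h1 : ((Nat.log 2 H' : ℕ) : ℝ) ≤ Real.logb 2 H := by
      rw [Real.le_logb_iff_rpow_le (by norm_num) hH0, Real.rpow_natCast]
      have h2 : 2 ^ Nat.log 2 H' ≤ H' := Nat.pow_log_le_self 2 (by omega)
      calc (2 : ℝ) ^ Nat.log 2 H' ≤ H' := by exact_mod_cast h2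
        _ ≤ H := hH'le
    linarith
  have hY1 : (1 : ℝ) ≤ Real.logb 2 (2 * H) := by
    refine le_trans ?_ hY
    push_cast
    linarith [Nat.cast_nonneg (α := ℝ) (Nat.log 2 H')]
  have hbY : (1 : ℝ) ≤ b * Real.logb 2 (2 * H) := by nlinarith
  have hden1 : 1 ≤ (b * Real.logb 2 (2 * H)) ^ (2 * r) := one_le_pow₀ hbY
  -- small sets
  rcases Nat.lt_or_ge A.card 2 with hsmall | hbig
  · refine ⟨A, Subset.refl _, Or.inl (addSidon_of_card_le_one (by omega)), ?_⟩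
    rcases Nat.eq_zero_or_pos A.card with h0 | h0
    · rw [h0]
      simp [Real.zero_rpow hθ0.ne']
    · have h1 : A.card = 1 := by omega
      rw [h1]
      simp only [Nat.cast_one, Real.one_rpow, mul_one]
      rw [Real.logb_self_eq_one (by norm_num), one_pow, one_mul, div_le_one (by linarith)]
      have e1 : H ^ (-ε) ≤ 1 := Real.rpow_le_one_of_one_le_of_nonpos hH (by linarith)
      have e2 : 1 / (3 * K * C) ≤ 1 := by
        rw [div_le_one (by positivity)]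
        nlinarith
      have e3 : 0 ≤ H ^ (-ε) := by positivity
      nlinarith
  · obtain ⟨B, hB, hBS, A₁, B₁, hne, hc1, hc2, hc3, hR⟩ := of_pos P hG.1
      (fun A B => (A.card : ℝ) ^ θ ≤
        K * ((Nat.log 2 A.card + 1 : ℕ) : ℝ) ^ α r *
          (b * (Nat.log 2 H' + 1 : ℕ)) ^ (2 * r) * T * B.card)
      (fun A hne hpos hA => hyp r H' P hG T hT1 hT A hne hpos hA) A hA hbig
    refine ⟨B, hB, hBS, ?_⟩
    have hN0 : (0 : ℝ) < A.card := by exact_mod_cast (by omega : 0 < A.card)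
    have hL : ((Nat.log 2 A₁.card + 1 : ℕ) : ℝ) ≤ Real.logb 2 (2 * A.card) := by
      rw [Real.logb_mul (by norm_num) hN0.ne', Real.logb_self_eq_one (by norm_num)]
      push_cast
      have h1 : ((Nat.log 2 A₁.card : ℕ) : ℝ) ≤ Real.logb 2 A.card := by
        rw [Real.le_logb_iff_rpow_le (by norm_num) hN0, Real.rpow_natCast]
        have h2 : 2 ^ Nat.log 2 A₁.card ≤ A₁.card :=
          Nat.pow_log_le_self 2 (card_pos.2 hne).ne'
        exact_mod_cast h2.trans hc2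
      linarith
    have hL1 : (1 : ℝ) ≤ Real.logb 2 (2 * A.card) := by
      refine le_trans ?_ hL
      push_cast
      linarith [Nat.cast_nonneg (α := ℝ) (Nat.log 2 A₁.card)]
    have hden : 0 < Real.logb 2 (2 * A.card) ^ α r * (b * Real.logb 2 (2 * H)) ^ (2 * r) := by
      positivity
    rw [div_le_iff₀ hden]
    have h3 : (A.card : ℝ) ^ θ ≤ 3 * (A₁.card : ℝ) ^ θ := by
      have e1 : (A.card : ℝ) ≤ 3 * A₁.card := by exact_mod_cast hc1
      calc (A.card : ℝ) ^ θ ≤ (3 * (A₁.card : ℝ)) ^ θ :=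
            Real.rpow_le_rpow (by positivity) e1 hθ0.le
        _ = 3 ^ θ * (A₁.card : ℝ) ^ θ :=
            Real.mul_rpow (by norm_num) (by positivity)
        _ ≤ 3 * (A₁.card : ℝ) ^ θ := by
            gcongr
            calc (3 : ℝ) ^ θ ≤ 3 ^ (1 : ℝ) :=
                  Real.rpow_le_rpow_of_exponent_le (by norm_num) hθ1
              _ = 3 := Real.rpow_one 3
    have h4 : (A₁.card : ℝ) ^ θ ≤ K * Real.logb 2 (2 * A.card) ^ α r *
        (b * Real.logb 2 (2 * H)) ^ (2 * r) * (C * H ^ ε) * B.card := by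
      refine hR.trans ?_
      rw [hc3]
      gcongr
    have h5 : H ^ (-ε) * H ^ ε = 1 := by
      rw [← Real.rpow_add hH0, neg_add_cancel, Real.rpow_zero]
    have h6 : 0 ≤ H ^ (-ε) := by positivity
    calc 1 / (3 * K * C) * H ^ (-ε) * (A.card : ℝ) ^ θ
        ≤ 1 / (3 * K * C) * H ^ (-ε) * (3 * (K * Real.logb 2 (2 * A.card) ^ α r *
          (b * Real.logb 2 (2 * H)) ^ (2 * r) * (C * H ^ ε) * B.card)) := by
          gcongr
          exact h3.trans (mul_le_mul_of_nonneg_left h4 (by norm_num))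
      _ = (H ^ (-ε) * H ^ ε) * (B.card * (Real.logb 2 (2 * A.card) ^ α r *
          (b * Real.logb 2 (2 * H)) ^ (2 * r))) := by
          field_simp
      _ = _ := by rw [h5, one_mul]

/-- sets covered by few dilates of an interval -/
theorem final (ε : ℝ) (hε : 0 < ε) : ∃ c : ℝ, 0 < c ∧ ∀ (r : ℕ) (H : ℝ), 1 ≤ H →
    ∀ P : ℤ → Prop, GoodP r ⌊H⌋₊ P → ∀ A : Finset ℤ, (∀ a ∈ A, P a) →
    (∃ B ⊆ A, (AddSidon B ∨ MulSidon B) ∧
      c * H ^ (-ε) * (A.card : ℝ) ^ (3 / 5 : ℝ) /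
        (Real.logb 2 (2 * A.card) ^ (2 ^ (r + 1) + 1) *
          (126 * Real.logb 2 (2 * H)) ^ (2 * r)) ≤ B.card) ∧
    (∃ B ⊆ A, (AddSidon B ∨ MulSidon B) ∧
      c * H ^ (-ε) * (A.card : ℝ) ^ (5 / 9 : ℝ) /
        (Real.logb 2 (2 * A.card) * (26 * Real.logb 2 (2 * H)) ^ (2 * r)) ≤ B.card) := by
  obtain ⟨c1, hc1, h1⟩ := wrap (3 / 5) (by norm_num) (by norm_num) 18432 (by norm_num) 126
    (by norm_num) (fun r => 2 ^ (r + 1) + 1)
    (fun r H P hG T hT1 hT A hne hpos hA => pos35 hG T hT1 hT A hne hpos hA) ε hε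
  obtain ⟨c2, hc2, h2⟩ := wrap (5 / 9) (by norm_num) (by norm_num) 9216 (by norm_num) 26
    (by norm_num) (fun _ => 1)
    (fun r H P hG T hT1 hT A hne hpos hA => pos59 hG T hT1 hT A hne hpos hA) ε hε
  refine ⟨min c1 c2, lt_min hc1 hc2, ?_⟩
  intro r H hH P hG A hA
  have hH0 : 0 < H := by linarith
  have hlH : (1 : ℝ) ≤ Real.logb 2 (2 * H) := by
    rw [Real.logb_mul (by norm_num) hH0.ne', Real.logb_self_eq_one (by norm_num)]
    have := Real.logb_nonneg (b := 2) (by norm_num) hH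
    linarith
  have hlA : (0 : ℝ) ≤ Real.logb 2 (2 * A.card) := by
    rcases Nat.eq_zero_or_pos A.card with h0 | h0
    · rw [h0]
      simp
    · apply Real.logb_nonneg (by norm_num)
      have : (1 : ℝ) ≤ A.card := by exact_mod_cast h0
      linarith
  constructor
  · obtain ⟨B, hB, hBS, hBc⟩ := h1 r H hH P hG A hA
    refine ⟨B, hB, hBS, le_trans ?_ hBc⟩
    push_cast
    gcongr
    exact min_le_left _ _
  · obtain ⟨B, hB, hBS, hBc⟩ := h2 r H hH P hG A hA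
    refine ⟨B, hB, hBS, le_trans ?_ hBc⟩
    push_cast
    rw [pow_one]
    gcongr
    exact min_le_right _ _

end Pool.Agent.Lib.CSid
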