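import Pool.Agent.Lib.CSid.Sid

/-!
# Additive Sidon subsets of sets of bounded integers

Erdős and Turán's Sidon sets, reduction modulo a suitable number of size `|V|`, and colourings with
few colours all of whose classes are Sidon.
-/

set_option autoImplicit false

namespace Pool.Agent.Lib.CSid

open Finset

/-- the Erdős–Turán function -/
def et (p i : ℕ) : ℕ := 2 * p * i + i ^ 2 % p

lemma et_sidon {p : ℕ} (hp : p.Prime) (hp2 : 2 < p) {i j k l : ℕ} (hi : i < p) (hj : j < p)
    (hk : k < p) (hl : l < p) (h : et p i + et p j = et p k + et p l) :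
    (i = k ∧ j = l) ∨ (i = l ∧ j = k) := by
  unfold et at h
  have m1 := Nat.mod_lt (i ^ 2) (by omega : 0 < p)
  have m2 := Nat.mod_lt (j ^ 2) (by omega : 0 < p)
  have m3 := Nat.mod_lt (k ^ 2) (by omega : 0 < p)
  have m4 := Nat.mod_lt (l ^ 2) (by omega : 0 < p)
  have h1 : i + j = k + l := by
    clear hp hp2 hi hj hk hl
    generalize i ^ 2 % p = r1 at *
    generalize j ^ 2 % p = r2 at *
    generalize k ^ 2 % p = r3 at *
    generalize l ^ 2 % p = r4 at *
    by_contra hne
    rcases lt_or_gt_of_ne hne with h2 | h2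
    · have : 2 * p * (i + j + 1) ≤ 2 * p * (k + l) := Nat.mul_le_mul_left _ (by omega)
      nlinarith
    · have : 2 * p * (k + l + 1) ≤ 2 * p * (i + j) := Nat.mul_le_mul_left _ (by omega)
      nlinarith
  have h2 : i ^ 2 % p + j ^ 2 % p = k ^ 2 % p + l ^ 2 % p := by
    have : 2 * p * (i + j) = 2 * p * (k + l) := by rw [h1]
    nlinarith
  have h3 : (p : ℤ) ∣ ((i : ℤ) ^ 2 + (j : ℤ) ^ 2) - ((k : ℤ) ^ 2 + (l : ℤ) ^ 2) := by
    have e1 : (i ^ 2 + j ^ 2) % p = (k ^ 2 + l ^ 2) % p := by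
      rw [Nat.add_mod, h2, ← Nat.add_mod]
    have e2 : ((i ^ 2 + j ^ 2 : ℕ) : ℤ) ≡ ((k ^ 2 + l ^ 2 : ℕ) : ℤ) [ZMOD p] :=
      (Int.natCast_modEq_iff).2 e1
    have e3 := e2.symm.dvd
    push_cast at e3
    exact e3
  have hpp : Prime (p : ℤ) := Nat.prime_iff_prime_int.1 hp
  have h4 : (p : ℤ) ∣ 2 * (((i : ℤ) - k) * ((i : ℤ) - l)) := by
    have e1 : (i : ℤ) + j = k + l := by exact_mod_cast h1
    have e2 : (j : ℤ) = k + l - i := by linarith
    have e3 : 2 * (((i : ℤ) - k) * ((i : ℤ) - l)) =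
        ((i : ℤ) ^ 2 + (j : ℤ) ^ 2) - ((k : ℤ) ^ 2 + (l : ℤ) ^ 2) := by
      rw [e2]; ring
    rw [e3]
    exact h3
  have h5 : ¬ (p : ℤ) ∣ 2 := by
    intro h6
    have := Int.le_of_dvd (by norm_num) h6
    omega
  rcases hpp.dvd_or_dvd h4 with h6 | h6
  · exact absurd h6 h5
  · rcases hpp.dvd_or_dvd h6 with h7 | h7
    · left
      have e1 : (i : ℤ) - k = 0 := by
        apply Int.eq_zero_of_abs_lt_dvd h7
        rw [abs_lt]
        constructor <;> omega
      omega
    · right
      have e1 : (i : ℤ) - l = 0 := by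
        apply Int.eq_zero_of_abs_lt_dvd h7
        rw [abs_lt]
        constructor <;> omega
      omega

/-- a Sidon set modulo `q` of size `≥ √q / 8` -/
theorem exists_sidon_mod (q : ℕ) (hq : 0 < q) : ∃ S : Finset ℕ, (∀ x ∈ S, x < q) ∧
    (∀ a ∈ S, ∀ b ∈ S, ∀ c ∈ S, ∀ d ∈ S, (a + b) % q = (c + d) % q →
      (a = c ∧ b = d) ∨ (a = d ∧ b = c)) ∧ q ≤ 64 * S.card ^ 2 := by
  rcases Nat.lt_or_ge q 64 with hsmall | hbig
  · refine ⟨{0}, by simpa using hq, ?_, ?_⟩
    · intro a ha b hb c hc d hd _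
      rw [mem_singleton] at ha hb hc hd
      left
      rw [ha, hb, hc, hd]
      exact ⟨rfl, rfl⟩
    · rw [card_singleton]
      omega
  · set t := Nat.sqrt q with ht
    have ht1 : t * t ≤ q := Nat.sqrt_le q
    have ht2 : q < (t + 1) * (t + 1) := Nat.lt_succ_sqrt q
    have ht8 : 8 ≤ t := by
      by_contra hcon
      push Not at hcon
      have : (t + 1) * (t + 1) ≤ 8 * 8 := Nat.mul_le_mul (by omega) (by omega)
      omega
    obtain ⟨p, hp, hp1, hp2⟩ := Nat.exists_prime_lt_and_le_two_mul (t / 4) (by omega)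
    have hp3 : 2 < p := by omega
    have hp4 : 4 * p ^ 2 ≤ q := by
      have h1 : 2 * p ≤ t := by omega
      have h2 : (2 * p) * (2 * p) ≤ t * t := Nat.mul_le_mul h1 h1
      nlinarith
    have hp5 : t + 1 ≤ 4 * p := by omega
    have hlt : ∀ i < p, 2 * et p i < q := by
      intro i hi
      unfold et
      have m1 := Nat.mod_lt (i ^ 2) (by omega : 0 < p)
      have m2 : p * i ≤ p * (p - 1) := Nat.mul_le_mul_left _ (by omega)
      have m3 : p * (p - 1) + p = p ^ 2 := by
        obtain ⟨s, rfl⟩ : ∃ s, p = s + 1 := ⟨p - 1, by omega⟩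
        simp only [Nat.add_sub_cancel]
        ring
      nlinarith
    have hinj : Set.InjOn (et p) (range p) := by
      intro i hi j hj hij
      rw [mem_coe, mem_range] at hi hj
      have := et_sidon hp hp3 hi hi hj hj (by rw [hij])
      rcases this with h | h
      · exact h.1
      · exact h.1
    refine ⟨(range p).image (et p), ?_, ?_, ?_⟩
    · intro x hx
      obtain ⟨i, hi, rfl⟩ := mem_image.1 hx
      have := hlt i (mem_range.1 hi)
      omega
    · intro a ha b hb c hc d hd h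
      obtain ⟨i, hi, rfl⟩ := mem_image.1 ha
      obtain ⟨j, hj, rfl⟩ := mem_image.1 hb
      obtain ⟨k, hk, rfl⟩ := mem_image.1 hc
      obtain ⟨l, hl, rfl⟩ := mem_image.1 hd
      rw [mem_range] at hi hj hk hl
      have e1 := hlt i hi
      have e2 := hlt j hj
      have e3 := hlt k hk
      have e4 := hlt l hl
      rw [Nat.mod_eq_of_lt (by omega), Nat.mod_eq_of_lt (by omega)] at h
      rcases et_sidon hp hp3 hi hj hk hl h with ⟨rfl, rfl⟩ | ⟨rfl, rfl⟩
      · exact Or.inl ⟨rfl, rfl⟩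
      · exact Or.inr ⟨rfl, rfl⟩
    · rw [card_image_of_injOn hinj, card_range]
      have : (t + 1) * (t + 1) ≤ (4 * p) * (4 * p) := Nat.mul_le_mul hp5 hp5
      nlinarith

/-- a modulus with few collisions -/
lemma exists_modulus (H T : ℕ) (hT : ∀ n : ℕ, 1 ≤ n → n ≤ H → n.divisors.card ≤ T)
    (V : Finset ℕ) (hV : ∀ x ∈ V, 1 ≤ x ∧ x ≤ H) (hne : V.Nonempty) :
    ∃ q, V.card ≤ q ∧ q < 2 * V.card ∧
      ((V ×ˢ V).filter (fun s => s.1 % q = s.2 % q)).card ≤ V.card * (1 + T) := by
  set k := V.card with hk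
  have hk0 : 0 < k := card_pos.2 hne
  set f : ℕ → ℕ := fun q => ((V ×ˢ V).filter (fun s => s.1 % q = s.2 % q)).card with hf
  have hsum : ∑ q ∈ Ico k (2 * k), f q ≤ ∑ q ∈ Ico k (2 * k), k * (1 + T) := by
    have h1 : ∑ q ∈ Ico k (2 * k), f q = ∑ s ∈ V ×ˢ V,
        ((Ico k (2 * k)).filter (fun q => s.1 % q = s.2 % q)).card := by
      rw [hf]
      simp only [card_filter]
      rw [sum_comm]
    have h2 : ∀ s ∈ V ×ˢ V, ((Ico k (2 * k)).filter (fun q => s.1 % q = s.2 % q)).card ≤
        (if s.1 = s.2 then k else 0) + T := by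
      intro s hs
      rw [mem_product] at hs
      by_cases h : s.1 = s.2
      · rw [if_pos h]
        refine (card_filter_le _ _).trans ?_
        rw [Nat.card_Ico]
        omega
      · rw [if_neg h, zero_add]
        have a1 := hV _ hs.1
        have a2 := hV _ hs.2
        set n : ℕ := ((s.1 : ℤ) - s.2).natAbs with hn
        have hn1 : 1 ≤ n := by omega
        have hn2 : n ≤ H := by omega
        refine le_trans (card_le_card ?_) (hT n hn1 hn2)
        intro q hq
        rw [mem_filter] at hq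
        rw [Nat.mem_divisors]
        refine ⟨?_, by omega⟩
        have h3 : (q : ℤ) ∣ (s.1 : ℤ) - s.2 := by
          have : ((s.2 : ℕ) : ℤ) ≡ ((s.1 : ℕ) : ℤ) [ZMOD q] :=
            (Int.natCast_modEq_iff).2 hq.2.symm
          exact this.dvd
        rw [hn, ← Int.natCast_dvd]
        exact h3
    have h3 : ∑ s ∈ V ×ˢ V, ((if s.1 = s.2 then k else 0) + T) = k * k + k * k * T := by
      rw [sum_add_distrib, sum_const, card_product, smul_eq_mul, sum_product]
      congr 1
      have : ∀ x ∈ V, ∑ y ∈ V, (if x = y then k else 0) = k := by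
        intro x hx
        rw [sum_ite_eq V x, if_pos hx]
      rw [sum_congr rfl this, sum_const, smul_eq_mul]
    rw [h1, sum_const, Nat.card_Ico, smul_eq_mul]
    calc ∑ s ∈ V ×ˢ V, ((Ico k (2 * k)).filter (fun q => s.1 % q = s.2 % q)).card
        ≤ ∑ s ∈ V ×ˢ V, ((if s.1 = s.2 then k else 0) + T) := sum_le_sum h2
      _ = k * k + k * k * T := h3
      _ = (2 * k - k) * (k * (1 + T)) := by
          have : 2 * k - k = k := by omega
          rw [this]
          ring
  obtain ⟨q, hq, h⟩ := exists_le_of_sum_le (⟨k, mem_Ico.2 ⟨le_rfl, by omega⟩⟩) hsum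
  rw [mem_Ico] at hq
  exact ⟨q, hq.1, hq.2, h⟩

theorem exists_sidon_subset_nat (H T : ℕ)
    (hT : ∀ n : ℕ, 1 ≤ n → n ≤ H → n.divisors.card ≤ T)
    (V : Finset ℕ) (hV : ∀ x ∈ V, 1 ≤ x ∧ x ≤ H) :
    ∃ B ⊆ V, (∀ a ∈ B, ∀ b ∈ B, ∀ c ∈ B, ∀ d ∈ B, a + b = c + d →
      (a = c ∧ b = d) ∨ (a = d ∧ b = c)) ∧ V.card ≤ 128 * (1 + T) ^ 2 * B.card ^ 2 := by
  rcases V.eq_empty_or_nonempty with rfl | hne
  · exact ⟨∅, Subset.refl _, by simp, by simp⟩
  obtain ⟨q, hq1, hq2, hcoll⟩ := exists_modulus H T hT V hV hne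
  set k := V.card with hk
  have hk0 : 0 < k := card_pos.2 hne
  have hq0 : 0 < q := by omega
  obtain ⟨S, hS1, hS2, hS3⟩ := exists_sidon_mod q hq0
  set R := V.image (fun x => x % q) with hR
  have hRk : k ≤ R.card * (1 + T) := by
    have h1 : k = ∑ ρ ∈ R, (V.filter (fun x => x % q = ρ)).card := card_eq_sum_card_image _ _
    have h2 : (∑ ρ ∈ R, (V.filter (fun x => x % q = ρ)).card) ^ 2 ≤
        R.card * ∑ ρ ∈ R, (V.filter (fun x => x % q = ρ)).card ^ 2 := sq_sum_le_card_mul_sum_sq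
    have h3 : ∑ ρ ∈ R, (V.filter (fun x => x % q = ρ)).card ^ 2 ≤
        ((V ×ˢ V).filter (fun s => s.1 % q = s.2 % q)).card := by
      have hm : ∀ s ∈ (V ×ˢ V).filter (fun s => s.1 % q = s.2 % q), s.1 % q ∈ R := by
        intro s hs
        rw [mem_filter, mem_product] at hs
        exact mem_image_of_mem _ hs.1.1
      rw [card_eq_sum_card_fiberwise hm]
      refine sum_le_sum fun ρ _ => ?_
      rw [sq, ← card_product]
      apply card_le_card
      intro s hs
      rw [mem_product, mem_filter, mem_filter] at hs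
      rw [mem_filter, mem_filter, mem_product]
      exact ⟨⟨⟨hs.1.1, hs.2.1⟩, hs.1.2.trans hs.2.2.symm⟩, hs.1.2⟩
    rw [← h1] at h2
    have h4 : k ^ 2 ≤ R.card * (k * (1 + T)) :=
      h2.trans (Nat.mul_le_mul_left _ (h3.trans hcoll))
    have h5 : k * k ≤ k * (R.card * (1 + T)) := by
      calc k * k = k ^ 2 := by ring
        _ ≤ R.card * (k * (1 + T)) := h4
        _ = _ := by ring
    exact Nat.le_of_mul_le_mul_left h5 hk0
  have hRq : ∀ ρ ∈ R, ρ < q := by
    intro ρ hρ
    obtain ⟨x, _, rfl⟩ := mem_image.1 hρ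
    exact Nat.mod_lt _ hq0
  -- a good shift
  obtain ⟨s, -, hs⟩ : ∃ s ∈ range q, R.card * S.card ≤
      q * (R.filter (fun ρ => (ρ + s) % q ∈ S)).card := by
    by_contra hcon
    push Not at hcon
    have h1 : ∑ s ∈ range q, q * (R.filter (fun ρ => (ρ + s) % q ∈ S)).card <
        ∑ s ∈ range q, R.card * S.card :=
      sum_lt_sum_of_nonempty ⟨0, mem_range.2 hq0⟩ hcon
    have h2 : ∑ s ∈ range q, (R.filter (fun ρ => (ρ + s) % q ∈ S)).card = R.card * S.card := by
      simp only [card_filter]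
      rw [sum_comm, ← smul_eq_mul, ← sum_const]
      refine sum_congr rfl fun ρ hρ => ?_
      rw [← card_filter]
      have hρq := hRq ρ hρ
      apply card_bij (fun s _ => (ρ + s) % q)
      · intro s hs
        exact (mem_filter.1 hs).2
      · intro s hs s' hs' h
        rw [mem_filter, mem_range] at hs hs'
        have h3 : s ≡ s' [MOD q] := Nat.ModEq.add_left_cancel' ρ h
        exact Nat.ModEq.eq_of_lt_of_lt h3 hs.1 hs'.1
      · intro x hx
        have hxq := hS1 x hx
        refine ⟨(x + (q - ρ)) % q, ?_, ?_⟩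
        · rw [mem_filter, mem_range]
          refine ⟨Nat.mod_lt _ hq0, ?_⟩
          have : (ρ + (x + (q - ρ)) % q) % q = x := by
            rw [Nat.add_mod_mod]
            have : ρ + (x + (q - ρ)) = x + q := by omega
            rw [this, Nat.add_mod_right, Nat.mod_eq_of_lt hxq]
          rw [this]
          exact hx
        · rw [Nat.add_mod_mod]
          have : ρ + (x + (q - ρ)) = x + q := by omega
          rw [this, Nat.add_mod_right, Nat.mod_eq_of_lt hxq]
    rw [← mul_sum, h2, sum_const, card_range, smul_eq_mul] at h1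
    exact lt_irrefl _ h1
  set Rs := R.filter (fun ρ => (ρ + s) % q ∈ S) with hRs
  have hpick : ∀ ρ ∈ Rs, ∃ x ∈ V, x % q = ρ := by
    intro ρ hρ
    obtain ⟨x, hx, h⟩ := mem_image.1 (mem_filter.1 hρ).1
    exact ⟨x, hx, h⟩
  choose! pick hp1 hp2 using hpick
  have hinj : Set.InjOn pick Rs := by
    intro ρ hρ ρ' hρ' h
    rw [← hp2 ρ hρ, ← hp2 ρ' hρ', h]
  refine ⟨Rs.image pick, ?_, ?_, ?_⟩
  · intro x hx
    obtain ⟨ρ, hρ, rfl⟩ := mem_image.1 hx
    exact hp1 ρ hρ
  · intro a ha b hb c hc d hd h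
    obtain ⟨α, hα, rfl⟩ := mem_image.1 ha
    obtain ⟨β, hβ, rfl⟩ := mem_image.1 hb
    obtain ⟨γ, hγ, rfl⟩ := mem_image.1 hc
    obtain ⟨δ, hδ, rfl⟩ := mem_image.1 hd
    have e1 : (α + β) % q = (γ + δ) % q := by
      rw [← hp2 α hα, ← hp2 β hβ, ← hp2 γ hγ, ← hp2 δ hδ, ← Nat.add_mod, ← Nat.add_mod, h]
    have e2 : ((α + s) % q + (β + s) % q) % q = ((γ + s) % q + (δ + s) % q) % q := by
      rw [← Nat.add_mod, ← Nat.add_mod]
      have f1 : α + s + (β + s) = (α + β) + (s + s) := by ring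
      have f2 : γ + s + (δ + s) = (γ + δ) + (s + s) := by ring
      rw [f1, f2, Nat.add_mod, e1, ← Nat.add_mod]
    have hcanc : ∀ x ∈ Rs, ∀ y ∈ Rs, (x + s) % q = (y + s) % q → x = y := by
      intro x hx y hy hxy
      have h3 : x ≡ y [MOD q] := Nat.ModEq.add_right_cancel' s hxy
      exact Nat.ModEq.eq_of_lt_of_lt h3 (hRq x (mem_filter.1 hx).1) (hRq y (mem_filter.1 hy).1)
    rcases hS2 _ (mem_filter.1 hα).2 _ (mem_filter.1 hβ).2 _ (mem_filter.1 hγ).2 _
      (mem_filter.1 hδ).2 e2 with ⟨g1, g2⟩ | ⟨g1, g2⟩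
    · left
      rw [hcanc α hα γ hγ g1, hcanc β hβ δ hδ g2]
      exact ⟨rfl, rfl⟩
    · right
      rw [hcanc α hα δ hδ g1, hcanc β hβ γ hγ g2]
      exact ⟨rfl, rfl⟩
  · rw [card_image_of_injOn hinj]
    set b := Rs.card with hb
    -- R * S ≤ q b,  q ≤ 64 S²,  k ≤ R (1 + T),  q < 2k
    have h1 : (R.card * S.card) ^ 2 ≤ (q * b) ^ 2 := Nat.pow_le_pow_left hs 2
    have h2 : R.card ^ 2 * q ≤ 64 * (q * b) ^ 2 := by
      calc R.card ^ 2 * q ≤ R.card ^ 2 * (64 * S.card ^ 2) := Nat.mul_le_mul_left _ hS3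
        _ = 64 * (R.card * S.card) ^ 2 := by ring
        _ ≤ _ := Nat.mul_le_mul_left _ h1
    have h3 : R.card ^ 2 ≤ 64 * q * b ^ 2 := by
      have : q * R.card ^ 2 ≤ q * (64 * q * b ^ 2) := by
        calc q * R.card ^ 2 = R.card ^ 2 * q := by ring
          _ ≤ 64 * (q * b) ^ 2 := h2
          _ = _ := by ring
      exact Nat.le_of_mul_le_mul_left this hq0
    have h4 : k ^ 2 ≤ (R.card * (1 + T)) ^ 2 := Nat.pow_le_pow_left hRk 2
    have h5 : k * k ≤ k * (128 * (1 + T) ^ 2 * b ^ 2) := by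
      calc k * k = k ^ 2 := by ring
        _ ≤ (R.card * (1 + T)) ^ 2 := h4
        _ = R.card ^ 2 * (1 + T) ^ 2 := by ring
        _ ≤ (64 * q * b ^ 2) * (1 + T) ^ 2 := Nat.mul_le_mul_right _ h3
        _ ≤ (64 * (2 * k) * b ^ 2) * (1 + T) ^ 2 := by gcongr
        _ = _ := by ring
    exact Nat.le_of_mul_le_mul_left h5 hk0

/-- colourings with Sidon classes, from Sidon subsets of all subsets -/
theorem exists_colouring (K : ℕ) (hK : 1 ≤ K) : ∀ (n : ℕ) (V : Finset ℤ), V.card = n →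
    (∀ W ⊆ V, ∃ B ⊆ W, AddSidon B ∧ W.card ≤ K * B.card ^ 2) →
    ∀ m : ℕ, 4 * K * V.card ≤ m ^ 2 → ∃ col : ℤ → ℕ, (∀ a ∈ V, col a < m) ∧
      ∀ c, AddSidon (V.filter (fun a => col a = c)) := by
  intro n
  induction n using Nat.strong_induction_on with
  | _ n ih =>
    intro V hn hV m hm
    rcases V.eq_empty_or_nonempty with rfl | hne
    · exact ⟨fun _ => 0, by simp, fun c => by
        intro a ha
        simp at ha⟩
    have hn0 : 0 < V.card := card_pos.2 hne
    obtain ⟨B, hB, hBS, hBc⟩ := hV V (Subset.refl _)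
    have hb0 : 0 < B.card := by
      rcases Nat.eq_zero_or_pos B.card with h | h
      · rw [h, zero_pow (by norm_num), mul_zero] at hBc
        omega
      · exact h
    have hm0 : 0 < m := by
      rcases Nat.eq_zero_or_pos m with h | h
      · rw [h] at hm
        nlinarith
      · exact h
    have hcard : (V \ B).card = V.card - B.card := card_sdiff_of_subset hB
    have hBV : B.card ≤ V.card := card_le_card hB
    have hm' : 4 * K * (V \ B).card ≤ (m - 1) ^ 2 := by
      rw [hcard]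
      obtain ⟨m', rfl⟩ : ∃ m', m = m' + 1 := ⟨m - 1, by omega⟩
      obtain ⟨w, hw⟩ : ∃ w, V.card = w + B.card := ⟨V.card - B.card, by omega⟩
      rw [hw] at hm hBc ⊢
      rw [Nat.add_sub_cancel, Nat.add_sub_cancel]
      by_cases hc : m' + 1 ≤ 2 * K * B.card
      · nlinarith
      · push Not at hc
        have h1 : 2 * K * B.card ≤ m' := by omega
        have h2 : (2 * K * B.card) ^ 2 ≤ m' ^ 2 := Nat.pow_le_pow_left h1 2
        have h3 : 4 * K * (w + B.card) ≤ 4 * K * (K * B.card ^ 2) := Nat.mul_le_mul_left _ hBc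
        nlinarith
    obtain ⟨col, hc1, hc2⟩ := ih (V \ B).card (by omega) (V \ B) rfl
      (fun W hW => hV W (hW.trans sdiff_subset)) (m - 1) hm'
    refine ⟨fun a => if a ∈ B then m - 1 else col a, ?_, ?_⟩
    · intro a ha
      by_cases h : a ∈ B
      · simp only [if_pos h]
        omega
      · simp only [if_neg h]
        have := hc1 a (mem_sdiff.2 ⟨ha, h⟩)
        omega
    · intro c
      by_cases hc : c = m - 1
      · have : V.filter (fun a => (if a ∈ B then m - 1 else col a) = c) ⊆ B := by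
          intro a ha
          rw [mem_filter] at ha
          by_contra h
          rw [if_neg h] at ha
          have := hc1 a (mem_sdiff.2 ⟨ha.1, h⟩)
          omega
        intro a ha b hb x hx y hy
        exact hBS a (this ha) b (this hb) x (this hx) y (this hy)
      · have : V.filter (fun a => (if a ∈ B then m - 1 else col a) = c) ⊆
            (V \ B).filter (fun a => col a = c) := by
          intro a ha
          rw [mem_filter] at ha
          by_cases h : a ∈ B
          · rw [if_pos h] at ha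
            exact absurd ha.2.symm hc
          · rw [if_neg h] at ha
            exact mem_filter.2 ⟨mem_sdiff.2 ⟨ha.1, h⟩, ha.2⟩
        intro a ha b hb x hx y hy
        exact hc2 c a (this ha) b (this hb) x (this hx) y (this hy)

end Pool.Agent.Lib.CSid
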