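import Pool.Agent.Lib.CSid.Reg
import Pool.Agent.Lib.CSid.Kss

/-!
# Sidon sets and colourings inside the levels
-/

set_option autoImplicit false

namespace Pool.Agent.Lib.CSid

open Finset

section

variable {p : ℕ → ℕ} {r Y : ℕ} {A : Finset ℤ} {U : ℤ → ℕ} {H : ℕ}

lemma card_image_congr {α β γ : Type*} [DecidableEq β] [DecidableEq γ] (A : Finset α)
    (f : α → β) (g : α → γ) (h : ∀ a ∈ A, ∀ b ∈ A, g a = g b → f a = f b) :
    (A.image f).card ≤ (A.image g).card := by
  classical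
  have h1 : ∀ l : {x // x ∈ A.image f}, ∃ a ∈ A, f a = l.1 := fun l => mem_image.1 l.2
  choose a ha hf using h1
  rw [← card_attach]
  refine card_le_card_of_injOn (fun l => g (a l)) ?_ ?_
  · intro l _
    exact mem_image_of_mem g (ha l)
  · intro l _ l' _ he
    have h2 := h _ (ha l) _ (ha l') he
    rw [hf, hf] at h2
    exact Subtype.ext h2

lemma pref_eq_iff_lv (p : ℕ → ℕ) (r : ℕ) (a b : ℤ) :
    pref (pv p) r a = pref (pv p) r b ↔ lv p r a = lv p r b := by
  rw [pref_eq_iff, lv_eq_iff]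

lemma card_image_pref (p : ℕ → ℕ) (r : ℕ) (A : Finset ℤ) :
    (A.image (pref (pv p) r)).card = (A.image (lv p r)).card := by
  apply le_antisymm
  · exact card_image_congr A _ _ fun a _ b _ h => (pref_eq_iff_lv p r a b).2 h
  · exact card_image_congr A _ _ fun a _ b _ h => (pref_eq_iff_lv p r a b).1 h

theorem level_sidon (h : Prop1 p r A U H) {T : ℕ}
    (hT : ∀ n : ℕ, 1 ≤ n → n ≤ H → n.divisors.card ≤ T) (V : Finset ℤ) (hVA : V ⊆ A)
    (hV : ∀ a ∈ V, ∀ b ∈ V, lv p r a = lv p r b) :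
    ∃ B ⊆ V, AddSidon B ∧ V.card ≤ 128 * (1 + T) ^ 2 * B.card ^ 2 := by
  have hP : ∀ a ∈ V, ∀ b ∈ V, a * U b = b * U a := fun a ha b hb =>
    h.prop a (hVA ha) b (hVA hb) ((lv_eq_iff p r a b).1 (hV a ha b hb))
  have hU0 : ∀ a ∈ V, (U a : ℤ) ≠ 0 := by
    intro a ha
    have := h.one_le a (hVA ha)
    exact_mod_cast (by omega : U a ≠ 0)
  have hinj : ∀ a ∈ V, ∀ b ∈ V, U a = U b → a = b := by
    intro a ha b hb hab
    have h1 := hP a ha b hb
    rw [hab] at h1
    exact mul_right_cancel₀ (hU0 b hb) h1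
  obtain ⟨B₀, hB₀, hS, hc⟩ := exists_sidon_subset_nat H T hT (V.image U) (by
    intro x hx
    obtain ⟨a, ha, rfl⟩ := mem_image.1 hx
    exact ⟨h.one_le a (hVA ha), h.le a (hVA ha)⟩)
  have hcV : (V.image U).card = V.card := card_image_of_injOn fun a ha b hb => hinj a ha b hb
  refine ⟨V.filter (fun a => U a ∈ B₀), filter_subset _ _, ?_, ?_⟩
  · intro a ha b hb c hc d hd he
    rw [mem_filter] at ha hb hc hd
    have h1 : a * ((U a : ℤ) + U b) = a * ((U c : ℤ) + U d) := by
      have e1 := hP a ha.1 b hb.1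
      have e2 := hP a ha.1 c hc.1
      have e3 := hP a ha.1 d hd.1
      calc a * ((U a : ℤ) + U b) = (a + b) * U a := by rw [mul_add, e1]; ring
        _ = (c + d) * U a := by rw [he]
        _ = a * ((U c : ℤ) + U d) := by rw [mul_add, e2, e3]; ring
    have h2 := mul_left_cancel₀ (h.pos a (hVA ha.1)).ne' h1
    have h3 : U a + U b = U c + U d := by exact_mod_cast h2
    rcases hS _ ha.2 _ hb.2 _ hc.2 _ hd.2 h3 with ⟨k1, k2⟩ | ⟨k1, k2⟩
    · exact Or.inl ⟨hinj a ha.1 c hc.1 k1, hinj b hb.1 d hd.1 k2⟩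
    · exact Or.inr ⟨hinj a ha.1 d hd.1 k1, hinj b hb.1 c hc.1 k2⟩
  · rw [hcV] at hc
    have h1 : B₀.card ≤ (V.filter (fun a => U a ∈ B₀)).card := by
      have h2 : B₀ ⊆ (V.filter (fun a => U a ∈ B₀)).image U := by
        intro x hx
        obtain ⟨a, ha, rfl⟩ := mem_image.1 (hB₀ hx)
        exact mem_image_of_mem U (mem_filter.2 ⟨ha, hx⟩)
      exact (card_le_card h2).trans card_image_le
    calc V.card ≤ 128 * (1 + T) ^ 2 * B₀.card ^ 2 := hc
      _ ≤ _ := by gcongr

/-- a colouring whose classes are Sidon sets inside each level -/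
theorem exists_level_colouring (h : Prop1 p r A U H) {T k m : ℕ}
    (hT : ∀ n : ℕ, 1 ≤ n → n ≤ H → n.divisors.card ≤ T)
    (hk : ∀ a ∈ A, (A.filter (fun b => lv p r b = lv p r a)).card ≤ 2 * k)
    (hm0 : 0 < m) (hm : 1024 * (1 + T) ^ 2 * k ≤ m ^ 2) :
    ∃ col : ℤ → Fin m, ∀ e : Fin r → ℕ, ∀ c : Fin m,
      AddSidon (A.filter (fun a => lv p r a = e ∧ col a = c)) := by
  have h1 : ∀ e : Fin r → ℕ, ∃ col : ℤ → ℕ,
      (∀ a ∈ A.filter (fun a => lv p r a = e), col a < m) ∧
      ∀ c, AddSidon ((A.filter (fun a => lv p r a = e)).filter (fun a => col a = c)) := by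
    intro e
    rcases (A.filter (fun a => lv p r a = e)).eq_empty_or_nonempty with h0 | ⟨a, ha⟩
    · refine ⟨fun _ => 0, fun _ _ => hm0, fun c => ?_⟩
      rw [h0]
      intro a ha
      simp at ha
    · have hae := (mem_filter.1 ha).2
      have hcard : (A.filter (fun a => lv p r a = e)).card ≤ 2 * k := by
        rw [← hae]
        exact hk a (mem_filter.1 ha).1
      refine exists_colouring (128 * (1 + T) ^ 2) ?_ _ _ rfl ?_ m ?_
      · have : 0 < (1 + T) ^ 2 := by positivity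
        omega
      · intro V hV
        refine level_sidon h hT V (hV.trans (filter_subset _ _)) ?_
        intro b hb c hc
        rw [(mem_filter.1 (hV hb)).2, (mem_filter.1 (hV hc)).2]
      · calc 4 * (128 * (1 + T) ^ 2) * (A.filter (fun a => lv p r a = e)).card
            ≤ 4 * (128 * (1 + T) ^ 2) * (2 * k) := Nat.mul_le_mul_left _ hcard
          _ = 1024 * (1 + T) ^ 2 * k := by ring
          _ ≤ m ^ 2 := hm
  choose col hcol hcolS using h1
  refine ⟨fun a => if hx : col (lv p r a) a < m then ⟨col (lv p r a) a, hx⟩ else ⟨0, hm0⟩,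
    fun e c => ?_⟩
  have h2 : A.filter (fun a => lv p r a = e ∧
      (if hx : col (lv p r a) a < m then (⟨col (lv p r a) a, hx⟩ : Fin m) else ⟨0, hm0⟩) = c) ⊆
      (A.filter (fun a => lv p r a = e)).filter (fun a => col e a = c) := by
    intro a ha
    rw [mem_filter] at ha
    obtain ⟨haA, hae, hac⟩ := ha
    rw [mem_filter, mem_filter]
    refine ⟨⟨haA, hae⟩, ?_⟩
    have h3 : col e a < m := hcol e a (mem_filter.2 ⟨haA, hae⟩)
    subst hae
    rw [dif_pos h3] at hac
    rw [← hac]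
  intro a ha b hb c' hc d hd he
  exact hcolS e c a (h2 ha) b (h2 hb) c' (h2 hc) d (h2 hd) he

end

end Pool.Agent.Lib.CSid
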