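import Pool.Agent.Lib.CSid.Core35
import Pool.Agent.Lib.CSid.Reduce

/-!
# Sets in a finitely generated group times an interval: exponent `3/5`
-/

set_option autoImplicit false

namespace Pool.Agent.Lib.CSid

open Finset

lemma nat_four_pow' (r : ℕ) : (r + 1) * (r + 9) ≤ 9 * 4 ^ r := by
  induction r with
  | zero => norm_num
  | succ r ih =>
    rw [pow_succ]
    nlinarith

lemma rpow_fifth_pow {x : ℝ} (hx : 0 ≤ x) : (x ^ (1 / 5 : ℝ)) ^ 5 = x := by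
  rw [← Real.rpow_natCast, ← Real.rpow_mul hx]
  norm_num

theorem pos35 {r H : ℕ} {P : ℤ → Prop} (hG : GoodP r H P) (T : ℕ) (hT1 : 1 ≤ T)
    (hT : ∀ n : ℕ, 1 ≤ n → n ≤ H ^ 2 → n.divisors.card ≤ T) (A : Finset ℤ)
    (hne : A.Nonempty) (hpos : ∀ a ∈ A, 0 < a) (hA : ∀ a ∈ A, P a) :
    ∃ B ⊆ A, (AddSidon B ∨ MulSidon B) ∧ (A.card : ℝ) ^ (3 / 5 : ℝ) ≤
      (18432 : ℕ) * ((Nat.log 2 A.card + 1 : ℕ) : ℝ) ^ (2 ^ (r + 1) + 1) *
        ((126 : ℕ) * (Nat.log 2 H + 1 : ℕ)) ^ (2 * r) * T * B.card := by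
  set Y := 2 * (Nat.log 2 H + 1) with hYdef
  obtain ⟨p, U, A₂, hA₂, hP, hS, hc₂⟩ := reduceP hG A hpos hA hne Y (by omega)
  obtain ⟨A₃, hA₃, hD, hc₃⟩ := exists_digits hP
  obtain ⟨A₄, hA₄, k, hk1, hkpop, hc₄⟩ := regular (pv p) r A₃
  set L := Nat.log 2 A.card + 1 with hL
  have hN1 : 0 < A.card := card_pos.2 hne
  have hA₄A : A₄ ⊆ A := hA₄.trans (hA₃.trans hA₂)
  have hL2 : Nat.log 2 A₃.card + 1 ≤ L := by
    have := Nat.log_mono_right (b := 2) (card_le_card (hA₃.trans hA₂))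
    omega
  have hc : A.card ≤ Y ^ (2 * r) * (6 ^ r * (L * A₄.card)) :=
    hc₂.trans (Nat.mul_le_mul_left _ (hc₃.trans (Nat.mul_le_mul_left _
      (hc₄.trans (Nat.mul_le_mul_right _ hL2)))))
  have hN4 : 0 < A₄.card := by
    rcases Nat.eq_zero_or_pos A₄.card with h | h
    · rw [h, mul_zero, mul_zero, mul_zero] at hc
      omega
    · exact h
  set N₄ : ℝ := (A₄.card : ℝ) with hN₄
  have hN₄1 : 1 ≤ N₄ := by rw [hN₄]; exact_mod_cast hN4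
  have hN₄0 : 0 ≤ N₄ := by linarith
  set X : ℝ := N₄ ^ (1 / 5 : ℝ) with hX
  have hX0 : 0 ≤ X := by positivity
  have hX1 : 1 ≤ X := Real.one_le_rpow hN₄1 (by norm_num)
  have hX5 : X ^ 5 = A₄.card := rpow_fifth_pow hN₄0
  set W : ℕ := L ^ (2 ^ r) with hW
  have hL1n : 1 ≤ L := by omega
  have hW1 : 1 ≤ W := Nat.one_le_pow _ _ hL1n
  have hWR : (1 : ℝ) ≤ W := by exact_mod_cast hW1
  have hWle : (Nat.log 2 (A₄.image (lv p r)).card + 1) ^ (2 ^ r) ≤ W := by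
    apply Nat.pow_le_pow_left
    have h1 : (A₄.image (lv p r)).card ≤ A.card := card_image_le.trans (card_le_card hA₄A)
    have := Nat.log_mono_right (b := 2) h1
    omega
  set C : ℝ := 128 * 162 ^ r * (r + 9) * (1 + T) * W with hC
  have hTR : (1 : ℝ) ≤ T := by exact_mod_cast hT1
  have hC1 : 1 ≤ C := by
    have h1 : (1 : ℝ) ≤ 162 ^ r := one_le_pow₀ (by norm_num)
    have h2 : (0 : ℝ) ≤ r := by positivity
    calc (1 : ℝ) ≤ 128 * 1 * (0 + 9) * (1 + 0) * 1 := by norm_num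
      _ ≤ C := by rw [hC]; gcongr; linarith
  have hX2 : 1 ≤ X ^ 2 := one_le_pow₀ hX1
  set m : ℕ := ⌈C * X ^ 2⌉₊ with hm
  have hCX : 1 ≤ C * X ^ 2 := by nlinarith
  have hmX : C * X ^ 2 ≤ m := Nat.le_ceil _
  have hm2 : (m : ℝ) ≤ 2 * (C * X ^ 2) := by
    have := Nat.ceil_lt_add_one (by linarith : 0 ≤ C * X ^ 2)
    linarith
  have hHlt : H < 2 ^ (Nat.log 2 H + 1) := Nat.lt_pow_succ_log_self (by norm_num) H
  have hHY : H ^ 2 < 2 ^ Y := by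
    calc H ^ 2 < (2 ^ (Nat.log 2 H + 1)) ^ 2 := Nat.pow_lt_pow_left hHlt (by norm_num)
      _ = 2 ^ Y := by rw [← pow_mul, hYdef, mul_comm]
  have hHY' : H < 2 ^ Y := hHlt.trans_le (Nat.pow_le_pow_right (by norm_num) (by omega))
  have hP4 := (hP.subset hA₃).subset hA₄
  obtain ⟨B, hB, hBS, hBc⟩ := core35 (W := W) hP4 hHY hHY' (by omega)
    ((hS.subset hA₃).subset hA₄) (fun j hj => (hD j hj).subset hA₄) hT hk1 hkpop hWle m X hX0 hX5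
    (card_pos.1 hN4) hmX
  refine ⟨B, hB.trans hA₄A, hBS, ?_⟩
  have hB4 : N₄ ^ (3 / 5 : ℝ) ≤ 8 * (r + 1) * W * C * B.card := by
    have h0 : N₄ ^ (3 / 5 : ℝ) = X ^ 3 := by
      rw [hX, ← Real.rpow_natCast, ← Real.rpow_mul hN₄0]
      norm_num
    have hX2' : 0 < X ^ 2 := by linarith
    have h1 : X ^ 3 * X ^ 2 ≤ (8 * (r + 1) * W * C * B.card) * X ^ 2 := by
      calc X ^ 3 * X ^ 2 = A₄.card := by rw [← hX5]; ring
        _ ≤ 4 * (r + 1) * W * m * B.card := hBc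
        _ ≤ 4 * (r + 1) * W * (2 * (C * X ^ 2)) * B.card := by gcongr
        _ = _ := by ring
    rw [h0]
    exact le_of_mul_le_mul_right h1 hX2'
  have hY1 : (1 : ℝ) ≤ (Y : ℝ) ^ (2 * r) := by
    apply one_le_pow₀
    exact_mod_cast (by omega : 1 ≤ Y)
  have hL1 : (1 : ℝ) ≤ L := by exact_mod_cast hL1n
  have h61 : (1 : ℝ) ≤ 6 ^ r := one_le_pow₀ (by norm_num)
  set K : ℝ := (Y : ℝ) ^ (2 * r) * (6 ^ r * L) with hK
  have hYL : (1 : ℝ) ≤ K := by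
    calc (1 : ℝ) = 1 * (1 * 1) := by norm_num
      _ ≤ K := by rw [hK]; gcongr
  have hcR : (A.card : ℝ) ≤ K * N₄ := by
    have : (A.card : ℝ) ≤ (Y : ℝ) ^ (2 * r) * (6 ^ r * (L * A₄.card)) := by exact_mod_cast hc
    calc (A.card : ℝ) ≤ (Y : ℝ) ^ (2 * r) * (6 ^ r * (L * A₄.card)) := this
      _ = K * N₄ := by rw [hK, hN₄]; ring
  have hr4 : ((r : ℝ) + 1) * (r + 9) ≤ 9 * 4 ^ r := by exact_mod_cast nat_four_pow' r
  have h3969 : (4 : ℝ) ^ r * 162 ^ r * 6 ^ r ≤ 63 ^ (2 * r) := by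
    rw [← mul_pow, ← mul_pow, pow_mul]
    exact pow_le_pow_left₀ (by norm_num) (by norm_num) r
  have hYY : (63 : ℝ) ^ (2 * r) * (Y : ℝ) ^ (2 * r) =
      (((126 : ℕ) : ℝ) * ((Nat.log 2 H + 1 : ℕ) : ℝ)) ^ (2 * r) := by
    rw [← mul_pow, hYdef]
    congr 1
    push_cast
    ring
  have hWW : (W : ℝ) * W * L = (L : ℝ) ^ (2 ^ (r + 1) + 1) := by
    rw [hW]
    push_cast
    rw [pow_succ 2 r, pow_add, pow_mul, pow_one]
    ring
  calc (A.card : ℝ) ^ (3 / 5 : ℝ) ≤ (K * N₄) ^ (3 / 5 : ℝ) :=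
        Real.rpow_le_rpow (by positivity) hcR (by norm_num)
    _ = K ^ (3 / 5 : ℝ) * N₄ ^ (3 / 5 : ℝ) :=
        Real.mul_rpow (by positivity) hN₄0
    _ ≤ K * N₄ ^ (3 / 5 : ℝ) := by
        gcongr
        calc K ^ (3 / 5 : ℝ) ≤ K ^ (1 : ℝ) :=
              Real.rpow_le_rpow_of_exponent_le hYL (by norm_num)
          _ = _ := Real.rpow_one _
    _ ≤ K * (8 * (r + 1) * W * C * B.card) := by gcongr
    _ = 1024 * (((r : ℝ) + 1) * (r + 9)) * 162 ^ r * 6 ^ r * (Y : ℝ) ^ (2 * r) *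
          ((W : ℝ) * W * L) * (1 + T) * B.card := by
        rw [hK, hC]; ring
    _ ≤ 1024 * (9 * 4 ^ r) * 162 ^ r * 6 ^ r * (Y : ℝ) ^ (2 * r) *
          ((W : ℝ) * W * L) * (T + T) * B.card := by gcongr
    _ = 18432 * ((4 : ℝ) ^ r * 162 ^ r * 6 ^ r) * (Y : ℝ) ^ (2 * r) *
          ((W : ℝ) * W * L) * T * B.card := by ring
    _ ≤ 18432 * (63 ^ (2 * r)) * (Y : ℝ) ^ (2 * r) *
          ((W : ℝ) * W * L) * T * B.card := by gcongr
    _ = 18432 * (63 ^ (2 * r) * (Y : ℝ) ^ (2 * r)) * ((W : ℝ) * W * L) * T * B.card := by ring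
    _ = _ := by
        rw [hYY, hWW]
        push_cast
        ring

end Pool.Agent.Lib.CSid
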