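import Pool.Agent.Lib.CSid.Count

/-!
# Levels with regular fibres
-/

set_option autoImplicit false

namespace Pool.Agent.Lib.CSid

open Finset

lemma fib_congr {r : ℕ} {Λ : Finset (Fin r → ℕ)} {S : Finset (Fin r)} {e f : Fin r → ℕ}
    (h : ∀ j ∈ S, f j = e j) : fib Λ S f = fib Λ S e := by
  ext x
  rw [mem_fib, mem_fib]
  constructor
  · rintro ⟨h1, h2⟩
    exact ⟨h1, fun j hj => (h2 j hj).trans (h j hj)⟩
  · rintro ⟨h1, h2⟩
    exact ⟨h1, fun j hj => (h2 j hj).trans (h j hj).symm⟩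

lemma self_mem_fib {r : ℕ} {Λ : Finset (Fin r → ℕ)} {S : Finset (Fin r)} {e : Fin r → ℕ}
    (h : e ∈ Λ) : e ∈ fib Λ S e := mem_fib.2 ⟨h, fun _ _ => rfl⟩

lemma triples {r : ℕ} (Λ Λ' : Finset (Fin r → ℕ)) (D : Finset (Fin r) → ℕ)
    (hlo : ∀ S, ∀ e ∈ Λ', D S ≤ (fib Λ S e).card)
    (hhi : ∀ S, ∀ e ∈ Λ', (fib Λ S e).card < 2 * D S) (S S' : Finset (Fin r))
    (hSS : S ∪ S' = univ) : Λ'.card * (D S * D S') ≤ Λ.card * (2 * D (S ∩ S')) := by
  set P := Λ'.sigma (fun e => (fib Λ S e).sigma (fun _ => fib Λ S' e)) with hP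
  set G := (Λ.filter (fun f => (fib Λ (S ∩ S') f).card < 2 * D (S ∩ S'))).sigma
    (fun f => fib Λ (S ∩ S') f) with hG
  have h1 : Λ'.card * (D S * D S') ≤ P.card := by
    rw [hP, card_sigma, ← smul_eq_mul, ← sum_const]
    refine sum_le_sum fun e he => ?_
    rw [card_sigma, sum_const, smul_eq_mul]
    exact Nat.mul_le_mul (hlo S e he) (hlo S' e he)
  have h2 : G.card ≤ Λ.card * (2 * D (S ∩ S')) := by
    rw [hG, card_sigma]
    calc _ ≤ ∑ f ∈ Λ.filter (fun f => (fib Λ (S ∩ S') f).card < 2 * D (S ∩ S')),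
          2 * D (S ∩ S') := sum_le_sum fun f hf => (mem_filter.1 hf).2.le
      _ = (Λ.filter (fun f => (fib Λ (S ∩ S') f).card < 2 * D (S ∩ S'))).card *
          (2 * D (S ∩ S')) := by rw [sum_const, smul_eq_mul]
      _ ≤ _ := Nat.mul_le_mul_right _ (card_le_card (filter_subset _ _))
  refine h1.trans (le_trans ?_ h2)
  refine card_le_card_of_injOn (fun t => (⟨t.2.1, t.2.2⟩ :
    Σ _ : Fin r → ℕ, (Fin r → ℕ))) ?_ ?_
  · rintro ⟨e, f, g⟩ ht
    rw [mem_coe, hP, mem_sigma, mem_sigma] at ht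
    obtain ⟨he, hf, hg⟩ := ht
    simp only at he hf hg
    rw [mem_coe, hG, mem_sigma, mem_filter]
    obtain ⟨hf1, hf2⟩ := mem_fib.1 hf
    obtain ⟨hg1, hg2⟩ := mem_fib.1 hg
    refine ⟨⟨hf1, ?_⟩, mem_fib.2 ⟨hg1, ?_⟩⟩
    · show (fib Λ (S ∩ S') f).card < 2 * D (S ∩ S')
      rw [fib_congr (fun j hj => hf2 j (mem_inter.1 hj).1)]
      exact hhi _ e he
    · intro j hj
      show g j = f j
      rw [hg2 j (mem_inter.1 hj).2, hf2 j (mem_inter.1 hj).1]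
  · rintro ⟨e, f, g⟩ ht ⟨e', f', g'⟩ ht' heq
    rw [mem_coe, hP, mem_sigma, mem_sigma] at ht ht'
    simp only [Sigma.mk.injEq, heq_eq_eq] at heq
    obtain ⟨rfl, rfl⟩ := heq
    obtain ⟨he, hf, hg⟩ := ht
    obtain ⟨he', hf', hg'⟩ := ht'
    simp only at he hf hg he' hf' hg'
    have : e = e' := by
      funext j
      have hj : j ∈ S ∪ S' := by rw [hSS]; exact mem_univ j
      rcases mem_union.1 hj with h | h
      · rw [← (mem_fib.1 hf).2 j h, (mem_fib.1 hf').2 j h]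
      · rw [← (mem_fib.1 hg).2 j h, (mem_fib.1 hg').2 j h]
    subst this
    rfl

theorem level_regular {r : ℕ} (Λ : Finset (Fin r → ℕ)) :
    ∃ Λ' ⊆ Λ, ∃ F : Finset (Fin r) → ℕ,
      Λ.card ≤ (Nat.log 2 Λ.card + 1) ^ (2 ^ r) * Λ'.card ∧
      (∀ S, ∀ e ∈ Λ', (fib Λ' S e).card ≤ F S) ∧
      ∀ S S' : Finset (Fin r), S ∪ S' = univ →
        F S * F S' * F (S ∩ S') ≤ 16 * (Nat.log 2 Λ.card + 1) ^ (2 ^ r) * Λ.card ^ 2 := by
  classical
  rcases Λ.eq_empty_or_nonempty with rfl | hne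
  · exact ⟨∅, Subset.refl _, fun _ => 0, by simp, by simp, by simp⟩
  obtain ⟨l, hl, hc⟩ := exists_popular Λ (fun e => fun S => Nat.log 2 (fib Λ S e).card)
    (Fintype.piFinset fun _ : Finset (Fin r) => range (Nat.log 2 Λ.card + 1)) (by
      intro e _
      rw [Fintype.mem_piFinset]
      intro S
      rw [mem_range, Nat.lt_succ_iff]
      exact Nat.log_mono_right (card_le_card (filter_subset _ _))) hne
  rw [Fintype.card_piFinset, prod_const, card_range, card_univ, Fintype.card_finset,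
    Fintype.card_fin] at hc
  set Λ' := Λ.filter (fun e => (fun S => Nat.log 2 (fib Λ S e).card) = l) with hΛ'
  set W := (Nat.log 2 Λ.card + 1) ^ (2 ^ r) with hW
  have hΛ'Λ : Λ' ⊆ Λ := filter_subset _ _
  have hlog : ∀ S, ∀ e ∈ Λ', Nat.log 2 (fib Λ S e).card = l S := by
    intro S e he
    exact congrFun (mem_filter.1 he).2 S
  have hlo : ∀ S, ∀ e ∈ Λ', 2 ^ l S ≤ (fib Λ S e).card := by
    intro S e he
    rw [← hlog S e he]
    apply Nat.pow_log_le_self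
    have := card_pos.2 ⟨e, self_mem_fib (S := S) (hΛ'Λ he)⟩
    omega
  have hhi : ∀ S, ∀ e ∈ Λ', (fib Λ S e).card < 2 * 2 ^ l S := by
    intro S e he
    rw [← hlog S e he, mul_comm, ← pow_succ]
    exact Nat.lt_pow_succ_log_self (by norm_num) _
  have hpos : 0 < Λ'.card := by
    rcases Nat.eq_zero_or_pos Λ'.card with h | h
    · rw [h, mul_zero] at hc
      have := card_pos.2 hne
      omega
    · exact h
  obtain ⟨e0, he0⟩ := card_pos.1 hpos
  refine ⟨Λ', hΛ'Λ, fun S => 2 * 2 ^ l S, hc, ?_, ?_⟩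
  · intro S e he
    refine le_trans (card_le_card ?_) (hhi S e he).le
    exact filter_subset_filter _ hΛ'Λ
  · intro S S' hSS
    have h1 := triples Λ Λ' (fun S => 2 ^ l S) hlo hhi S S' hSS
    have h2 : 2 ^ l (S ∩ S') ≤ Λ.card :=
      (hlo (S ∩ S') e0 he0).trans (card_le_card (filter_subset _ _))
    have h3 : Λ'.card * (2 * 2 ^ l S * (2 * 2 ^ l S') * (2 * 2 ^ l (S ∩ S'))) ≤
        Λ'.card * (16 * W * Λ.card ^ 2) := by
      calc Λ'.card * (2 * 2 ^ l S * (2 * 2 ^ l S') * (2 * 2 ^ l (S ∩ S')))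
          = 8 * (Λ'.card * (2 ^ l S * 2 ^ l S')) * 2 ^ l (S ∩ S') := by ring
        _ ≤ 8 * (Λ.card * (2 * 2 ^ l (S ∩ S'))) * 2 ^ l (S ∩ S') := by gcongr
        _ = 16 * Λ.card * (2 ^ l (S ∩ S') * 2 ^ l (S ∩ S')) := by ring
        _ ≤ 16 * Λ.card * (Λ.card * Λ.card) := by gcongr
        _ ≤ 16 * (W * Λ'.card) * (Λ.card * Λ.card) := by gcongr
        _ = Λ'.card * (16 * W * Λ.card ^ 2) := by ring
    exact Nat.le_of_mul_le_mul_left h3 hpos

end Pool.Agent.Lib.CSid
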