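import Pool.Agent.Lib.CSid.Class

/-!
# Selection of a depth at which the classes fall below a threshold
-/

set_option autoImplicit false

namespace Pool.Agent.Lib.CSid

open Finset

/-- classes at depth `i` -/
def cls (v : ℕ → ℤ → ℕ) (A : Finset ℤ) (i : ℕ) (a : ℤ) : Finset ℤ :=
  A.filter (fun b => pref v i b = pref v i a)

lemma cls_congr (v : ℕ → ℤ → ℕ) (A : Finset ℤ) (i : ℕ) {a b : ℤ} (h : pref v i a = pref v i b) :
    cls v A i a = cls v A i b := by
  unfold cls
  rw [h]

theorem select (v : ℕ → ℤ → ℕ) (r : ℕ) (A : Finset ℤ) (k σ : ℕ)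
    (hlow : ∀ a ∈ A, k ≤ (cls v A r a).card) (hup : ∀ a ∈ A, (cls v A r a).card ≤ σ)
    (hN : σ < A.card) :
    ∃ i < r, ∃ A' ⊆ A, (A.card : ℝ) ≤ 2 * r * A'.card ∧
      (∀ a ∈ A', (σ : ℝ) / (2 * r) ≤ (cls v A' i a).card) ∧
      (∀ a ∈ A', ((cls v A' (i + 1) a).image (pref v r)).card * k ≤ σ) := by
  classical
  set Ai : ℕ → Finset ℤ := fun i =>
    A.filter (fun a => σ < (cls v A i a).card ∧ (cls v A (i + 1) a).card ≤ σ) with hAi
  have hc0 : ∀ a, (cls v A 0 a).card = A.card := by
    intro a
    unfold cls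
    rw [filter_true_of_mem]
    intro b _
    simp [pref]
  have hcover : A ⊆ (range r).biUnion Ai := by
    intro a ha
    have hex : ∃ j, (cls v A j a).card ≤ σ := ⟨r, hup a ha⟩
    have h1 : Nat.find hex ≤ r := Nat.find_min' hex (hup a ha)
    have h2 : Nat.find hex ≠ 0 := by
      intro h
      have := Nat.find_spec hex
      rw [h, hc0] at this
      omega
    obtain ⟨i, hi⟩ : ∃ i, Nat.find hex = i + 1 := ⟨Nat.find hex - 1, by omega⟩
    rw [mem_biUnion]
    refine ⟨i, mem_range.2 (by omega), ?_⟩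
    rw [hAi, mem_filter]
    refine ⟨ha, ?_, ?_⟩
    · have := Nat.find_min hex (m := i) (by omega)
      omega
    · have := Nat.find_spec hex
      rwa [hi] at this
  have hApos : 0 < A.card := by omega
  obtain ⟨a1, ha1⟩ := card_pos.1 hApos
  have hr : 0 < r := by
    obtain ⟨i, hi, _⟩ := mem_biUnion.1 (hcover ha1)
    rw [mem_range] at hi
    omega
  have hrR : (0 : ℝ) < r := by exact_mod_cast hr
  obtain ⟨i, hi, hiA⟩ : ∃ i ∈ range r, (A.card : ℝ) / r ≤ ((Ai i).card : ℝ) := by
    apply exists_le_of_sum_le ⟨0, mem_range.2 hr⟩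
    rw [sum_const, card_range, nsmul_eq_mul, mul_div_cancel₀ _ hrR.ne']
    have : A.card ≤ ∑ i ∈ range r, (Ai i).card := (card_le_card hcover).trans card_biUnion_le
    exact_mod_cast this
  rw [mem_range] at hi
  set B := Ai i with hB
  have hBA : B ⊆ A := filter_subset _ _
  have hBmem : ∀ a, a ∈ B ↔ a ∈ A ∧ σ < (cls v A i a).card ∧ (cls v A (i + 1) a).card ≤ σ := by
    intro a
    rw [hB, hAi, mem_filter]
  set A' := B.filter (fun a => σ ≤ 2 * r * (cls v B i a).card) with hA'
  set D := B.filter (fun a => ¬ σ ≤ 2 * r * (cls v B i a).card) with hD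
  have hsum : A'.card + D.card = B.card := card_filter_add_card_filter_not _
  have hA'B : A' ⊆ B := filter_subset _ _
  -- the number of discarded elements
  have hDc : 2 * r * D.card ≤ A.card := by
    have h1 : D.card = ∑ l ∈ D.image (pref v i), (D.filter (fun b => pref v i b = l)).card :=
      card_eq_sum_card_image _ _
    have h2 : 2 * r * D.card ≤ ∑ l ∈ D.image (pref v i), σ := by
      rw [h1, mul_sum]
      refine sum_le_sum fun l hl => ?_
      obtain ⟨a, ha, rfl⟩ := mem_image.1 hl
      have ha' := (mem_filter.1 ha).2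
      have h3 : (D.filter (fun b => pref v i b = pref v i a)).card ≤ (cls v B i a).card :=
        card_le_card (filter_subset_filter _ (filter_subset _ _))
      have h4 : 2 * r * (D.filter (fun b => pref v i b = pref v i a)).card ≤
          2 * r * (cls v B i a).card := Nat.mul_le_mul_left _ h3
      omega
    have h5 : ∑ l ∈ D.image (pref v i), σ ≤
        ∑ l ∈ D.image (pref v i), (A.filter (fun b => pref v i b = l)).card := by
      refine sum_le_sum fun l hl => ?_
      obtain ⟨a, ha, rfl⟩ := mem_image.1 hl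
      have ha' := (hBmem a).1 (mem_filter.1 ha).1
      exact ha'.2.1.le
    have h6 : ∑ l ∈ D.image (pref v i), (A.filter (fun b => pref v i b = l)).card ≤ A.card := by
      rw [card_eq_sum_card_image (pref v i) A]
      apply sum_le_sum_of_subset
      exact image_subset_image ((filter_subset _ _).trans hBA)
    omega
  have hkey : ∀ a ∈ A', ∀ b ∈ A, pref v (i + 1) b = pref v (i + 1) a → b ∈ A' := by
    intro a ha b hb hab
    have hab' : pref v i b = pref v i a := pref_mono v (Nat.le_succ i) hab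
    have ha1 := (mem_filter.1 ha)
    have ha2 := (hBmem a).1 ha1.1
    rw [hA', mem_filter, hBmem, cls_congr v A i hab', cls_congr v A (i + 1) hab,
      cls_congr v B i hab']
    exact ⟨⟨hb, ha2.2⟩, ha1.2⟩
  have hcls : ∀ a ∈ A', cls v A' i a = cls v B i a := by
    intro a ha
    apply Subset.antisymm (filter_subset_filter _ hA'B)
    intro b hb
    have hb : b ∈ B ∧ pref v i b = pref v i a := mem_filter.1 hb
    refine mem_filter.2 ⟨?_, hb.2⟩
    rw [hA', mem_filter]
    refine ⟨hb.1, ?_⟩
    rw [cls_congr v B i hb.2]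
    exact (mem_filter.1 ha).2
  refine ⟨i, hi, A', hA'B.trans hBA, ?_, ?_, ?_⟩
  · have h1 : (A'.card : ℝ) + D.card = B.card := by exact_mod_cast hsum
    have h2 : 2 * (r : ℝ) * D.card ≤ A.card := by exact_mod_cast hDc
    rw [div_le_iff₀ hrR] at hiA
    nlinarith
  · intro a ha
    rw [hcls a ha, div_le_iff₀ (by positivity)]
    have h1 := (mem_filter.1 ha).2
    have h2 : (σ : ℝ) ≤ 2 * r * (cls v B i a).card := by exact_mod_cast h1
    linarith
  · intro a ha
    set C := cls v A' (i + 1) a with hC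
    have h1 : C.card ≤ σ := by
      have h2 := ((hBmem a).1 (hA'B ha)).2.2
      exact (card_le_card (filter_subset_filter _ (hA'B.trans hBA))).trans h2
    refine le_trans ?_ h1
    rw [card_eq_sum_card_image (pref v r) C, ← smul_eq_mul, ← sum_const]
    refine sum_le_sum fun l hl => ?_
    obtain ⟨c, hc, rfl⟩ := mem_image.1 hl
    have hc' : c ∈ A' ∧ pref v (i + 1) c = pref v (i + 1) a := by
      rw [hC, cls, mem_filter] at hc
      exact hc
    refine (hlow c ((hA'B.trans hBA) hc'.1)).trans (card_le_card ?_)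
    intro b hb
    unfold cls at hb
    rw [mem_filter] at hb ⊢
    refine ⟨?_, hb.2⟩
    have hbc : pref v (i + 1) b = pref v (i + 1) c := pref_mono v (by omega) hb.2
    rw [hC, cls, mem_filter]
    exact ⟨hkey c hc'.1 b hb.1 hbc, hbc.trans hc'.2⟩

end Pool.Agent.Lib.CSid
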