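import Pool.Agent.Lib.CSid.Digit

/-!
# The shape of the nontrivial solutions of `a + b = c + d`
-/

set_option autoImplicit false

namespace Pool.Agent.Lib.CSid

open Finset

/-- `a` and `c` have the smallest valuation at `p j` and are congruent -/
def Pr (p : ℕ → ℕ) (Y j : ℕ) (a c b d : ℤ) : Prop :=
  pv p j a = pv p j c ∧ pv p j a < pv p j b ∧ pv p j a < pv p j d ∧
    ((p j : ℕ) : ℤ) ^ (pv p j a + Y) ∣ a - c

lemma Pr.symm {p : ℕ → ℕ} {Y j : ℕ} {a c b d : ℤ} (h : Pr p Y j a c b d) : Pr p Y j c a d b := by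
  obtain ⟨h1, h2, h3, h4⟩ := h
  refine ⟨h1.symm, by omega, by omega, ?_⟩
  rw [← h1, ← neg_sub]
  exact (dvd_neg).2 h4

section

variable {p : ℕ → ℕ} {r Y : ℕ} {A : Finset ℤ} {U : ℤ → ℕ} {H : ℕ}

lemma type_cases (h : Prop1 p r A U H) (hY : 2 ≤ Y) (hS : Sep (pv p) A r Y) {j : ℕ} (hj : j < r)
    (hD : Dig (p j) (pv p j) A) {a b c d : ℤ} (ha : a ∈ A) (hb : b ∈ A) (hc : c ∈ A) (hd : d ∈ A)
    (he : a + b = c + d) :
    (pv p j a = pv p j b ∧ pv p j a = pv p j c ∧ pv p j a = pv p j d) ∨ Pr p Y j a c b d ∨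
      Pr p Y j a d b c ∨ Pr p Y j b c a d ∨ Pr p Y j b d a c := by
  set q : ℤ := ((p j : ℕ) : ℤ) with hq
  set v : ℤ → ℕ := pv p j with hv
  obtain ⟨w, hw1, hw2, hw3, hw4, hw5⟩ : ∃ w, w ≤ v a ∧ w ≤ v b ∧ w ≤ v c ∧ w ≤ v d ∧
      (v a = w ∨ v b = w ∨ v c = w ∨ v d = w) := by
    refine ⟨min (min (v a) (v b)) (min (v c) (v d)), ?_, ?_, ?_, ?_, ?_⟩ <;> omega
  have hval : ∀ x ∈ A, q ^ v x ∣ x ∧ ¬ q ^ (v x + 1) ∣ x := h.val j hj
  -- elements of higher valuation are divisible by `q ^ (w + Y)`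
  have hbig : ∀ x ∈ A, w ≤ v x → v x ≠ w → q ^ (w + Y) ∣ x := by
    intro x hx h1 h2
    obtain ⟨y, hy, hyw⟩ : ∃ y ∈ A, v y = w := by
      rcases hw5 with h3 | h3 | h3 | h3
      · exact ⟨a, ha, h3⟩
      · exact ⟨b, hb, h3⟩
      · exact ⟨c, hc, h3⟩
      · exact ⟨d, hd, h3⟩
    have h4 := hS j hj y hy x hx (by
      show v y < v x
      omega)
    have h5 : w + Y ≤ v x := by
      rw [← hyw]
      exact h4
    exact (pow_dvd_pow q h5).trans (hval x hx).1
  have hone : ∀ x ∈ A, v x = w → ¬ q ^ (w + Y) ∣ x := by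
    intro x hx h1 h2
    apply (hval x hx).2
    rw [h1]
    exact (pow_dvd_pow q (by omega)).trans h2
  have htwo : ∀ x ∈ A, ∀ y ∈ A, v x = w → v y = w → ¬ q ^ (w + Y) ∣ x + y := by
    intro x hx y hy h1 h2 h3
    apply (hD x hx y hy x hx (by show v x = v y; omega) rfl).1
    show q ^ (v x + 2) ∣ x + y
    rw [h1]
    exact (pow_dvd_pow q (by omega)).trans h3
  have hthree : ∀ x ∈ A, ∀ y ∈ A, ∀ z ∈ A, v x = w → v y = w → v z = w →
      ¬ q ^ (w + Y) ∣ x + y - z := by
    intro x hx y hy z hz h1 h2 h3 h4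
    apply (hD x hx y hy z hz (by show v x = v y; omega) (by show v x = v z; omega)).2
    show q ^ (v x + 2) ∣ x + y - z
    rw [h1]
    exact (pow_dvd_pow q (by omega)).trans h4
  by_cases ka : v a = w <;> by_cases kb : v b = w <;> by_cases kc : v c = w <;>
    by_cases kd : v d = w
  · left
    exact ⟨by omega, by omega, by omega⟩
  · exfalso
    apply hthree a ha b hb c hc ka kb kc
    have : a + b - c = d := by linarith
    rw [this]
    exact hbig d hd hw4 kd
  · exfalso
    apply hthree a ha b hb d hd ka kb kd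
    have : a + b - d = c := by linarith
    rw [this]
    exact hbig c hc hw3 kc
  · exfalso
    apply htwo a ha b hb ka kb
    rw [he]
    exact dvd_add (hbig c hc hw3 kc) (hbig d hd hw4 kd)
  · exfalso
    apply hthree c hc d hd a ha kc kd ka
    have : c + d - a = b := by linarith
    rw [this]
    exact hbig b hb hw2 kb
  · right; left
    refine ⟨by show v a = v c; omega, by show v a < v b; omega, by show v a < v d; omega, ?_⟩
    show q ^ (v a + Y) ∣ a - c
    have : a - c = d - b := by linarith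
    rw [this, ka]
    exact dvd_sub (hbig d hd hw4 kd) (hbig b hb hw2 kb)
  · right; right; left
    refine ⟨by show v a = v d; omega, by show v a < v b; omega, by show v a < v c; omega, ?_⟩
    show q ^ (v a + Y) ∣ a - d
    have : a - d = c - b := by linarith
    rw [this, ka]
    exact dvd_sub (hbig c hc hw3 kc) (hbig b hb hw2 kb)
  · exfalso
    apply hone a ha ka
    have : a = c + d - b := by linarith
    rw [this]
    exact dvd_sub (dvd_add (hbig c hc hw3 kc) (hbig d hd hw4 kd)) (hbig b hb hw2 kb)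
  · exfalso
    apply hthree c hc d hd b hb kc kd kb
    have : c + d - b = a := by linarith
    rw [this]
    exact hbig a ha hw1 ka
  · right; right; right; left
    refine ⟨by show v b = v c; omega, by show v b < v a; omega, by show v b < v d; omega, ?_⟩
    show q ^ (v b + Y) ∣ b - c
    have : b - c = d - a := by linarith
    rw [this, kb]
    exact dvd_sub (hbig d hd hw4 kd) (hbig a ha hw1 ka)
  · right; right; right; right
    refine ⟨by show v b = v d; omega, by show v b < v a; omega, by show v b < v c; omega, ?_⟩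
    show q ^ (v b + Y) ∣ b - d
    have : b - d = c - a := by linarith
    rw [this, kb]
    exact dvd_sub (hbig c hc hw3 kc) (hbig a ha hw1 ka)
  · exfalso
    apply hone b hb kb
    have : b = c + d - a := by linarith
    rw [this]
    exact dvd_sub (dvd_add (hbig c hc hw3 kc) (hbig d hd hw4 kd)) (hbig a ha hw1 ka)
  · exfalso
    apply htwo c hc d hd kc kd
    rw [← he]
    exact dvd_add (hbig a ha hw1 ka) (hbig b hb hw2 kb)
  · exfalso
    apply hone c hc kc
    have : c = a + b - d := by linarith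
    rw [this]
    exact dvd_sub (dvd_add (hbig a ha hw1 ka) (hbig b hb hw2 kb)) (hbig d hd hw4 kd)
  · exfalso
    apply hone d hd kd
    have : d = a + b - c := by linarith
    rw [this]
    exact dvd_sub (dvd_add (hbig a ha hw1 ka) (hbig b hb hw2 kb)) (hbig c hc hw3 kc)
  · exfalso
    rcases hw5 with h1 | h1 | h1 | h1
    · exact ka h1
    · exact kb h1
    · exact kc h1
    · exact kd h1

/-- the level of an element -/
def lv (p : ℕ → ℕ) (r : ℕ) (a : ℤ) : Fin r → ℕ := fun j => pv p j a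

lemma lv_eq_iff (p : ℕ → ℕ) (r : ℕ) (a b : ℤ) :
    lv p r a = lv p r b ↔ ∀ j < r, pv p j a = pv p j b := by
  constructor
  · intro h j hj
    exact congrFun h ⟨j, hj⟩
  · intro h
    funext j
    exact h j j.2

/-- two pairs with a common element -/
def OvP (p : ℕ → ℕ) (r Y : ℕ) (a b c d : ℤ) : Prop :=
  ∃ j < r, ∃ j' < r, Pr p Y j a c b d ∧ Pr p Y j' a d b c

/-- two disjoint pairs -/
def DisP (p : ℕ → ℕ) (r Y : ℕ) (a b c d : ℤ) : Prop :=
  (∀ j < r, (pv p j a = pv p j b ∧ pv p j a = pv p j c ∧ pv p j a = pv p j d) ∨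
    Pr p Y j a c b d ∨ Pr p Y j b d a c) ∧
    (∃ j < r, Pr p Y j a c b d) ∧ (∃ j < r, Pr p Y j b d a c)

lemma eq_of_level (h : Prop1 p r A U H) (hHY : H < 2 ^ Y) {a c : ℤ} (ha : a ∈ A) (hc : c ∈ A)
    (hl : ∀ j < r, pv p j a = pv p j c) {j : ℕ} (hj : j < r)
    (hd : ((p j : ℕ) : ℤ) ^ (pv p j a + Y) ∣ a - c) : a = c := h.inj hHY j hj a ha c hc hl hd

theorem classify (h : Prop1 p r A U H) (hHY : H < 2 ^ Y) (hY : 2 ≤ Y) (hS : Sep (pv p) A r Y)
    (hD : ∀ j < r, Dig (p j) (pv p j) A) {a b c d : ℤ} (ha : a ∈ A) (hb : b ∈ A) (hc : c ∈ A)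
    (hd : d ∈ A) (he : a + b = c + d) (hac : a ≠ c) (had : a ≠ d)
    (hl : ¬ (lv p r a = lv p r b ∧ lv p r a = lv p r c ∧ lv p r a = lv p r d)) :
    OvP p r Y a b c d ∨ OvP p r Y b a c d ∨ OvP p r Y c d a b ∨ OvP p r Y d c a b ∨
      DisP p r Y a b c d ∨ DisP p r Y a b d c := by
  have hcases := fun j (hj : j < r) => type_cases h hY hS hj (hD j hj) ha hb hc hd he
  by_cases e13 : ∃ j < r, Pr p Y j a c b d <;> by_cases e14 : ∃ j < r, Pr p Y j a d b c <;>
    by_cases e23 : ∃ j < r, Pr p Y j b c a d <;> by_cases e24 : ∃ j < r, Pr p Y j b d a c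
  all_goals first
    | (obtain ⟨j, hj, k1⟩ := e13
       obtain ⟨j', hj', k2⟩ := e14
       exact Or.inl ⟨j, hj, j', hj', k1, k2⟩)
    | (obtain ⟨j, hj, k1⟩ := e23
       obtain ⟨j', hj', k2⟩ := e24
       exact Or.inr (Or.inl ⟨j, hj, j', hj', k1, k2⟩))
    | (obtain ⟨j, hj, k1⟩ := e13
       obtain ⟨j', hj', k2⟩ := e23
       exact Or.inr (Or.inr (Or.inl ⟨j, hj, j', hj', k1.symm, k2.symm⟩)))
    | (obtain ⟨j, hj, k1⟩ := e14
       obtain ⟨j', hj', k2⟩ := e24
       exact Or.inr (Or.inr (Or.inr (Or.inl ⟨j, hj, j', hj', k1.symm, k2.symm⟩))))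
    | skip
  · -- e13, e24
    right; right; right; right; left
    refine ⟨fun j hj => ?_, e13, e24⟩
    rcases hcases j hj with k | k | k | k | k
    · exact Or.inl k
    · exact Or.inr (Or.inl k)
    · exact absurd ⟨j, hj, k⟩ e14
    · exact absurd ⟨j, hj, k⟩ e23
    · exact Or.inr (Or.inr k)
  · -- e13 only
    exfalso
    obtain ⟨j, hj, k1⟩ := e13
    apply hac
    refine eq_of_level h hHY ha hc ?_ hj k1.2.2.2
    intro i hi
    rcases hcases i hi with k | k | k | k | k
    · exact k.2.1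
    · exact k.1
    · exact absurd ⟨i, hi, k⟩ e14
    · exact absurd ⟨i, hi, k⟩ e23
    · exact absurd ⟨i, hi, k⟩ e24
  · -- e14, e23
    right; right; right; right; right
    refine ⟨fun j hj => ?_, e14, e23⟩
    rcases hcases j hj with k | k | k | k | k
    · exact Or.inl ⟨k.1, k.2.2, k.2.1⟩
    · exact absurd ⟨j, hj, k⟩ e13
    · exact Or.inr (Or.inl k)
    · exact Or.inr (Or.inr k)
    · exact absurd ⟨j, hj, k⟩ e24
  · -- e14 only
    exfalso
    obtain ⟨j, hj, k1⟩ := e14
    apply had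
    refine eq_of_level h hHY ha hd ?_ hj k1.2.2.2
    intro i hi
    rcases hcases i hi with k | k | k | k | k
    · exact k.2.2
    · exact absurd ⟨i, hi, k⟩ e13
    · exact k.1
    · exact absurd ⟨i, hi, k⟩ e23
    · exact absurd ⟨i, hi, k⟩ e24
  · -- e23 only
    exfalso
    obtain ⟨j, hj, k1⟩ := e23
    have hbc : b = c := by
      refine eq_of_level h hHY hb hc ?_ hj k1.2.2.2
      intro i hi
      rcases hcases i hi with k | k | k | k | k
      · exact k.1.symm.trans k.2.1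
      · exact absurd ⟨i, hi, k⟩ e13
      · exact absurd ⟨i, hi, k⟩ e14
      · exact k.1
      · exact absurd ⟨i, hi, k⟩ e24
    apply had
    linarith
  · -- e24 only
    exfalso
    obtain ⟨j, hj, k1⟩ := e24
    have hbd : b = d := by
      refine eq_of_level h hHY hb hd ?_ hj k1.2.2.2
      intro i hi
      rcases hcases i hi with k | k | k | k | k
      · exact k.1.symm.trans k.2.2
      · exact absurd ⟨i, hi, k⟩ e13
      · exact absurd ⟨i, hi, k⟩ e14
      · exact absurd ⟨i, hi, k⟩ e23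
      · exact k.1
    apply hac
    linarith
  · -- none
    exfalso
    apply hl
    have hall : ∀ j < r, pv p j a = pv p j b ∧ pv p j a = pv p j c ∧ pv p j a = pv p j d := by
      intro i hi
      rcases hcases i hi with k | k | k | k | k
      · exact k
      · exact absurd ⟨i, hi, k⟩ e13
      · exact absurd ⟨i, hi, k⟩ e14
      · exact absurd ⟨i, hi, k⟩ e23
      · exact absurd ⟨i, hi, k⟩ e24
    exact ⟨(lv_eq_iff _ _ _ _).2 fun j hj => (hall j hj).1,
      (lv_eq_iff _ _ _ _).2 fun j hj => (hall j hj).2.1,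
      (lv_eq_iff _ _ _ _).2 fun j hj => (hall j hj).2.2⟩

lemma OvP.distinct {a b c d : ℤ} (h : OvP p r Y a b c d) :
    lv p r a ≠ lv p r b ∧ lv p r a ≠ lv p r c ∧ lv p r a ≠ lv p r d ∧ lv p r b ≠ lv p r c ∧
      lv p r b ≠ lv p r d ∧ lv p r c ≠ lv p r d := by
  obtain ⟨j, hj, j', hj', ⟨h1, h2, h3, -⟩, ⟨g1, g2, g3, -⟩⟩ := h
  simp only [ne_eq, lv_eq_iff]
  refine ⟨fun k => ?_, fun k => ?_, fun k => ?_, fun k => ?_, fun k => ?_, fun k => ?_⟩
  · have := k j hj; omega
  · have := k j' hj'; omega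
  · have := k j hj; omega
  · have := k j hj; omega
  · have := k j' hj'; omega
  · have := k j hj; omega

lemma DisP.distinct (hP : Prop1 p r A U H) (hHY : H < 2 ^ Y) {a b c d : ℤ} (ha : a ∈ A)
    (hb : b ∈ A) (hc : c ∈ A) (hd : d ∈ A) (he : a + b = c + d) (hac : a ≠ c)
    (h : DisP p r Y a b c d) :
    lv p r a ≠ lv p r b ∧ lv p r a ≠ lv p r c ∧ lv p r a ≠ lv p r d ∧ lv p r b ≠ lv p r c ∧
      lv p r b ≠ lv p r d ∧ lv p r c ≠ lv p r d := by
  obtain ⟨-, ⟨j, hj, h1, h2, h3, h4⟩, ⟨j', hj', g1, g2, g3, g4⟩⟩ := h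
  simp only [ne_eq, lv_eq_iff]
  refine ⟨fun k => ?_, fun k => ?_, fun k => ?_, fun k => ?_, fun k => ?_, fun k => ?_⟩
  · have := k j hj; omega
  · exact hac (eq_of_level hP hHY ha hc k hj h4)
  · have := k j hj; omega
  · have := k j hj; omega
  · have : b = d := eq_of_level hP hHY hb hd k hj' g4
    apply hac
    linarith
  · have := k j hj; omega

end

end Pool.Agent.Lib.CSid
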